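import Mathlib

/-!
# Congruences modulo `p` and `p ^ 2` for the roots of `(T - m) ∏ (T - c_l) = v`
-/

set_option autoImplicit false

namespace Pool.Agent.H31.Frob

open Finset Polynomial

section ring

variable {R : Type} [CommRing R]

/-- `T ∏ (T - c_l) ≡ T ^ n (T - ∑ c_l)` modulo `p ^ 2` -/
theorem prod_sub_sq {ι : Type} (q : R) (c : ι → R) (hc : ∀ l, q ∣ c l) (T : R) (s : Finset ι) :
    q ^ 2 ∣ T * ∏ l ∈ s, (T - c l) - T ^ s.card * (T - ∑ l ∈ s, c l) := by
  classical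
  induction s using Finset.induction_on with
  | empty => simp
  | insert a s ha ih =>
    obtain ⟨r, hr⟩ := ih
    obtain ⟨x, hx⟩ := hc a
    have h1 : q ∣ ∑ l ∈ s, c l := Finset.dvd_sum fun l _ => hc l
    obtain ⟨y, hy⟩ := h1
    rw [Finset.prod_insert ha, Finset.sum_insert ha, Finset.card_insert_of_notMem ha]
    refine ⟨(T - c a) * r + T ^ s.card * x * y, ?_⟩
    rw [hy] at hr ⊢
    rw [hx]
    rw [hx] at *
    linear_combination (T - q * x) * hr

/-- the product is `T ^ n` modulo `p ^ 2` -/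
theorem prod_sub_sq' {ι : Type} (q : R) (c : ι → R) (hc : ∀ l, q ∣ c l) (T : R) (hT : IsUnit T)
    (s : Finset ι) (hs : q ^ 2 ∣ ∑ l ∈ s, c l) :
    q ^ 2 ∣ ∏ l ∈ s, (T - c l) - T ^ s.card := by
  have h1 := prod_sub_sq q c hc T s
  obtain ⟨x, hx⟩ := hs
  obtain ⟨r, hr⟩ := h1
  rw [← hT.dvd_mul_left]
  refine ⟨r - T ^ s.card * x, ?_⟩
  rw [hx] at hr
  linear_combination hr

/-- the polynomial congruence modulo `p` -/
theorem prod_sub_poly {ι : Type} (q : R) (c : ι → R) (hc : ∀ l, q ∣ c l) (s : Finset ι) :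
    ∃ g : R[X], ∏ l ∈ s, (X - C (c l)) = X ^ s.card + C q * g := by
  classical
  induction s using Finset.induction_on with
  | empty => exact ⟨0, by simp⟩
  | insert a s ha ih =>
    obtain ⟨g, hg⟩ := ih
    obtain ⟨x, hx⟩ := hc a
    rw [Finset.prod_insert ha, Finset.card_insert_of_notMem ha, hg, hx]
    refine ⟨(X - C (q * x)) * g - C x * X ^ s.card, ?_⟩
    rw [C_mul]
    ring

end ring

section prime

variable {R : Type} [CommRing R] {p : ℕ} [hp : Fact p.Prime]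

/-- the polynomial `∑_{0 < k < p} (1/p) (p choose k) m^(p-k) s^k` -/
def V (p : ℕ) (m s : R) : R := ∑ k ∈ Finset.Ico 1 p, ((p.choose k / p : ℕ) : R) * m ^ (p - k) * s ^ k

theorem V_spec (m s : R) : (m + s) ^ p = m ^ p + s ^ p + (p : R) * V p m s := by
  have hp1 : 1 ≤ p := hp.out.one_lt.le
  rw [add_pow]
  have h1 : Finset.range (p + 1) = insert p (insert 0 (Finset.Ico 1 p)) := by
    ext k
    simp only [Finset.mem_range, Finset.mem_insert, Finset.mem_Ico]
    omega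
  rw [h1, Finset.sum_insert, Finset.sum_insert]
  · have h2 : ∀ k ∈ Finset.Ico 1 p, m ^ k * s ^ (p - k) * ((p.choose k : ℕ) : R) =
        (p : R) * (((p.choose k / p : ℕ) : R) * m ^ k * s ^ (p - k)) := by
      intro k hk
      rw [Finset.mem_Ico] at hk
      have h3 : p ∣ p.choose k := hp.out.dvd_choose_self (by omega) hk.2
      have h4 : ((p.choose k : ℕ) : R) = (p : R) * ((p.choose k / p : ℕ) : R) := by
        rw [← Nat.cast_mul, Nat.mul_div_cancel' h3]
      rw [h4]; ring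
    rw [Finset.sum_congr rfl h2, ← Finset.mul_sum]
    have h5 : ∑ k ∈ Finset.Ico 1 p, ((p.choose k / p : ℕ) : R) * m ^ k * s ^ (p - k) = V p m s := by
      unfold V
      refine Finset.sum_nbij' (fun k => p - k) (fun k => p - k) ?_ ?_ ?_ ?_ ?_
      · intro k hk; rw [Finset.mem_Ico] at *; omega
      · intro k hk; rw [Finset.mem_Ico] at *; omega
      · intro k hk; rw [Finset.mem_Ico] at hk; omega
      · intro k hk; rw [Finset.mem_Ico] at hk; omega
      · intro k hk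
        rw [Finset.mem_Ico] at hk
        have h6 : p - (p - k) = k := by omega
        rw [h6, Nat.choose_symm (by omega)]
    rw [h5]
    simp
    ring
  · simp
  · simp only [Finset.mem_insert, Finset.mem_Ico]
    omega

/-- **the Frobenius congruence** -/
theorem frob (m v Xa Xb Y : R) (hY : Xb * Y = 1) (hv : v ^ p = v) (q : R) (hq : m ^ p - m = p * q)
    (ha : (p : R) ∣ Xa ^ p * (Xa - m) - v) (hb : (p : R) ^ 2 ∣ Xb ^ p * (Xb - m) - v)
    (hab : (p : R) ∣ Xa ^ p - Xb) :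
    (p : R) ^ 2 ∣ Xa ^ p * Y - (1 + p * (Y * (q + V p m (v * Y)))) := by
  -- `Xa ≡ m + v Y`
  have h1 : (p : R) ∣ Xa - (m + v * Y) := by
    obtain ⟨x, hx⟩ := ha
    obtain ⟨y, hy⟩ := hab
    refine ⟨Y * (x - y * (Xa - m)), ?_⟩
    linear_combination Y * hx - (Xa - m) * Y * hy - (Xa - m) * hY
  have h2 : (p : R) ^ 2 ∣ Xa ^ p - (m + v * Y) ^ p := by
    have := dvd_sub_pow_of_dvd_sub h1 1
    simpa using this
  -- `Xb ≡ m + v Y ^ p`
  have hYp : Xb ^ p * Y ^ p = 1 := by rw [← mul_pow, hY, one_pow]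
  have h3 : (p : R) ^ 2 ∣ Xb - (m + v * Y ^ p) := by
    obtain ⟨x, hx⟩ := hb
    refine ⟨Y ^ p * x, ?_⟩
    linear_combination Y ^ p * hx - (Xb - m) * hYp
  have h4 := V_spec (p := p) m (v * Y)
  rw [h4, mul_pow, hv] at h2
  obtain ⟨x, hx⟩ := h2
  obtain ⟨y, hy⟩ := h3
  refine ⟨Y * (x - y), ?_⟩
  linear_combination Y * hx - Y * hy + hY + Y * hq

/-- the value at `Z = Xa ^ p` -/
theorem frob_value (m v Xa : R) (hv : v ^ p = v) (q : R) (hq : m ^ p - m = p * q)
    (ha : (p : R) ∣ Xa ^ p * (Xa - m) - v) (h2 : p ≠ 2) :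
    (p : R) ∣ (Xa ^ p) ^ p * (Xa ^ p - m) - v := by
  have hodd : Odd p := hp.out.odd_of_ne_two h2
  have h1 : (p : R) ∣ (Xa ^ p * (Xa - m)) ^ p - v ^ p := by
    exact ha.trans (sub_dvd_pow_sub_pow _ _ _)
  rw [hv, mul_pow] at h1
  have h3 := V_spec (p := p) (-m) Xa
  have h4 : (-m + Xa) = Xa - m := by ring
  rw [h4, hodd.neg_pow] at h3
  rw [h3] at h1
  obtain ⟨x, hx⟩ := h1
  refine ⟨x + (Xa ^ p) ^ p * (q - V p (-m) Xa), ?_⟩
  linear_combination hx + (Xa ^ p) ^ p * hq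

end prime

end Pool.Agent.H31.Frob
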