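import Pool.Agent.H31.Frob.Alg

/-!
# The unit ball of a non-archimedean field
-/

set_option autoImplicit false

namespace Pool.Agent.H31.Frob

open Finset Polynomial

section

variable (Ω : Type) [NormedField Ω] [IsUltrametricDist Ω]

/-- the unit ball -/
def ball : Subring Ω where
  carrier := {x | ‖x‖ ≤ 1}
  mul_mem' := by
    intro a b ha hb
    simp only [Set.mem_setOf_eq, norm_mul] at *
    exact mul_le_one₀ ha (norm_nonneg _) hb
  one_mem' := by simp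
  add_mem' := by
    intro a b ha hb
    simp only [Set.mem_setOf_eq] at *
    exact (IsUltrametricDist.norm_add_le_max a b).trans (max_le ha hb)
  zero_mem' := by simp
  neg_mem' := by
    intro a ha
    simp only [Set.mem_setOf_eq, norm_neg] at *
    exact ha

end

section

variable {Ω : Type} [NormedField Ω] [IsUltrametricDist Ω]

theorem mem_ball {x : Ω} : x ∈ ball Ω ↔ ‖x‖ ≤ 1 := Iff.rfl

theorem norm_coe_le (x : ball Ω) : ‖(x : Ω)‖ ≤ 1 := x.2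

theorem ball_dvd {q x : ball Ω} (hq : q ≠ 0) : q ∣ x ↔ ‖(x : Ω)‖ ≤ ‖(q : Ω)‖ := by
  have hq' : (q : Ω) ≠ 0 := fun h => hq (Subtype.ext h)
  constructor
  · rintro ⟨y, rfl⟩
    have h1 : ((q * y : ball Ω) : Ω) = (q : Ω) * (y : Ω) := rfl
    rw [h1, norm_mul]
    exact mul_le_of_le_one_right (norm_nonneg _) y.2
  · intro h
    refine ⟨⟨(q : Ω)⁻¹ * (x : Ω), ?_⟩, ?_⟩
    · rw [mem_ball, norm_mul, norm_inv, inv_mul_le_iff₀ (norm_pos_iff.2 hq'), mul_one]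
      exact h
    · apply Subtype.ext
      show (x : Ω) = (q : Ω) * ((q : Ω)⁻¹ * (x : Ω))
      rw [mul_inv_cancel_left₀ hq']

theorem ball_isUnit {x : ball Ω} (hx : ‖(x : Ω)‖ = 1) : IsUnit x := by
  have h0 : (x : Ω) ≠ 0 := by
    intro h; rw [h, norm_zero] at hx; exact zero_ne_one hx
  refine IsUnit.of_mul_eq_one (⟨(x : Ω)⁻¹, by rw [mem_ball, norm_inv, hx, inv_one]⟩ : ball Ω) ?_
  apply Subtype.ext
  exact mul_inv_cancel₀ h0

theorem norm_sum_le' {ι : Type} (s : Finset ι) (f : ι → Ω) (C : ℝ) (hC : 0 ≤ C)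
    (h : ∀ i ∈ s, ‖f i‖ ≤ C) : ‖∑ i ∈ s, f i‖ ≤ C :=
  IsUltrametricDist.norm_sum_le_of_forall_le_of_nonneg hC h

theorem norm_add_le' {a b : Ω} {C : ℝ} (ha : ‖a‖ ≤ C) (hb : ‖b‖ ≤ C) : ‖a + b‖ ≤ C :=
  (IsUltrametricDist.norm_add_le_max a b).trans (max_le ha hb)

theorem norm_sub_le'' {a b : Ω} {C : ℝ} (ha : ‖a‖ ≤ C) (hb : ‖b‖ ≤ C) : ‖a - b‖ ≤ C := by
  rw [sub_eq_add_neg]
  exact norm_add_le' ha (by rw [norm_neg]; exact hb)

theorem norm_lt_of {a b : Ω} {C : ℝ} (ha : ‖a‖ < C) (hb : ‖b‖ < C) : ‖a + b‖ < C :=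
  (IsUltrametricDist.norm_add_le_max a b).trans_lt (max_lt ha hb)

theorem norm_add_eq_right {a b : Ω} (h : ‖a‖ < ‖b‖) : ‖a + b‖ = ‖b‖ := by
  rw [IsUltrametricDist.norm_add_eq_max_of_norm_ne_norm h.ne, max_eq_right h.le]

theorem norm_sub_eq_right {a b : Ω} (h : ‖a‖ < ‖b‖) : ‖a - b‖ = ‖b‖ := by
  rw [sub_eq_add_neg, norm_add_eq_right (by rw [norm_neg]; exact h), norm_neg]

theorem norm_sub_eq_left {a b : Ω} (h : ‖b‖ < ‖a‖) : ‖a - b‖ = ‖a‖ := by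
  rw [norm_sub_rev, norm_sub_eq_right h]

end

end Pool.Agent.H31.Frob
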