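import Pool.Agent.H31.Frob.Tools

/-!
# Products and limits
-/

set_option autoImplicit false

namespace Pool.Agent.H31.Frob

open Finset Filter Topology Polynomial

theorem zprod_sum {ι G : Type} [CommGroup G] (s : Finset ι) (x : G) (f : ι → ℤ) :
    ∏ i ∈ s, x ^ f i = x ^ (∑ i ∈ s, f i) := by
  classical
  induction s using Finset.induction_on with
  | empty => simp
  | insert a s ha ih => rw [Finset.prod_insert ha, Finset.sum_insert ha, zpow_add, ih]

theorem zprod_sum₀ {ι F : Type} [Field F] (s : Finset ι) {x : F} (hx : x ≠ 0) (f : ι → ℤ) :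
    ∏ i ∈ s, x ^ f i = x ^ (∑ i ∈ s, f i) := by
  classical
  induction s using Finset.induction_on with
  | empty => simp
  | insert a s ha ih => rw [Finset.prod_insert ha, Finset.sum_insert ha, zpow_add₀ hx, ih]

section lim

variable {Ω : Type} [NormedField Ω]

theorem lim_le {α : Type} [Fintype α] (M : ℕ → α → ℤ) (w : α → Ω)
    (hw : ∀ a, Tendsto (fun n => ((M n a : ℤ) : Ω)) atTop (𝓝 (w a))) (K : α → Ω) (B : ℝ)
    (h : ∀ᶠ n in atTop, ‖∑ a, (M n a : Ω) * K a‖ ≤ B) : ‖∑ a, w a * K a‖ ≤ B := by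
  have h1 : Tendsto (fun n => ‖∑ a, (M n a : Ω) * K a‖) atTop (𝓝 ‖∑ a, w a * K a‖) := by
    refine Tendsto.norm ?_
    exact tendsto_finsetSum _ fun a _ => (hw a).mul tendsto_const_nhds
  exact le_of_tendsto h1 h

end lim

namespace Dat

variable {Ω : Type} [NormedField Ω] [IsUltrametricDist Ω]

theorem pow_sub_one_le {x : Ω} {B : ℝ} (hB : B < 1) (h : ‖x - 1‖ ≤ B) (n : ℕ) : ‖x ^ n - 1‖ ≤ B := by
  have hx : ‖x‖ = 1 := by
    have e : x = (x - 1) + 1 := by ring
    rw [e, norm_add_eq_right (by rw [norm_one]; exact h.trans_lt hB), norm_one]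
  induction n with
  | zero => simp; exact (norm_nonneg _).trans h
  | succ n ih =>
    have e : x ^ (n + 1) - 1 = (x ^ n - 1) * x + (x - 1) := by ring
    rw [e]
    refine norm_add_le' ?_ h
    rw [norm_mul, hx, mul_one]
    exact ih

theorem div_sub_one_le {x y : Ω} {B : ℝ} (hB : B < 1) (hx : ‖x - 1‖ ≤ B) (hy : ‖y - 1‖ ≤ B) :
    ‖x * y⁻¹ - 1‖ ≤ B := by
  have hy1 : ‖y‖ = 1 := by
    have e : y = (y - 1) + 1 := by ring
    rw [e, norm_add_eq_right (by rw [norm_one]; exact hy.trans_lt hB), norm_one]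
  have hy0 : y ≠ 0 := by intro h; rw [h, norm_zero] at hy1; exact zero_ne_one hy1
  have e : x * y⁻¹ - 1 = ((x - 1) - (y - 1)) * y⁻¹ := by field_simp; ring
  rw [e, norm_mul, norm_inv, hy1, inv_one, mul_one]
  exact norm_sub_le'' hx hy

end Dat

end Pool.Agent.H31.Frob
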