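import Pool.Agent.H31.Frob.Main
import Pool.Agent.H31.Leo.Cubic

/-!
# Integers in one or two residue classes
-/

set_option autoImplicit false

namespace Pool.Agent.H31.Frob

open Finset Polynomial NumberField Filter Topology

open Pool.Agent.H31.Leo (Leopoldt)

/-- the integers `a_i` lie in one or two residue classes modulo `p` -/
def TwoClasses (p : ℕ) {n : ℕ} (a : Fin n → ℤ) : Prop :=
  (Admissible p n ∧ ∀ i j, (p : ℤ) ∣ a i - a j) ∨
  ∃ S : Finset (Fin n), S.card = p ∧ Admissible p (n - p) ∧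
    (∀ i ∈ S, ∀ j ∈ S, (p : ℤ) ∣ a i - a j) ∧ (∀ i ∉ S, ∀ j ∉ S, (p : ℤ) ∣ a i - a j) ∧
    (∀ i ∈ S, ∀ j ∉ S, ¬ (p : ℤ) ∣ a i - a j) ∧ ∀ j ∈ S, (p : ℤ) ^ 2 ∣ ∑ i ∈ S, (a i - a j)

section ring

variable {R α : Type} [CommRing R]

theorem comp_prod' (S : Finset α) (x : α → R) (a : R) :
    (∏ i ∈ S, (X - C (x i))).comp (X + C a) = ∏ i ∈ S, (X - C (x i - a)) := by
  rw [Polynomial.prod_comp]
  refine Finset.prod_congr rfl fun i _ => ?_
  rw [sub_comp, X_comp, C_comp, C_sub]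
  ring

theorem coeff_prod_dvd (q : R) (c : α → R) (S : Finset α) (hc : ∀ i ∈ S, q ∣ c i) :
    ∀ i, q ^ (S.card - i) ∣ (∏ l ∈ S, (X - C (c l))).coeff i := by
  classical
  induction S using Finset.induction_on with
  | empty => intro i; simp
  | insert a S ha ih =>
    intro i
    have ih' := ih fun j hj => hc j (Finset.mem_insert_of_mem hj)
    rw [Finset.prod_insert ha, Finset.card_insert_of_notMem ha, sub_mul, coeff_sub, coeff_C_mul]
    refine dvd_sub ?_ ?_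
    · cases i with
      | zero => rw [coeff_X_mul_zero]; exact dvd_zero _
      | succ i =>
        rw [coeff_X_mul]
        have := ih' i
        rwa [show S.card + 1 - (i + 1) = S.card - i by omega]
    · have h1 : q ^ (S.card + 1 - i) ∣ q * q ^ (S.card - i) := by
        rw [← pow_succ']
        exact pow_dvd_pow q (by omega)
      exact h1.trans (mul_dvd_mul (hc a (Finset.mem_insert_self _ _)) (ih' i))

end ring

section

variable {p : ℕ} [hp : Fact p.Prime]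

theorem dvd_int_iff (z : ℤ) : (p : ℤ_[p]) ∣ (z : ℤ_[p]) ↔ (p : ℤ) ∣ z := by
  rw [← PadicInt.norm_lt_one_iff_dvd]
  exact PadicInt.norm_int_lt_one_iff_dvd z

theorem congruent_prod {n : ℕ} (a : Fin n → ℤ) (S : Finset (Fin n)) (j : ℤ)
    (h : ∀ i ∈ S, (p : ℤ) ∣ a i - j) :
    Congruent p (∏ i ∈ S, (X - C ((a i : ℤ) : ℤ_[p]))) (j : ℤ_[p]) := by
  intro i _
  have hd : (∏ i ∈ S, (X - C ((a i : ℤ) : ℤ_[p]))).natDegree = S.card := by
    rw [natDegree_prod_of_monic _ _ fun i _ => monic_X_sub_C _]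
    simp only [natDegree_X_sub_C, Finset.sum_const, smul_eq_mul, mul_one]
  rw [hd, comp_prod']
  refine coeff_prod_dvd (p : ℤ_[p]) (fun i => ((a i : ℤ) : ℤ_[p]) - (j : ℤ_[p])) S ?_ i
  intro l hl
  rw [← Int.cast_sub, dvd_int_iff]
  exact h l hl

theorem good_of {n : ℕ} (a : Fin n → ℤ) (h : TwoClasses p a) :
    Good p (∏ i, (X - C ((a i : ℤ) : ℤ_[p]))) := by
  classical
  have hdeg : ∀ S : Finset (Fin n), (∏ i ∈ S, (X - C ((a i : ℤ) : ℤ_[p]))).natDegree = S.card := by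
    intro S
    rw [natDegree_prod_of_monic _ _ fun i _ => monic_X_sub_C _]
    simp only [natDegree_X_sub_C, Finset.sum_const, smul_eq_mul, mul_one]
  rcases h with ⟨h1, h2⟩ | ⟨S, hS, hadm, h1, h2, h3, h4⟩
  · left
    refine ⟨?_, ?_⟩
    · rw [hdeg, Finset.card_univ, Fintype.card_fin]
      exact h1
    · have hn := h1.1
      exact ⟨((a ⟨0, hn⟩ : ℤ) : ℤ_[p]), congruent_prod a univ _ fun i _ => h2 _ _⟩
  · right
    have hSne : S.Nonempty := by
      rw [← Finset.card_pos, hS]; exact hp.out.pos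
    have hcard : (Sᶜ).card = n - p := by
      rw [Finset.card_compl, hS, Fintype.card_fin]
    have hSne' : (Sᶜ).Nonempty := by
      rw [← Finset.card_pos, hcard]; exact hadm.1
    obtain ⟨i, hi⟩ := hSne
    obtain ⟨j, hj⟩ := hSne'
    rw [Finset.mem_compl] at hj
    refine ⟨∏ i ∈ S, (X - C ((a i : ℤ) : ℤ_[p])), ∏ i ∈ Sᶜ, (X - C ((a i : ℤ) : ℤ_[p])),
      ((a i : ℤ) : ℤ_[p]), ((a j : ℤ) : ℤ_[p]), ?_, ?_, ?_, ?_, ?_, ?_, ?_, ?_, ?_⟩
    · exact (Finset.prod_mul_prod_compl S _).symm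
    · exact monic_prod_of_monic _ _ fun i _ => monic_X_sub_C _
    · exact monic_prod_of_monic _ _ fun i _ => monic_X_sub_C _
    · rw [hdeg, hS]
    · rw [hdeg, hcard]; exact hadm
    · rw [← Int.cast_sub, dvd_int_iff]
      exact h3 i hi j hj
    · exact congruent_prod a S _ fun l hl => h1 l hl i hi
    · exact congruent_prod a Sᶜ _ fun l hl => h2 l (Finset.mem_compl.1 hl) j hj
    · have h5 := Polynomial.prod_X_sub_C_coeff_card_pred S
        (fun l => ((a l : ℤ) : ℤ_[p]) - ((a i : ℤ) : ℤ_[p])) (by rw [hS]; exact hp.out.pos)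
      rw [hS] at h5
      rw [comp_prod', h5, dvd_neg]
      obtain ⟨z, hz⟩ := h4 i hi
      refine ⟨(z : ℤ_[p]), ?_⟩
      have h6 := congrArg (fun t : ℤ => (t : ℤ_[p])) hz
      push_cast at h6
      rw [← h6]

variable {K : Type} [Field K] [NumberField K]

/-- **explicit fields** -/
theorem explicit (h2 : p ≠ 2) {n : ℕ} (hn : Module.finrank ℚ K = n) (a : Fin n → ℤ)
    (ha : Function.Injective a) (hcl : TwoClasses p a) (θ : 𝓞 K)
    (hgen : IntermediateField.adjoin ℚ {(θ : K)} = ⊤)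
    (hθ : ∏ i, (θ - ((a i : ℤ) : 𝓞 K)) = 1 ∨ ∏ i, (θ - ((a i : ℤ) : 𝓞 K)) = -1) :
    IsTotallyReal K ∧ Leopoldt K p := by
  set φ : 𝓞 ℚ →+* ℤ_[p] := (Int.castRingHom ℤ_[p]).comp Rat.ringOfIntegersEquiv.toRingHom with hφ
  obtain ⟨v, hv⟩ : ∃ v : (𝓞 ℚ)ˣ, ∏ i, (θ - algebraMap (𝓞 ℚ) (𝓞 K) ((a i : ℤ) : 𝓞 ℚ)) =
      algebraMap (𝓞 ℚ) (𝓞 K) v := by
    simp only [map_intCast]
    rcases hθ with h | h
    · exact ⟨1, by rw [h]; simp⟩
    · exact ⟨-1, by rw [h]; simp⟩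
  obtain ⟨h1, h3⟩ := split (K := K) h2 φ Leo.rank_rat hgen hn (fun i => ((a i : ℤ) : 𝓞 ℚ))
    (fun i j hij => ha (by simpa using hij)) v hv (by
      simp only [map_intCast]
      exact good_of a hcl)
  refine ⟨?_, h3⟩
  have h4 := InfinitePlace.card_add_two_mul_card_eq_rank K
  have h5 := InfinitePlace.card_eq_nrRealPlaces_add_nrComplexPlaces K
  have h6 : Units.rank K = Fintype.card (InfinitePlace K) - 1 := rfl
  have h7 : 0 < Fintype.card (InfinitePlace K) := Fintype.card_pos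
  rw [hn] at h4
  have hc : InfinitePlace.nrComplexPlaces K = 0 := by omega
  exact nrComplexPlaces_eq_zero_iff.1 hc

end

end Pool.Agent.H31.Frob
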