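import Pool.Agent.H31.Frob.Padic

/-!
# The conjugates of `θ`
-/

set_option autoImplicit false

namespace Pool.Agent.H31.Frob

open Finset Polynomial NumberField Filter Topology

section

variable {k K : Type} [Field k] [NumberField k] [Field K] [NumberField K] [Algebra k K]
  {p : ℕ} [hp : Fact p.Prime] [Algebra k (PadicAlgCl p)]

/-- the points -/
theorem points (φ : 𝓞 k →+* ℤ_[p])
    (hφ : ∀ x : 𝓞 k, algebraMap k (PadicAlgCl p) (x : k) = emb p (φ x)) {θ : K}
    (hgen : IntermediateField.adjoin k {θ} = ⊤) (G : (𝓞 k)[X]) (hG : G.Monic)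
    (hdeg : G.natDegree = Module.finrank k K) (hpos : 0 < G.natDegree) (v : 𝓞 k)
    (hθ : aeval θ (G.map (algebraMap (𝓞 k) k)) = algebraMap k K (v : k)) :
    (G.map (algebraMap (𝓞 k) k)).map (algebraMap k (PadicAlgCl p)) = (G.map φ).map (emb p) ∧
    ∏ σ : K →ₐ[k] PadicAlgCl p, (X - C (σ θ)) = (G.map φ).map (emb p) - C (emb p (φ v)) := by
  have h1 : (G.map (algebraMap (𝓞 k) k)).map (algebraMap k (PadicAlgCl p)) = (G.map φ).map (emb p) := by
    rw [Polynomial.map_map, Polynomial.map_map]
    congr 1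
    ext x
    exact hφ x
  refine ⟨h1, ?_⟩
  set P : k[X] := G.map (algebraMap (𝓞 k) k) - C (v : k) with hP
  have hGm : (G.map (algebraMap (𝓞 k) k)).Monic := hG.map _
  have hGd : (G.map (algebraMap (𝓞 k) k)).natDegree = G.natDegree := hG.natDegree_map _
  have hlt : (C (v : k)).degree < (G.map (algebraMap (𝓞 k) k)).degree := by
    refine lt_of_le_of_lt degree_C_le ?_
    rw [Polynomial.degree_eq_natDegree hGm.ne_zero, hGd]
    exact_mod_cast hpos
  have hPm : P.Monic := hGm.sub_of_left hlt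
  have hPd : P.natDegree = Module.finrank k K := by
    rw [hP, natDegree_sub_C, hGd, hdeg]
  have h2 := prod_points (Ω := PadicAlgCl p) hgen hPm hPd (by
    rw [hP, map_sub, hθ, aeval_C, sub_self])
  rw [h2, hP, Polynomial.map_sub, h1, map_C, hφ]

end

end Pool.Agent.H31.Frob
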