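import Pool.Agent.H31.Frob.One1

/-!
# Instances of rigidity: one and two residue classes
-/

set_option autoImplicit false

namespace Pool.Agent.H31.Frob

open Finset Polynomial NumberField Filter Topology

/-- `v_p(k) ≤ k - n` for all `k ≥ n` -/
def Admissible (p n : ℕ) : Prop := 1 ≤ n ∧ ∀ k, n ≤ k → padicValNat p k + n ≤ k

/-- all the roots of the monic polynomial `H` are congruent to `m` modulo `p` -/
def Congruent (p : ℕ) [Fact p.Prime] (H : ℤ_[p][X]) (m : ℤ_[p]) : Prop :=
  ∀ i < H.natDegree, (p : ℤ_[p]) ^ (H.natDegree - i) ∣ (H.comp (X + C m)).coeff i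

/-- one or two residue classes -/
def Good (p : ℕ) [Fact p.Prime] (G : ℤ_[p][X]) : Prop :=
  (Admissible p G.natDegree ∧ ∃ a : ℤ_[p], Congruent p G a) ∨
  ∃ (H H' : ℤ_[p][X]) (a a' : ℤ_[p]), G = H * H' ∧ H.Monic ∧ H'.Monic ∧ H.natDegree = p ∧
    Admissible p H'.natDegree ∧ ¬ (p : ℤ_[p]) ∣ a - a' ∧ Congruent p H a ∧ Congruent p H' a' ∧
    (p : ℤ_[p]) ^ 2 ∣ (H.comp (X + C a)).coeff (p - 1)

section

variable {F : Type} [Field F] {α : Type} [Fintype α]

theorem comp_prod (x : α → F) (a : F) :
    (∏ i, (X - C (x i))).comp (X + C a) = ∏ i, (X - C (x i - a)) := by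
  rw [Polynomial.prod_comp]
  refine Finset.prod_congr rfl fun i _ => ?_
  rw [sub_comp, X_comp, C_comp, C_sub]
  ring

end

theorem rigid_shift {Ω : Type} [NormedField Ω] {p : ℕ} {O κ : Type} [Fintype O] {c : O → Ω}
    {X : κ → Ω} (a : Ω) (h : Rigid p (fun o => c o - a) (fun i => X i - a)) : Rigid p c X := by
  classical
  intro M w hw hrel
  obtain ⟨t, ht⟩ := h M w hw (by simpa only [sub_sub_sub_cancel_right] using hrel)
  refine ⟨t, fun β => ?_⟩
  have h1 := ht (β - a)
  simp only [sub_left_inj] at h1
  exact h1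

section

variable {p : ℕ} [hp : Fact p.Prime]

/-- the nodes of a class -/
theorem class_nodes {H : ℤ_[p][X]} (hH : H.Monic) {m : ℤ_[p]} (hm : Congruent p H m) :
    ∃ (O : Type) (_ : Fintype O) (c : O → PadicAlgCl p), Fintype.card O = H.natDegree ∧
      ∏ o, (X - C (c o)) = H.map (emb p) ∧ (∀ o, ‖c o - emb p m‖ ≤ (p : ℝ)⁻¹) ∧
      (0 < H.natDegree →
        ∑ o, (c o - emb p m) = -(emb p ((H.comp (X + C m)).coeff (H.natDegree - 1)))) := by
  have hHm : (H.map (emb p)).Monic := hH.map _
  have hHd : (H.map (emb p)).natDegree = H.natDegree := hH.natDegree_map _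
  obtain ⟨O, hO, c, hcard, hc⟩ := exists_nodes hHm
  rw [hHd] at hcard
  -- the shifted polynomial
  set H1 : ℤ_[p][X] := H.comp (X + C m) with hH1
  have h1m : H1.Monic := hH.comp_X_add_C m
  have h1d : H1.natDegree = H.natDegree := by
    rw [hH1, natDegree_comp, natDegree_X_add_C, mul_one]
  have h1map : H1.map (emb p) = ∏ o, (X - C (c o - emb p m)) := by
    rw [hH1, Polynomial.map_comp, Polynomial.map_add, map_X, map_C, ← hc, comp_prod]
  refine ⟨O, hO, c, hcard, hc, ?_, ?_⟩
  · intro o
    refine root_small (h1m.map (emb p)) ?_ (y := c o - emb p m) ?_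
    · intro i hi
      rw [h1m.natDegree_map, h1d] at hi ⊢
      rw [coeff_map, norm_emb]
      exact norm_le_of_dvd (hm i hi)
    · rw [h1map, eval_prod]
      exact Finset.prod_eq_zero (Finset.mem_univ o) (by simp)
  · intro hpos
    have h4 := Polynomial.prod_X_sub_C_coeff_card_pred (Finset.univ : Finset O)
      (fun o => c o - emb p m) (by rw [Finset.card_univ, hcard]; exact hpos)
    rw [← h1map, Finset.card_univ, hcard, coeff_map] at h4
    rw [h4, neg_neg]

theorem norm_eq_one_of_not_dvd {x : ℤ_[p]} (h : ¬ (p : ℤ_[p]) ∣ x) : ‖x‖ = 1 := by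
  rw [← PadicInt.norm_lt_one_iff_dvd] at h
  exact le_antisymm (PadicInt.norm_le_one x) (not_lt.1 h)

end

section

variable {k K : Type} [Field k] [NumberField k] [Field K] [NumberField K] [Algebra k K]
  {p : ℕ} [hp : Fact p.Prime] [Algebra k (PadicAlgCl p)]

/-- rigidity for one or two classes -/
theorem rigid_good (h2 : p ≠ 2) (φ : 𝓞 k →+* ℤ_[p])
    (hφ : ∀ x : 𝓞 k, algebraMap k (PadicAlgCl p) (x : k) = emb p (φ x)) {θ : K}
    (hgen : IntermediateField.adjoin k {θ} = ⊤) (G : (𝓞 k)[X]) (hG : G.Monic)
    (hdeg : G.natDegree = Module.finrank k K) (v : 𝓞 k) {n : ℕ} (hn : 0 < n)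
    (hv : v ^ n = 1)
    (hθ : aeval θ (G.map (algebraMap (𝓞 k) k)) = algebraMap k K (v : k)) (hgood : Good p (G.map φ)) :
    ∃ (O : Type) (_ : Fintype O) (c : O → PadicAlgCl p),
      ∏ o, (X - C (c o)) = (G.map (algebraMap (𝓞 k) k)).map (algebraMap k (PadicAlgCl p)) ∧
      Rigid p c fun σ : K →ₐ[k] PadicAlgCl p => σ θ := by
  have h3 : 3 ≤ p := by
    have := hp.out.two_le
    omega
  have hpn := norm_p_algCl (p := p)
  have hpos : 0 < G.natDegree := by rw [hdeg]; exact Module.finrank_pos
  obtain ⟨e1, e2⟩ := points φ hφ hgen G hG hdeg hpos v hθ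
  have hφv : (φ v) ^ n = 1 := by rw [← map_pow, hv, map_one]
  have hφv' := pow_eq_self_of_tors h3 hn hφv
  have hnv : ‖φ v‖ = 1 := by
    have h4 := congrArg norm hφv
    rw [norm_pow, norm_one] at h4
    exact (pow_eq_one_iff_of_nonneg (norm_nonneg _) hn.ne').1 h4
  have hGφ : (G.map φ).Monic := hG.map _
  have hGd : (G.map φ).natDegree = G.natDegree := hG.natDegree_map _
  have hinj := eval_inj (k := k) (K := K) (Ω := PadicAlgCl p) hgen
  rcases hgood with ⟨hadm, a, hcong⟩ | ⟨H, H', a, a', hHH, hHm, hHm', hHp, hadm, hne, hcong, hcong', hsum⟩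
  · -- one class
    obtain ⟨O, hO, c, hcard, hc, hsmall, -⟩ := class_nodes hGφ hcong
    rw [hGd] at hcard
    set D : On (PadicAlgCl p) p G.natDegree O (K →ₐ[k] PadicAlgCl p) :=
      { hpn := hpn
        h3 := h3
        hn := hpos
        hval := by rw [hGd] at hadm; exact hadm.2
        cardO := hcard
        cardκ := by rw [AlgHom.card, hdeg]
        c := fun o => c o - emb p a
        v := emb p (φ v)
        X := fun σ => σ θ - emb p a
        hc := hsmall
        hv := by rw [← map_pow, hφv']
        hv1 := by rw [norm_emb, hnv]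
        inj := fun σ τ hστ => hinj (sub_left_injective hστ)
        fac := by
          rw [← comp_prod, ← comp_prod, e2, hc]
          simp } with hD
    refine ⟨O, hO, c, by rw [hc, e1], ?_⟩
    exact rigid_shift (emb p a) D.rigid
  · -- two classes
    obtain ⟨ι, hι, c, hcard, hc, hsmall, hs⟩ := class_nodes hHm hcong
    obtain ⟨ι', hι', c', hcard', hc', hsmall', hs'⟩ := class_nodes hHm' hcong'
    set d := H'.natDegree with hd
    have hd1 : 1 ≤ d := hadm.1
    rw [hHp] at hcard
    have hs := hs (by rw [hHp]; exact hp.out.pos)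
    have hs' := hs' (by omega)
    rw [hHp] at hs
    -- the inverse of `d`
    have hpd : ¬ p ∣ d := by
      intro h
      have h1 := hadm.2 d le_rfl
      have h2 : padicValNat p d ≠ 0 := by
        intro h0
        rw [padicValNat.eq_zero_iff] at h0
        rcases h0 with h0 | h0 | h0
        · exact hp.out.one_lt.ne' h0
        · omega
        · exact h0 h
      omega
    have hdu : IsUnit (d : ℤ_[p]) := PadicInt.isUnit_iff.2 (norm_eq_one_of_not_dvd (not_unit_dvd hpd))
    obtain ⟨u, hu⟩ := hdu.exists_right_inv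
    set β : ℤ_[p] := (H'.comp (X + C a')).coeff (d - 1) with hβ
    have hβp : (p : ℤ_[p]) ∣ β := by
      have h4 := hcong' (d - 1) (by omega)
      have h5 : d - (d - 1) = 1 := by omega
      rw [← hd, h5, pow_one] at h4
      exact h4
    set m : ℤ_[p] := (a' - a) - β * u with hm
    have hm1 : ‖m‖ = 1 := by
      apply norm_eq_one_of_not_dvd
      intro h
      apply hne
      have h4 : a - a' = -(m + β * u) := by rw [hm]; ring
      rw [h4, dvd_neg]
      exact dvd_add h (Dvd.dvd.mul_right hβp _)
    have hshift : ∀ l, (c' l - emb p a) - emb p m = (c' l - emb p a') + emb p (β * u) := by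
      intro l
      rw [hm]
      simp only [map_sub]
      ring
    have hfac : ∏ σ : K →ₐ[k] PadicAlgCl p, (X - C (σ θ)) =
        (∏ l, (X - C (c l))) * (∏ l, (X - C (c' l))) - C (emb p (φ v)) := by
      rw [e2, hHH, Polynomial.map_mul, hc, hc']
    have hcardκ : Fintype.card (K →ₐ[k] PadicAlgCl p) = p + d := by
      rw [AlgHom.card, ← hdeg, ← hGd, hHH, hHm.natDegree_mul hHm', hHp]
    set D : Tw (PadicAlgCl p) p d ι ι' (K →ₐ[k] PadicAlgCl p) :=
      { hpn := hpn
        h3 := h3
        hd := hd1
        hval := hadm.2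
        cardι := hcard
        cardι' := hcard'
        cardκ := hcardκ
        c := fun l => c l - emb p a
        c' := fun l => c' l - emb p a
        m := emb p m
        v := emb p (φ v)
        X := fun σ => σ θ - emb p a
        hc := hsmall
        hcs := by rw [hs, norm_neg, norm_emb]; exact norm_le_of_dvd hsum
        hc' := by
          intro l
          rw [hshift]
          refine norm_add_le' (hsmall' l) ?_
          rw [norm_emb]
          have h6 : (p : ℤ_[p]) ^ 1 ∣ β * u := by rw [pow_one]; exact Dvd.dvd.mul_right hβp _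
          have h7 := norm_le_of_dvd h6
          rw [pow_one] at h7
          exact h7
        hcs' := by
          have h8 : ∑ l, ((c' l - emb p a) - emb p m) = 0 := by
            rw [Finset.sum_congr rfl fun l _ => hshift l, Finset.sum_add_distrib, hs',
              Finset.sum_const, Finset.card_univ, hcard', nsmul_eq_mul]
            have h9 : ((d : ℕ) : PadicAlgCl p) = emb p (d : ℤ_[p]) := (map_natCast _ _).symm
            rw [h9, ← map_mul, ← map_neg, ← map_add]
            have h10 : -β + (d : ℤ_[p]) * (β * u) = 0 := by linear_combination β * hu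
            rw [h10, map_zero]
          rw [h8, norm_zero]
          exact pow_nonneg (inv_nonneg.2 (Nat.cast_nonneg _)) _
        hm := by rw [norm_emb, hm1]
        hmp := by
          rw [← map_pow, ← map_sub, norm_emb]
          have h6 : (p : ℤ_[p]) ^ 1 ∣ m ^ p - m := by rw [pow_one]; exact fermat m
          have h7 := norm_le_of_dvd h6
          rw [pow_one] at h7
          exact h7
        hv := by rw [← map_pow, hφv']
        hv1 := by rw [norm_emb, hnv]
        inj := fun σ τ hστ => hinj (sub_left_injective hστ)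
        fac := by
          rw [← comp_prod, ← comp_prod, ← comp_prod, hfac]
          simp } with hD
    refine ⟨ι ⊕ ι', inferInstance, Sum.elim c c', ?_, ?_⟩
    · rw [e1, hHH, Polynomial.map_mul, ← hc, ← hc', Fintype.prod_sum_type]
      simp
    · refine rigid_shift (emb p a) ?_
      have h5 := D.rigid
      have h6 : D.cc = fun o => Sum.elim c c' o - emb p a := by
        funext o
        rcases o with o | o <;> rfl
      rw [h6] at h5
      exact h5

end

end Pool.Agent.H31.Frob
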