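import Pool.Agent.H31.Frob.NF

/-!
# Leopoldt's conjecture from rigidity
-/

set_option autoImplicit false

namespace Pool.Agent.H31.Frob

open Finset Polynomial NumberField Filter Topology

open Pool.Agent.H31.Leo (Leopoldt leopoldt_of)

theorem le_rank {K : Type} [Field K] [NumberField K] {r : ℕ} (E : Fin r → (𝓞 K)ˣ)
    (hE : ∀ c : Fin r → ℤ, ∏ i, E i ^ c i = 1 → c = 0) : r ≤ Units.rank K := by
  have h1 : LinearIndependent ℤ (fun i => Additive.ofMul (E i)) := by
    rw [Fintype.linearIndependent_iff]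
    intro c hc
    have h2 : ∏ i, E i ^ c i = 1 := by
      have h3 := congrArg Additive.toMul hc
      rw [toMul_sum, toMul_zero] at h3
      exact h3
    intro i
    rw [hE c h2]; rfl
  have h2 := h1.fintype_card_le_finrank
  rwa [Units.finrank_eq, Fintype.card_fin] at h2

section

variable {k K : Type} [Field k] [NumberField k] [Field K] [NumberField K] [Algebra k K]
  {p : ℕ} [hp : Fact p.Prime]

theorem norm_p_algCl : ‖((p : ℕ) : PadicAlgCl p)‖ = (p : ℝ)⁻¹ := by
  have h1 : ((p : ℕ) : PadicAlgCl p) = algebraMap ℚ_[p] (PadicAlgCl p) (p : ℚ_[p]) := by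
    rw [map_natCast]
  rw [h1]
  have h2 := PadicAlgCl.norm_extends p (p : ℚ_[p])
  exact h2.trans (by rw [Padic.norm_p])

/-- the embedding of the `p`-adic integers -/
noncomputable def emb (p : ℕ) [Fact p.Prime] : ℤ_[p] →+* PadicAlgCl p :=
  (algebraMap ℚ_[p] (PadicAlgCl p)).comp PadicInt.Coe.ringHom

theorem norm_emb (x : ℤ_[p]) : ‖emb p x‖ = ‖x‖ :=
  PadicAlgCl.norm_extends p (x : ℚ_[p])

theorem emb_inj : Function.Injective (emb p) := by
  intro x y h
  have h1 : emb p (x - y) = 0 := by rw [map_sub, h, sub_self]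
  have h2 := norm_emb (x - y)
  rw [h1, norm_zero] at h2
  exact sub_eq_zero.1 (norm_eq_zero.1 h2.symm)

theorem emb_tendsto {m : ℕ → ℤ} {a : ℤ_[p]} (h : Tendsto (fun n => ((m n : ℤ) : ℤ_[p])) atTop (𝓝 a)) :
    Tendsto (fun n => ((m n : ℤ) : PadicAlgCl p)) atTop (𝓝 (emb p a)) := by
  rw [tendsto_iff_norm_sub_tendsto_zero] at h ⊢
  refine h.congr fun n => ?_
  have h1 : ((m n : ℤ) : PadicAlgCl p) - emb p a = emb p (((m n : ℤ) : ℤ_[p]) - a) := by
    rw [map_sub, map_intCast]
  rw [h1, norm_emb]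

variable [Algebra k (PadicAlgCl p)] {O : Type} [Fintype O] {g : ℕ}

/-- the rank of the unit group is at least `g`, and Leopoldt's conjecture holds if it is `g` -/
theorem leopoldt_of_rigid (h : Fin (g + 1) → k[X]) (hm : ∀ j, (h j).Monic)
    (hd : ∀ j, 0 < (h j).natDegree) (hcop : Pairwise fun i j => IsCoprime (h i) (h j)) (θ : K)
    (U : Fin (g + 1) → (𝓞 K)ˣ) (hU : ∀ j, ((U j : 𝓞 K) : K) = aeval θ (h j))
    (c : O → PadicAlgCl p)
    (hc : ∏ o, (X - C (c o)) = (∏ j, h j).map (algebraMap k (PadicAlgCl p)))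
    (hr : Rigid p c fun σ : K →ₐ[k] PadicAlgCl p => σ θ) :
    g ≤ Units.rank K ∧ (Units.rank K ≤ g → Leopoldt K p) := by
  have key : ∀ (M : ℕ → Fin g → ℤ) (w : Fin g → ℤ_[p]),
      (∀ j, Tendsto (fun n => ((M n j : ℤ) : ℤ_[p])) atTop (𝓝 (w j))) →
      (∀ N : ℕ, ∀ᶠ n in atTop,
        ((p : ℕ) : 𝓞 K) ^ N ∣ (((∏ j, U (Fin.succ j) ^ M n j : (𝓞 K)ˣ) : 𝓞 K) - 1)) → w = 0 := by
    intro M w hlim hrel
    obtain ⟨t, ht⟩ := rel_units (norm_p_algCl (p := p)) h hm hd hcop θ U hU c hc hr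
      (fun n => Fin.cons 0 (M n)) (Fin.cons 0 fun j => emb p (w j)) (by
        intro j
        refine Fin.cases ?_ (fun j => ?_) j
        · simp only [Fin.cons_zero, Int.cast_zero]
          exact tendsto_const_nhds
        · simp only [Fin.cons_succ]
          exact emb_tendsto (hlim j)) (by
        intro N
        filter_upwards [hrel N] with n hn
        rw [Fin.prod_univ_succ]
        simp only [Fin.cons_zero, Fin.cons_succ, zpow_zero, one_mul]
        exact hn)
    have h0 := ht 0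
    rw [Fin.cons_zero] at h0
    funext j
    have h1 := ht (Fin.succ j)
    rw [Fin.cons_succ, ← h0] at h1
    exact emb_inj (by rw [h1]; exact (map_zero _).symm)
  have hE : ∀ c : Fin g → ℤ, ∏ i, U (Fin.succ i) ^ c i = 1 → c = 0 := by
    intro c hc
    have h1 := key (fun _ => c) (fun j => ((c j : ℤ) : ℤ_[p])) (fun j => tendsto_const_nhds)
      (fun N => Eventually.of_forall fun k => by rw [hc]; simp)
    funext j
    have h2 : ((c j : ℤ) : ℤ_[p]) = 0 := congrFun h1 j
    show c j = 0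
    exact_mod_cast h2
  have hle := le_rank (fun i => U (Fin.succ i)) hE
  refine ⟨hle, fun hrank => ?_⟩
  exact leopoldt_of (le_antisymm hrank hle) p (fun i => U (Fin.succ i)) key

end

end Pool.Agent.H31.Frob
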