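import Pool.Agent.H31.Frob.Roots

/-!
# Approximate logarithms `(x ^ (p ^ j) - 1) / p ^ j`
-/

set_option autoImplicit false

namespace Pool.Agent.H31.Frob

open Finset Polynomial

section ring

variable {R : Type} [CommRing R] {p : ℕ} [hp : Fact p.Prime]

theorem V_one (a : R) : ∃ r : R, V p 1 a = a + a ^ 2 * r := by
  unfold V
  have h1 : Finset.Ico 1 p = insert 1 (Finset.Ico 2 p) := by
    ext k
    have := hp.out.two_le
    simp only [Finset.mem_insert, Finset.mem_Ico]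
    omega
  rw [h1, Finset.sum_insert (by simp)]
  have h2 : p.choose 1 / p = 1 := by
    rw [Nat.choose_one_right, Nat.div_self hp.out.pos]
  have h3 : a ^ 2 ∣ ∑ k ∈ Finset.Ico 2 p, ((p.choose k / p : ℕ) : R) * 1 ^ (p - k) * a ^ k := by
    refine Finset.dvd_sum fun k hk => ?_
    rw [Finset.mem_Ico] at hk
    exact Dvd.dvd.mul_left (pow_dvd_pow a hk.1) _
  obtain ⟨r, hr⟩ := h3
  refine ⟨r, ?_⟩
  rw [h2, hr]
  simp

theorem pow_step (h3 : 3 ≤ p) (t : R) (n : ℕ) (hn : 1 ≤ n) :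
    ∃ r : R, (1 + (p : R) ^ n * t) ^ p = 1 + (p : R) ^ (n + 1) * t + (p : R) ^ (n + 2) * r := by
  have h1 := V_spec (p := p) (1 : R) ((p : R) ^ n * t)
  obtain ⟨r, hr⟩ := V_one (p := p) ((p : R) ^ n * t)
  have h2 : (p : R) ^ (n + 2) ∣ ((p : R) ^ n * t) ^ p := by
    rw [mul_pow, ← pow_mul]
    refine Dvd.dvd.mul_right (pow_dvd_pow _ ?_) _
    nlinarith
  have h4 : (p : R) ^ (n + 2) ∣ (p : R) * (((p : R) ^ n * t) ^ 2 * r) := by
    rw [mul_pow, ← pow_mul, ← mul_assoc, ← mul_assoc, ← pow_succ']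
    refine Dvd.dvd.mul_right (Dvd.dvd.mul_right (pow_dvd_pow _ ?_) _) _
    omega
  obtain ⟨x, hx⟩ := h2
  obtain ⟨y, hy⟩ := h4
  refine ⟨x + y, ?_⟩
  rw [h1, hr, hx, one_pow]
  rw [mul_add (p : R), hy]
  ring

theorem pow_tower (h3 : 3 ≤ p) (t : R) (j : ℕ) :
    ∃ r : R, (1 + (p : R) * t) ^ (p ^ j) = 1 + (p : R) ^ j * (p * t + (p : R) ^ 2 * r) := by
  induction j with
  | zero => exact ⟨0, by simp⟩
  | succ j ih =>
    obtain ⟨r, hr⟩ := ih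
    rw [pow_succ, pow_mul, hr]
    obtain ⟨s, hs⟩ := pow_step h3 (t + p * r) (j + 1) (by omega)
    refine ⟨r + s, ?_⟩
    have e : (1 : R) + (p : R) ^ j * (p * t + (p : R) ^ 2 * r) = 1 + (p : R) ^ (j + 1) * (t + p * r) := by
      ring
    rw [e, hs]
    ring

end ring

section field

variable {Ω : Type} [NormedField Ω] [IsUltrametricDist Ω] {p : ℕ} [hp : Fact p.Prime]

/-- `(x ^ (p ^ j) - 1) / p ^ j` -/
noncomputable def L (p : ℕ) (j : ℕ) (x : Ω) : Ω := (x ^ (p ^ j) - 1) / (p : Ω) ^ j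

include hp

theorem p_ne (hpn : ‖(p : Ω)‖ = (p : ℝ)⁻¹) : (p : Ω) ≠ 0 := by
  intro h
  rw [h, norm_zero] at hpn
  exact (Dat.invp_pos (p := p)).ne hpn

theorem L_spec (hpn : ‖(p : Ω)‖ = (p : ℝ)⁻¹) (j : ℕ) (x : Ω) :
    x ^ (p ^ j) = 1 + (p : Ω) ^ j * L p j x := by
  unfold L
  rw [mul_div_cancel₀ _ (pow_ne_zero _ (p_ne hpn))]
  ring

/-- `L j x ≡ x - 1` modulo `p ^ 2` -/
theorem L_approx (hpn : ‖(p : Ω)‖ = (p : ℝ)⁻¹) (h3 : 3 ≤ p) (j : ℕ) (x : Ω)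
    (hx : ‖x - 1‖ ≤ (p : ℝ)⁻¹) : ‖L p j x - (x - 1)‖ ≤ (p : ℝ)⁻¹ ^ 2 := by
  have hp0 := p_ne hpn
  have h0 : ‖(x - 1) / (p : Ω)‖ ≤ 1 := by
    rw [norm_div, hpn]
    rw [div_le_one Dat.invp_pos]
    exact hx
  set t : ball Ω := ⟨(x - 1) / (p : Ω), h0⟩ with ht
  obtain ⟨r, hr⟩ := pow_tower h3 t j
  have h1 := congrArg (fun y : ball Ω => (y : Ω)) hr
  have h2 : (1 + (p : Ω) * ((x - 1) / (p : Ω))) ^ (p ^ j) =
      1 + (p : Ω) ^ j * (p * ((x - 1) / (p : Ω)) + (p : Ω) ^ 2 * (r : Ω)) := h1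
  rw [mul_div_cancel₀ _ hp0, add_sub_cancel] at h2
  have h4 : L p j x = (x - 1) + (p : Ω) ^ 2 * (r : Ω) := by
    unfold L
    rw [h2, add_sub_cancel_left, mul_div_cancel_left₀ _ (pow_ne_zero _ hp0)]
  rw [h4, add_sub_cancel_left, norm_mul, norm_pow, hpn]
  exact mul_le_of_le_one_right (pow_nonneg Dat.invp_pos.le _) (norm_coe_le r)

theorem L_norm (hpn : ‖(p : Ω)‖ = (p : ℝ)⁻¹) (h3 : 3 ≤ p) (j : ℕ) (x : Ω)
    (hx : ‖x - 1‖ ≤ (p : ℝ)⁻¹) : ‖L p j x‖ ≤ (p : ℝ)⁻¹ := by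
  have h1 := L_approx hpn h3 j x hx
  have h2 : L p j x = (L p j x - (x - 1)) + (x - 1) := by ring
  rw [h2]
  refine norm_add_le' (h1.trans ?_) hx
  exact pow_le_of_le_one Dat.invp_pos.le Dat.invp_lt.le two_ne_zero

/-! ### the expansion -/

/-- the coefficients `(-1) ^ k (p ^ j choose k) / p ^ j` -/
noncomputable def A (Ω : Type) [NormedField Ω] (p j k : ℕ) : Ω :=
  (-1) ^ k * (((p ^ j).choose k : ℕ) : Ω) / (p : Ω) ^ j

omit [IsUltrametricDist Ω] in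
theorem L_expand (hpn : ‖(p : Ω)‖ = (p : ℝ)⁻¹) (j : ℕ) (z : Ω) :
    L p j (1 - z) = ∑ k ∈ Finset.Ico 1 (p ^ j + 1), A Ω p j k * z ^ k := by
  have hp0 : (p : Ω) ≠ 0 := by
    intro h
    rw [h, norm_zero] at hpn
    exact (Dat.invp_pos (p := p)).ne hpn
  have h1 : (1 - z) ^ (p ^ j) = 1 + ∑ k ∈ Finset.Ico 1 (p ^ j + 1), (-1) ^ k * (((p ^ j).choose k : ℕ) : Ω) * z ^ k := by
    have e : (1 - z) = -z + 1 := by ring
    rw [e, add_pow]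
    have h2 : Finset.range (p ^ j + 1) = insert 0 (Finset.Ico 1 (p ^ j + 1)) := by
      ext k
      simp only [Finset.mem_range, Finset.mem_insert, Finset.mem_Ico]
      omega
    rw [h2, Finset.sum_insert (by simp)]
    congr 1
    · simp
    · refine Finset.sum_congr rfl fun k _ => ?_
      rw [one_pow, mul_one, neg_pow]
      ring
  unfold L
  rw [h1, add_sub_cancel_left, Finset.sum_div]
  refine Finset.sum_congr rfl fun k _ => ?_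
  unfold A
  ring

theorem norm_unit (hpn : ‖(p : Ω)‖ = (p : ℝ)⁻¹) {u : ℕ} (hu : ¬ p ∣ u) : ‖(u : Ω)‖ = 1 := by
  refine le_antisymm (IsUltrametricDist.norm_natCast_le_one Ω _) ?_
  by_contra h
  push Not at h
  have hcop : IsCoprime (p : ℤ) (u : ℤ) := by
    rw [Nat.isCoprime_iff_coprime]
    exact (hp.out.coprime_iff_not_dvd).2 hu
  obtain ⟨a, b, hab⟩ := hcop
  have h1 : ((a : ℤ) : Ω) * (p : Ω) + ((b : ℤ) : Ω) * (u : Ω) = 1 := by exact_mod_cast congrArg (fun z : ℤ => (z : Ω)) hab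
  have h2 : ‖((a : ℤ) : Ω) * (p : Ω) + ((b : ℤ) : Ω) * (u : Ω)‖ < 1 := by
    refine norm_lt_of ?_ ?_
    · rw [norm_mul, hpn]
      exact lt_of_le_of_lt (mul_le_of_le_one_left Dat.invp_pos.le (IsUltrametricDist.norm_intCast_le_one Ω _)) Dat.invp_lt
    · rw [norm_mul]
      exact lt_of_le_of_lt (mul_le_of_le_one_left (norm_nonneg _) (IsUltrametricDist.norm_intCast_le_one Ω _)) h
  rw [h1, norm_one] at h2
  exact lt_irrefl _ h2

theorem norm_nat (hpn : ‖(p : Ω)‖ = (p : ℝ)⁻¹) {k : ℕ} (hk : k ≠ 0) :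
    ‖(k : Ω)‖ = (p : ℝ)⁻¹ ^ (padicValNat p k) := by
  obtain ⟨u, hu⟩ : p ^ (padicValNat p k) ∣ k := pow_padicValNat_dvd
  have hnd : ¬ p ∣ u := by
    intro h
    obtain ⟨w, hw⟩ := h
    apply pow_succ_padicValNat_not_dvd hk (p := p)
    refine ⟨w, ?_⟩
    conv_lhs => rw [hu, hw]
    ring
  conv_lhs => rw [hu]
  rw [Nat.cast_mul, Nat.cast_pow, norm_mul, norm_pow, hpn, norm_unit hpn hnd, mul_one]

/-- `k A_k = ± (p ^ j - 1 choose k - 1)` -/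
theorem A_mul (hpn : ‖(p : Ω)‖ = (p : ℝ)⁻¹) (j k : ℕ) (hk : 1 ≤ k) :
    ‖A Ω p j k‖ * ‖(k : Ω)‖ = ‖(((p ^ j - 1).choose (k - 1) : ℕ) : Ω)‖ := by
  have hp0 := p_ne hpn
  obtain ⟨k, rfl⟩ : ∃ i, k = i + 1 := ⟨k - 1, by omega⟩
  obtain ⟨n, hn⟩ : ∃ n, p ^ j = n + 1 := ⟨p ^ j - 1, by have := Nat.one_le_pow j p hp.out.pos; omega⟩
  have h1 := Nat.add_one_mul_choose_eq n k
  have h2 : (((n + 1).choose (k + 1) : ℕ) : Ω) * ((k + 1 : ℕ) : Ω) = ((n + 1 : ℕ) : Ω) * ((n.choose k : ℕ) : Ω) := by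
    exact_mod_cast congrArg (fun z : ℕ => (z : Ω)) h1.symm
  have h3 : ((n + 1 : ℕ) : Ω) = (p : Ω) ^ j := by rw [← hn]; push_cast; rfl
  have h4 : A Ω p j (k + 1) * ((k + 1 : ℕ) : Ω) = (-1) ^ (k + 1) * ((n.choose k : ℕ) : Ω) := by
    unfold A
    rw [hn]
    rw [h3] at h2
    field_simp
    linear_combination h2
  rw [← norm_mul, h4, norm_mul, norm_pow, norm_neg, norm_one, one_pow, one_mul, hn]
  simp

theorem choose_unit {j k : ℕ} (hj : 1 ≤ j) (hk : k < p) : ¬ p ∣ (p ^ j - 1).choose k := by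
  intro h
  have h1 : p ∣ (p ^ j - 1).descFactorial k := by
    rw [Nat.descFactorial_eq_factorial_mul_choose]
    exact Dvd.dvd.mul_left h _
  rw [Nat.descFactorial_eq_prod_range, hp.out.prime.dvd_finset_prod_iff] at h1
  obtain ⟨t, ht, h2⟩ := h1
  rw [Finset.mem_range] at ht
  have h3 : p ≤ p ^ j := Nat.le_self_pow (by omega) p
  have h4 : p ∣ p ^ j := dvd_pow_self _ (by omega)
  have h5 : p ∣ t + 1 := by
    have h6 : t + 1 = p ^ j - (p ^ j - 1 - t) := by omega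
    rw [h6]
    exact Nat.dvd_sub h4 h2
  exact absurd (Nat.le_of_dvd (by omega) h5) (by omega)

/-- for `1 ≤ k < p` -/
theorem A_eq_one (hpn : ‖(p : Ω)‖ = (p : ℝ)⁻¹) {j k : ℕ} (hj : 1 ≤ j) (hk : 1 ≤ k) (hkp : k < p) :
    ‖A Ω p j k‖ = 1 := by
  have h1 := A_mul hpn j k hk
  rw [norm_unit hpn (choose_unit hj (by omega)), norm_unit hpn (fun h =>
    absurd (Nat.le_of_dvd (by omega) h) (by omega)), mul_one] at h1
  exact h1

theorem A_ge_one (hpn : ‖(p : Ω)‖ = (p : ℝ)⁻¹) {j k : ℕ} (hj : 1 ≤ j) (hk : 1 ≤ k) (hkp : k ≤ p) :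
    1 ≤ ‖A Ω p j k‖ := by
  have h1 := A_mul hpn j k hk
  rw [norm_unit hpn (choose_unit hj (by omega))] at h1
  by_contra h
  push Not at h
  have h2 : ‖A Ω p j k‖ * ‖(k : Ω)‖ < 1 :=
    lt_of_le_of_lt (mul_le_of_le_one_right (norm_nonneg _) (IsUltrametricDist.norm_natCast_le_one Ω _)) h
  rw [h1] at h2
  exact lt_irrefl _ h2

theorem A_le (hpn : ‖(p : Ω)‖ = (p : ℝ)⁻¹) (j : ℕ) {k : ℕ} (hk : 1 ≤ k) :
    ‖A Ω p j k‖ * (p : ℝ)⁻¹ ^ (padicValNat p k) ≤ 1 := by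
  rw [← norm_nat hpn (by omega), A_mul hpn j k hk]
  exact IsUltrametricDist.norm_natCast_le_one Ω _

theorem val_bound (h3 : 3 ≤ p) {k : ℕ} (hk : p + 1 ≤ k) : padicValNat p k + (p + 1) ≤ k := by
  obtain ⟨u, hu⟩ : p ^ (padicValNat p k) ∣ k := pow_padicValNat_dvd
  set v := padicValNat p k with hv
  have hu0 : 1 ≤ u := by
    rcases Nat.eq_zero_or_pos u with h | h
    · rw [h, mul_zero] at hu; omega
    · exact h
  rcases Nat.eq_zero_or_pos v with h0 | h0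
  · omega
  rcases Nat.lt_or_ge v 2 with h1 | h1
  · have hv1 : v = 1 := by omega
    rw [hv1, pow_one] at hu
    have hu2 : 2 ≤ u := by
      by_contra hc
      have : u = 1 := by omega
      rw [this, mul_one] at hu
      omega
    rw [hv1]
    nlinarith
  · have h4 : v ≤ p ^ (v - 1) := by
      have := (v - 1).lt_pow_self hp.out.one_lt
      omega
    have h5 : p * v ≤ k := by
      calc p * v ≤ p * p ^ (v - 1) := Nat.mul_le_mul_left _ h4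
        _ = p ^ v := by rw [← pow_succ']; congr 1; omega
        _ ≤ p ^ v * u := Nat.le_mul_of_pos_right _ hu0
        _ = k := hu.symm
    nlinarith

/-- the tail -/
theorem A_tail (hpn : ‖(p : Ω)‖ = (p : ℝ)⁻¹) (h3 : 3 ≤ p) (j : ℕ) {k : ℕ} (hk : p + 1 ≤ k) :
    ‖A Ω p j k‖ * (p : ℝ)⁻¹ ^ k ≤ (p : ℝ)⁻¹ ^ (p + 1) := by
  have h1 := A_le hpn j (k := k) (by omega)
  have h2 := val_bound h3 hk
  obtain ⟨e, he⟩ : ∃ e, k = padicValNat p k + ((p + 1) + e) := ⟨k - padicValNat p k - (p + 1), by omega⟩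
  have h4 : (p : ℝ)⁻¹ ^ k = (p : ℝ)⁻¹ ^ (padicValNat p k) * ((p : ℝ)⁻¹ ^ (p + 1) * (p : ℝ)⁻¹ ^ e) := by
    conv_lhs => rw [he]
    rw [pow_add, pow_add]
  rw [h4, ← mul_assoc]
  have h5 : (p : ℝ)⁻¹ ^ e ≤ 1 := pow_le_one₀ Dat.invp_pos.le Dat.invp_lt.le
  have h6 : (0 : ℝ) ≤ (p : ℝ)⁻¹ ^ (p + 1) := pow_nonneg Dat.invp_pos.le _
  calc ‖A Ω p j k‖ * (p : ℝ)⁻¹ ^ (padicValNat p k) * ((p : ℝ)⁻¹ ^ (p + 1) * (p : ℝ)⁻¹ ^ e)
      ≤ 1 * ((p : ℝ)⁻¹ ^ (p + 1) * 1) := by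
        refine mul_le_mul h1 (mul_le_mul_of_nonneg_left h5 h6) ?_ zero_le_one
        exact mul_nonneg h6 (pow_nonneg Dat.invp_pos.le _)
    _ = (p : ℝ)⁻¹ ^ (p + 1) := by ring

end field

end Pool.Agent.H31.Frob
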