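import Pool.Agent.H31.Frob.Inst2

/-!
# Leopoldt's conjecture for one or two residue classes
-/

set_option autoImplicit false

namespace Pool.Agent.H31.Frob

open Finset Polynomial NumberField Filter Topology

open Pool.Agent.H31.Leo (Leopoldt leopoldt_of)

section

variable {k K : Type} [Field k] [NumberField k] [Field K] [NumberField K] [Algebra k K]
  {p : ℕ} [hp : Fact p.Prime]

theorem exists_hom (φ : 𝓞 k →+* ℤ_[p]) :
    ∃ f : k →+* PadicAlgCl p, ∀ x : 𝓞 k, f (x : k) = emb p (φ x) := by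
  have hinj : Function.Injective ((emb p).comp φ) := emb_inj.comp (Leo.phi_inj φ)
  refine ⟨IsFractionRing.lift (A := 𝓞 k) (K := k) hinj, fun x => ?_⟩
  exact IsFractionRing.lift_algebraMap hinj x

/-- **the general theorem** -/
theorem main (h2 : p ≠ 2) (φ : 𝓞 k →+* ℤ_[p]) {θ : 𝓞 K}
    (hgen : IntermediateField.adjoin k {(θ : K)} = ⊤) {g : ℕ} (h : Fin (g + 1) → (𝓞 k)[X])
    (hm : ∀ j, (h j).Monic) (hd : ∀ j, 0 < (h j).natDegree)
    (hcop : Pairwise fun i j => IsCoprime ((h i).map (algebraMap (𝓞 k) k))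
      ((h j).map (algebraMap (𝓞 k) k)))
    (hdeg : ∑ j, (h j).natDegree = Module.finrank k K) (v : 𝓞 k) {n : ℕ} (hn : 0 < n)
    (hv : v ^ n = 1) (U : Fin (g + 1) → (𝓞 K)ˣ) (hU : ∀ j, (U j : 𝓞 K) = aeval θ (h j))
    (hθ : ∏ j, (U j : 𝓞 K) = algebraMap (𝓞 k) (𝓞 K) v) (hgood : Good p ((∏ j, h j).map φ)) :
    g ≤ Units.rank K ∧ (Units.rank K ≤ g → Leopoldt K p) ∧
    ∀ (M : ℕ → Fin (g + 1) → ℤ) (w : Fin (g + 1) → ℤ_[p]),
      (∀ j, Tendsto (fun n => ((M n j : ℤ) : ℤ_[p])) atTop (𝓝 (w j))) →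
      (∀ N : ℕ, ∀ᶠ n in atTop,
        ((p : ℕ) : 𝓞 K) ^ N ∣ ((∏ j, U j ^ M n j : (𝓞 K)ˣ) : 𝓞 K) - 1) → ∀ i j, w i = w j := by
  obtain ⟨f, hf⟩ := exists_hom φ
  letI : Algebra k (PadicAlgCl p) := f.toAlgebra
  have hφ : ∀ x : 𝓞 k, algebraMap k (PadicAlgCl p) (x : k) = emb p (φ x) := hf
  set G : (𝓞 k)[X] := ∏ j, h j with hG
  have hGm : G.Monic := monic_prod_of_monic _ _ fun j _ => hm j
  have hGd : G.natDegree = Module.finrank k K := by
    rw [hG, natDegree_prod_of_monic _ _ fun j _ => hm j, hdeg]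
  have hev : ∀ P : (𝓞 k)[X], aeval (θ : K) (P.map (algebraMap (𝓞 k) k)) =
      algebraMap (𝓞 K) K (aeval θ P) := by
    intro P
    rw [aeval_map_algebraMap]
    exact aeval_algebraMap_apply K θ P
  have hUK : ∀ j, ((U j : 𝓞 K) : K) = aeval (θ : K) ((h j).map (algebraMap (𝓞 k) k)) := by
    intro j
    rw [hev, ← hU]
  have hθK : aeval (θ : K) (G.map (algebraMap (𝓞 k) k)) = algebraMap k K (v : k) := by
    have h1 : aeval θ G = algebraMap (𝓞 k) (𝓞 K) v := by
      rw [hG, map_prod, ← hθ]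
      exact Finset.prod_congr rfl fun j _ => (hU j).symm
    rw [hev, h1]
    rfl
  obtain ⟨O, hO, c, hc, hr⟩ := rigid_good h2 φ hφ hgen G hGm hGd v hn hv hθK hgood
  set hk : Fin (g + 1) → k[X] := fun j => (h j).map (algebraMap (𝓞 k) k) with hhk
  have hkm : ∀ j, (hk j).Monic := fun j => (hm j).map _
  have hkd : ∀ j, 0 < (hk j).natDegree := fun j => by
    simp only [hhk]
    rw [(hm j).natDegree_map]
    exact hd j
  have hc' : ∏ o, (X - C (c o)) = (∏ j, hk j).map (algebraMap k (PadicAlgCl p)) := by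
    rw [hc, hG, Polynomial.map_prod]
  obtain ⟨h1, h3⟩ := leopoldt_of_rigid hk hkm hkd hcop (θ : K) U hUK c hc' hr
  refine ⟨h1, h3, ?_⟩
  intro M w hlim hrel i j
  obtain ⟨t, ht⟩ := rel_units (norm_p_algCl (p := p)) hk hkm hkd hcop (θ : K) U hUK c hc' hr M
    (fun j => emb p (w j)) (fun j => emb_tendsto (hlim j)) hrel
  exact emb_inj ((ht i).trans (ht j).symm)

/-- units of a field with finitely many units -/
theorem unit_tors (hk : Units.rank k = 0) (u : (𝓞 k)ˣ) : ∃ n, 0 < n ∧ (u : 𝓞 k) ^ n = 1 := by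
  obtain ⟨T, B, hT, hrel⟩ := Leo.exists_rel hk (fun i : Fin 0 => i.elim0)
    (fun c _ => funext fun i => i.elim0) u
  simp only [Finset.univ_eq_empty, Finset.prod_empty] at hrel
  have h1 : u ^ T.natAbs = 1 := by
    rcases Int.natAbs_eq T with h | h
    · rw [h, zpow_natCast] at hrel; exact hrel
    · rw [h, zpow_neg, zpow_natCast, inv_eq_one] at hrel; exact hrel
  exact ⟨T.natAbs, Int.natAbs_pos.2 hT, by rw [← Units.val_pow_eq_pow_val, h1]; simp⟩

/-- the rank of an extension of a field with finitely many units -/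
theorem rank_le (hk : Units.rank k = 0) : Units.rank K + 1 ≤ Module.finrank k K := by
  classical
  have h1 := InfinitePlace.card_add_two_mul_card_eq_rank k
  have h2 := InfinitePlace.card_eq_nrRealPlaces_add_nrComplexPlaces k
  have hrk : Units.rank k = Fintype.card (InfinitePlace k) - 1 := rfl
  have h0 : 0 < Fintype.card (InfinitePlace k) := Fintype.card_pos
  have h3 := InfinitePlace.card_add_two_mul_card_eq_rank K
  have h4 := InfinitePlace.card_eq_nrRealPlaces_add_nrComplexPlaces K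
  have h5 : Units.rank K = Fintype.card (InfinitePlace K) - 1 := rfl
  have h6 : 0 < Fintype.card (InfinitePlace K) := Fintype.card_pos
  have h7 := Module.finrank_mul_finrank ℚ k K
  rcases Nat.eq_zero_or_pos (InfinitePlace.nrComplexPlaces k) with hc | hc
  · have hr : InfinitePlace.nrRealPlaces k = 1 := by omega
    have h8 : Module.finrank ℚ k = 1 := by omega
    rw [h8, one_mul] at h7
    omega
  · have hr : InfinitePlace.nrRealPlaces k = 0 := by omega
    have hc1 : InfinitePlace.nrComplexPlaces k = 1 := by omega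
    have h8 : Module.finrank ℚ k = 2 := by omega
    have hrK : InfinitePlace.nrRealPlaces K = 0 := by
      by_contra hne
      have h9 : 0 < InfinitePlace.nrRealPlaces K := Nat.pos_of_ne_zero hne
      unfold InfinitePlace.nrRealPlaces at h9 hr
      obtain ⟨w, hw⟩ := Fintype.card_pos_iff.1 h9
      have h10 := hw.comap (algebraMap k K)
      rw [Fintype.card_eq_zero_iff] at hr
      exact hr.elim ⟨_, h10⟩
    rw [h8] at h7
    omega

/-- the split case -/
theorem split (h2 : p ≠ 2) (φ : 𝓞 k →+* ℤ_[p]) (hk : Units.rank k = 0) {θ : 𝓞 K}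
    (hgen : IntermediateField.adjoin k {(θ : K)} = ⊤) {n : ℕ} (hn : Module.finrank k K = n)
    (a : Fin n → 𝓞 k) (ha : Function.Injective a) (v : (𝓞 k)ˣ)
    (hθ : ∏ i, (θ - algebraMap (𝓞 k) (𝓞 K) (a i)) = algebraMap (𝓞 k) (𝓞 K) v)
    (hgood : Good p (∏ i, (X - C (φ (a i))))) : Units.rank K + 1 = n ∧ Leopoldt K p := by
  have hn0 : 0 < n := by rw [← hn]; exact Module.finrank_pos
  obtain ⟨g, rfl⟩ : ∃ g, n = g + 1 := ⟨n - 1, by omega⟩
  obtain ⟨s, hs, hvs⟩ := unit_tors hk v
  have hunit : ∀ i, IsUnit (θ - algebraMap (𝓞 k) (𝓞 K) (a i)) := by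
    intro i
    refine isUnit_of_dvd_unit (Finset.dvd_prod_of_mem
      (fun i => θ - algebraMap (𝓞 k) (𝓞 K) (a i)) (Finset.mem_univ i)) ?_
    rw [hθ]
    exact v.isUnit.map _
  choose U hU using hunit
  have hev : ∀ i, aeval θ (X - C (a i)) = θ - algebraMap (𝓞 k) (𝓞 K) (a i) := by
    intro i
    rw [map_sub, aeval_X, aeval_C]
  obtain ⟨h1, h3, -⟩ := main h2 φ hgen (fun i => X - C (a i)) (fun i => monic_X_sub_C _)
    (fun i => by rw [natDegree_X_sub_C]; exact one_pos) (by
      intro i j hij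
      simp only [Polynomial.map_sub, map_X, map_C]
      exact pairwise_coprime_X_sub_C (s := fun i => algebraMap (𝓞 k) k (a i))
        (RingOfIntegers.coe_injective.comp ha) hij) (by simp [hn]) (v : 𝓞 k) hs hvs U
    (fun i => by rw [hU, hev]) (by rw [← hθ]; exact Finset.prod_congr rfl fun i _ => hU i) (by
      rw [Polynomial.map_prod]
      simp only [Polynomial.map_sub, map_X, map_C]
      exact hgood)
  have h4 := rank_le (K := K) hk
  rw [hn] at h4
  exact ⟨by omega, h3 (by omega)⟩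

end

end Pool.Agent.H31.Frob
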