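import Pool.Agent.H31.Frob.Poly
import Pool.Agent.H31.Leo.Crit

/-!
# From number fields to the `p`-adic numbers
-/

set_option autoImplicit false

namespace Pool.Agent.H31.Frob

open Finset Polynomial NumberField Filter Topology

open Classical in
/-- the only `p`-adic relation between the `X_i - c_o` is the obvious one -/
def Rigid (p : ℕ) {Ω O κ : Type} [NormedField Ω] [Fintype O] (c : O → Ω) (X : κ → Ω) : Prop :=
  ∀ (M : ℕ → O → ℤ) (w : O → Ω), (∀ o, Tendsto (fun n => ((M n o : ℤ) : Ω)) atTop (𝓝 (w o))) →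
    (∀ N : ℕ, ∀ᶠ n in atTop, ∀ i, ‖∏ o, (X i - c o) ^ M n o - 1‖ ≤ (p : ℝ)⁻¹ ^ N) →
    ∃ t : Ω, ∀ β, ∑ o ∈ univ.filter (fun o => c o = β), (w o - t) = 0

section general

variable {k K Ω : Type} [Field k] [Field K] [Algebra k K] [FiniteDimensional k K]
  [CharZero k] [Field Ω] [Algebra k Ω]

omit [FiniteDimensional k K] [CharZero k] in
theorem eval_inj [Algebra.IsAlgebraic k K] {θ : K} (hgen : IntermediateField.adjoin k {θ} = ⊤) :
    Function.Injective fun σ : K →ₐ[k] Ω => σ θ := by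
  intro σ τ h
  have htop : Algebra.adjoin k {θ} = ⊤ := by
    rw [← IntermediateField.adjoin_simple_toSubalgebra_of_isAlgebraic
      (Algebra.IsAlgebraic.isAlgebraic θ), hgen]
    rfl
  apply AlgHom.ext_of_adjoin_eq_top htop
  intro t ht
  rw [Set.mem_singleton_iff] at ht
  rw [ht]
  exact h

/-- the conjugates of `θ` are the roots of its equation -/
theorem prod_points [IsAlgClosed Ω] {θ : K} (hgen : IntermediateField.adjoin k {θ} = ⊤) {P : k[X]}
    (hP : P.Monic) (hdeg : P.natDegree = Module.finrank k K) (h0 : aeval θ P = 0) :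
    ∏ σ : K →ₐ[k] Ω, (X - C (σ θ)) = P.map (algebraMap k Ω) := by
  have hinj := eval_inj (k := k) (K := K) (Ω := Ω) hgen
  have hcop := pairwise_coprime_X_sub_C hinj
  have h1 : ∏ σ : K →ₐ[k] Ω, (X - C (σ θ)) ∣ P.map (algebraMap k Ω) := by
    refine Finset.prod_dvd_of_coprime (fun σ _ τ _ hne => hcop hne) fun σ _ => ?_
    rw [dvd_iff_isRoot, IsRoot.def, eval_map, ← aeval_def, aeval_algHom_apply, h0, map_zero]
  refine monic_eq_of_dvd (monic_prod_of_monic _ _ fun σ _ => monic_X_sub_C _) (hP.map _) h1 ?_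
  rw [natDegree_prod_of_monic _ _ fun σ _ => monic_X_sub_C _, hP.natDegree_map, hdeg]
  simp only [natDegree_X_sub_C, Finset.sum_const, Finset.card_univ, smul_eq_mul, mul_one]
  exact (AlgHom.card k K Ω).ge

end general

section integral

variable {Ω : Type} [NormedField Ω] [IsUltrametricDist Ω]

/-- integral elements are in the unit ball -/
theorem norm_le_one_of_integral {y : Ω} (hy : IsIntegral ℤ y) : ‖y‖ ≤ 1 := by
  obtain ⟨P, hP, h0⟩ := hy
  by_contra h
  push Not at h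
  have h1 : eval₂ (algebraMap ℤ Ω) y P = y ^ P.natDegree +
      ∑ i ∈ Finset.range P.natDegree, ((P.coeff i : ℤ) : Ω) * y ^ i := by
    rw [eval₂_eq_sum_range, Finset.sum_range_succ, add_comm]
    congr 1
    rw [show P.coeff P.natDegree = 1 from hP, map_one, one_mul]
  rw [h1] at h0
  rcases Nat.eq_zero_or_pos P.natDegree with hd | hd
  · rw [hd] at h0
    simp at h0
  have h2 : ‖∑ i ∈ Finset.range P.natDegree, ((P.coeff i : ℤ) : Ω) * y ^ i‖ ≤
      ‖y‖ ^ (P.natDegree - 1) := by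
    refine norm_sum_le' _ _ _ (pow_nonneg (norm_nonneg _) _) fun i hi => ?_
    rw [Finset.mem_range] at hi
    rw [norm_mul, norm_pow]
    calc ‖((P.coeff i : ℤ) : Ω)‖ * ‖y‖ ^ i ≤ 1 * ‖y‖ ^ (P.natDegree - 1) := by
          refine mul_le_mul (IsUltrametricDist.norm_intCast_le_one Ω _) ?_
            (pow_nonneg (norm_nonneg _) _) zero_le_one
          exact pow_le_pow_right₀ h.le (by omega)
      _ = ‖y‖ ^ (P.natDegree - 1) := one_mul _
  have h3 : y ^ P.natDegree = -∑ i ∈ Finset.range P.natDegree, ((P.coeff i : ℤ) : Ω) * y ^ i := by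
    linear_combination h0
  have h4 : ‖y‖ ^ P.natDegree ≤ ‖y‖ ^ (P.natDegree - 1) := by
    rw [← norm_pow, h3, norm_neg]
    exact h2
  have h5 : ‖y‖ ^ (P.natDegree - 1) < ‖y‖ ^ P.natDegree := pow_lt_pow_right₀ h (by omega)
  exact absurd h4 (not_le.2 h5)

theorem norm_ringOfIntegers {K : Type} [Field K] [NumberField K] (σ : K →+* Ω) (x : 𝓞 K) :
    ‖σ (x : K)‖ ≤ 1 := by
  apply norm_le_one_of_integral
  have h1 : IsIntegral ℤ (x : K) := RingOfIntegers.isIntegral_coe x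
  exact h1.map σ.toIntAlgHom

theorem norm_of_dvd {K : Type} [Field K] [NumberField K] (σ : K →+* Ω) {p : ℕ}
    (hpn : ‖(p : Ω)‖ = (p : ℝ)⁻¹) {N : ℕ} {x : 𝓞 K} (h : ((p : ℕ) : 𝓞 K) ^ N ∣ x) :
    ‖σ (x : K)‖ ≤ (p : ℝ)⁻¹ ^ N := by
  obtain ⟨y, rfl⟩ := h
  have e : ((((p : ℕ) : 𝓞 K) ^ N * y : 𝓞 K) : K) = (p : K) ^ N * (y : K) := by
    show algebraMap (𝓞 K) K (((p : ℕ) : 𝓞 K) ^ N * y) = _
    rw [map_mul, map_pow, map_natCast]
  rw [e, map_mul, map_pow, map_natCast, norm_mul, norm_pow, hpn]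
  exact mul_le_of_le_one_right (pow_nonneg (inv_nonneg.2 (Nat.cast_nonneg _)) _)
    (norm_ringOfIntegers σ y)

end integral

section nf

variable {k K Ω : Type} [Field k] [NumberField k] [Field K] [NumberField K] [Algebra k K]
  [NormedField Ω] [IsUltrametricDist Ω] [IsAlgClosed Ω] [CharZero Ω] [Algebra k Ω]
  {p : ℕ} {O J : Type} [Fintype O] [Fintype J]

/-- the `p`-adic relations between the units `h_j(θ)` -/
theorem rel_units (hpn : ‖(p : Ω)‖ = (p : ℝ)⁻¹) (h : J → k[X]) (hm : ∀ j, (h j).Monic)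
    (hd : ∀ j, 0 < (h j).natDegree) (hcop : Pairwise fun i j => IsCoprime (h i) (h j)) (θ : K)
    (U : J → (𝓞 K)ˣ) (hU : ∀ j, ((U j : 𝓞 K) : K) = aeval θ (h j)) (c : O → Ω)
    (hc : ∏ o, (X - C (c o)) = (∏ j, h j).map (algebraMap k Ω))
    (hr : Rigid p c fun σ : K →ₐ[k] Ω => σ θ) (M : ℕ → J → ℤ) (w : J → Ω)
    (hlim : ∀ j, Tendsto (fun n => ((M n j : ℤ) : Ω)) atTop (𝓝 (w j)))
    (hrel : ∀ N : ℕ, ∀ᶠ n in atTop,
      ((p : ℕ) : 𝓞 K) ^ N ∣ ((∏ j, U j ^ M n j : (𝓞 K)ˣ) : 𝓞 K) - 1) : ∃ t : Ω, ∀ j, w j = t := by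
  classical
  set g : J → Polynomial Ω := fun j => (h j).map (algebraMap k Ω) with hg
  have hgm : ∀ j, (g j).Monic := fun j => (hm j).map _
  have hgc : Pairwise fun i j => IsCoprime (g i) (g j) := fun i j hij =>
    (hcop hij).map (mapRingHom (algebraMap k Ω))
  have hprod : ∏ o, (X - C (c o)) = ∏ j, g j := by
    rw [hc, Polynomial.map_prod]
  -- each node belongs to a factor
  have hjj : ∀ o, ∃ j, (g j).eval (c o) = 0 := by
    intro o
    have h1 : (∏ j, g j).eval (c o) = 0 := by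
      rw [← hprod, eval_prod]
      exact Finset.prod_eq_zero (Finset.mem_univ o) (by simp)
    rw [eval_prod, Finset.prod_eq_zero_iff] at h1
    obtain ⟨j, -, hj⟩ := h1
    exact ⟨j, hj⟩
  choose jj hjj using hjj
  have huniq : ∀ o j, (g j).eval (c o) = 0 → j = jj o := by
    intro o j hj
    by_contra hne
    obtain ⟨a, b, hab⟩ := hgc hne
    have h1 := congrArg (Polynomial.eval (c o)) hab
    rw [eval_add, eval_mul, eval_mul, hj, hjj, mul_zero, mul_zero, add_zero, eval_one] at h1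
    exact zero_ne_one h1
  have hfib := prod_fiber c g hgm hgc hprod jj hjj
  -- evaluate
  have hev : ∀ (σ : K →ₐ[k] Ω) j, σ ((U j : 𝓞 K) : K) =
      ∏ o ∈ univ.filter (fun o => jj o = j), (σ θ - c o) := by
    intro σ j
    rw [hU, ← aeval_algHom_apply, aeval_def, ← eval_map]
    show (g j).eval (σ θ) = _
    rw [← hfib j, eval_prod]
    exact Finset.prod_congr rfl fun o _ => by simp
  have hM : ∀ (σ : K →ₐ[k] Ω) (m : J → ℤ), ∏ o, (σ θ - c o) ^ m (jj o) =
      σ (((∏ j, U j ^ m j : (𝓞 K)ˣ) : 𝓞 K) : K) := by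
    intro σ m
    have h1 : σ (((∏ j, U j ^ m j : (𝓞 K)ˣ) : 𝓞 K) : K) = ∏ j, (σ ((U j : 𝓞 K) : K)) ^ m j := by
      have h2 : ∀ u : (𝓞 K)ˣ, σ ((u : 𝓞 K) : K) =
          ((Units.map ((σ : K →+* Ω).comp (algebraMap (𝓞 K) K) : 𝓞 K →* Ω) u : Ωˣ) : Ω) := fun u => rfl
      rw [h2, map_prod, Units.coe_prod]
      refine Finset.prod_congr rfl fun j _ => ?_
      rw [map_zpow, Units.val_zpow_eq_zpow_val, h2]
    rw [h1, ← Finset.prod_fiberwise_of_maps_to (fun o _ => Finset.mem_univ (jj o))]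
    refine Finset.prod_congr rfl fun j _ => ?_
    rw [hev, ← Finset.prod_zpow]
    refine Finset.prod_congr rfl fun o ho => ?_
    rw [Finset.mem_filter] at ho
    rw [ho.2]
  obtain ⟨t, ht⟩ := hr (fun n o => M n (jj o)) (fun o => w (jj o)) (fun o => hlim _) (by
    intro N
    filter_upwards [hrel N] with n hn σ
    rw [hM σ (M n)]
    have h1 := norm_of_dvd (σ : K →+* Ω) hpn hn
    have h2 : (((((∏ j, U j ^ M n j : (𝓞 K)ˣ) : 𝓞 K) - 1 : 𝓞 K)) : K) =
        (((∏ j, U j ^ M n j : (𝓞 K)ˣ) : 𝓞 K) : K) - 1 := by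
      show algebraMap (𝓞 K) K (((∏ j, U j ^ M n j : (𝓞 K)ˣ) : 𝓞 K) - 1) = _
      rw [map_sub, map_one]
    rw [h2, map_sub, map_one] at h1
    exact h1)
  refine ⟨t, fun j => ?_⟩
  -- a node of the factor
  have hne : (univ.filter (fun o => jj o = j)).Nonempty := by
    by_contra hemp
    rw [Finset.not_nonempty_iff_eq_empty] at hemp
    have h1 := hfib j
    rw [hemp, Finset.prod_empty] at h1
    have h2 : (g j).natDegree = 0 := by rw [← h1, natDegree_one]
    have h3 := hd j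
    rw [hg] at h2
    simp only [(hm j).natDegree_map] at h2
    omega
  obtain ⟨o, ho⟩ := hne
  rw [Finset.mem_filter] at ho
  have h1 := ht (c o)
  have h2 : ∀ o' ∈ univ.filter (fun o' => c o' = c o), w (jj o') - t = w j - t := by
    intro o' ho'
    rw [Finset.mem_filter] at ho'
    have h3 : j = jj o' := huniq o' j (by rw [ho'.2, ← ho.2]; exact hjj o)
    rw [← h3]
  rw [Finset.sum_congr rfl h2, Finset.sum_const, nsmul_eq_mul] at h1
  rcases mul_eq_zero.1 h1 with h4 | h4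
  · exfalso
    rw [Nat.cast_eq_zero, Finset.card_eq_zero] at h4
    have h5 : o ∈ univ.filter (fun o' => c o' = c o) := by simp
    rw [h4] at h5
    exact absurd h5 (Finset.notMem_empty _)
  · exact sub_eq_zero.1 h4

end nf

end Pool.Agent.H31.Frob
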