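import Pool.Agent.H31.Frob.TRigid

/-!
# One residue class: rigidity
-/

set_option autoImplicit false

namespace Pool.Agent.H31.Frob

open Finset Filter Topology Polynomial

/-- `n` nodes divisible by `p` -/
structure On (Ω : Type) [NormedField Ω] [IsUltrametricDist Ω] (p n : ℕ) (O κ : Type) [Fintype O]
    [Fintype κ] where
  hpn : ‖(p : Ω)‖ = (p : ℝ)⁻¹
  h3 : 3 ≤ p
  hn : 1 ≤ n
  hval : ∀ k, n ≤ k → padicValNat p k + n ≤ k
  cardO : Fintype.card O = n
  cardκ : Fintype.card κ = n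
  c : O → Ω
  v : Ω
  X : κ → Ω
  hc : ∀ l, ‖c l‖ ≤ (p : ℝ)⁻¹
  hv : v ^ p = v
  hv1 : ‖v‖ = 1
  inj : Function.Injective X
  fac : ∏ i, (Polynomial.X - C (X i)) = (∏ l, (Polynomial.X - C (c l))) - C v

namespace On

variable {Ω : Type} [NormedField Ω] [IsUltrametricDist Ω] {p n : ℕ} [hp : Fact p.Prime]
  {O κ : Type} [Fintype O] [Fintype κ] (D : On Ω p n O κ)

theorem eqn (i : κ) : ∏ l, (D.X i - D.c l) = D.v := by
  have h := congrArg (Polynomial.eval (D.X i)) D.fac
  rw [eval_prod, eval_sub, eval_prod] at h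
  have h0 : ∏ j, (Polynomial.X - C (D.X j)).eval (D.X i) = 0 :=
    Finset.prod_eq_zero (Finset.mem_univ i) (by simp)
  rw [h0] at h
  simp only [eval_sub, eval_X, eval_C] at h
  linear_combination -h

include hp

theorem norm_X_le (i : κ) : ‖D.X i‖ ≤ 1 := by
  by_contra h
  push Not at h
  have h2 : ∀ l, ‖D.X i - D.c l‖ = ‖D.X i‖ := fun l =>
    norm_sub_eq_left (lt_of_le_of_lt ((D.hc l).trans Dat.invp_lt.le) h)
  have h3 := congrArg norm (D.eqn i)
  rw [norm_prod, D.hv1, Finset.prod_congr rfl fun l _ => h2 l] at h3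
  rw [Finset.prod_const, Finset.card_univ, D.cardO] at h3
  have hn := D.hn
  have h4 : 1 < ‖D.X i‖ ^ n := one_lt_pow₀ h (by omega)
  rw [h3] at h4
  exact lt_irrefl _ h4

theorem norm_X (i : κ) : ‖D.X i‖ = 1 := by
  have hne : Nonempty O := by
    rw [← Fintype.card_pos_iff, D.cardO]
    exact D.hn
  obtain ⟨l⟩ := hne
  have h1 := norm_eq_one_of_prod univ (fun l => D.X i - D.c l) (fun l _ =>
    norm_sub_le'' (D.norm_X_le i) ((D.hc l).trans Dat.invp_lt.le)) (by rw [D.eqn, D.hv1]) l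
    (Finset.mem_univ _)
  have e : D.X i = D.c l + (D.X i - D.c l) := by ring
  rw [e, norm_add_eq_right (by rw [h1]; exact (D.hc l).trans_lt Dat.invp_lt), h1]

theorem X_ne (i : κ) : D.X i ≠ 0 := by
  intro h
  have := D.norm_X i
  rw [h, norm_zero] at this
  exact zero_ne_one this

include D in
theorem norm_n : ‖(n : Ω)‖ = 1 := by
  refine norm_unit D.hpn ?_
  intro h
  have h1 := D.hval n le_rfl
  have h2 : padicValNat p n ≠ 0 := by
    intro h0
    rw [padicValNat.eq_zero_iff] at h0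
    rcases h0 with h0 | h0 | h0
    · exact hp.out.one_lt.ne' h0
    · have := D.hn; omega
    · exact h0 h
  omega

/-- `c_l` -/
def cB (l : O) : ball Ω := ⟨D.c l, (D.hc l).trans Dat.invp_lt.le⟩

omit hp in
/-- `v` -/
def vB : ball Ω := ⟨D.v, D.hv1.le⟩

/-- `X_i` -/
def XB (i : κ) : ball Ω := ⟨D.X i, D.norm_X_le i⟩

include D in
theorem pB_ne : (p : ball Ω) ≠ 0 := by
  intro h
  have h1 : ((p : ball Ω) : Ω) = 0 := by rw [h]; rfl
  have h2 : (p : Ω) = 0 := h1
  have h3 := D.hpn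
  rw [h2, norm_zero] at h3
  exact (Dat.invp_pos (p := p)).ne h3

include D in
theorem dvdp {x : ball Ω} : (p : ball Ω) ∣ x ↔ ‖(x : Ω)‖ ≤ (p : ℝ)⁻¹ := by
  rw [ball_dvd D.pB_ne]
  have h1 : ((p : ball Ω) : Ω) = (p : Ω) := rfl
  rw [h1, D.hpn]

theorem sep {i j : κ} (hij : i ≠ j) : ‖D.X i - D.X j‖ = 1 := by
  refine le_antisymm (norm_sub_le'' (D.norm_X_le i) (D.norm_X_le j)) ?_
  by_contra h
  push Not at h
  obtain ⟨g, hg⟩ := prod_sub_poly (p : ball Ω) D.cB (fun l => D.dvdp.2 (D.hc l)) Finset.univ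
  rw [Finset.card_univ, D.cardO] at hg
  set f : Polynomial (ball Ω) := (Polynomial.X ^ n + C (p : ball Ω) * g) - C D.vB with hf
  have hev : ∀ T : ball Ω, f.eval T = (∏ l, (T - D.cB l)) - D.vB := by
    intro T
    rw [hf, eval_sub, ← hg, eval_prod]
    simp
  have h0 : ∀ i, f.eval (D.XB i) = 0 := by
    intro i
    rw [hev]
    apply Subtype.ext
    have e : ((∏ l, (D.XB i - D.cB l) : ball Ω) : Ω) = ∏ l, (D.X i - D.c l) := by
      rw [← Subring.subtype_apply, map_prod]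
      rfl
    show ((∏ l, (D.XB i - D.cB l) : ball Ω) : Ω) - D.v = 0
    rw [e, D.eqn, sub_self]
  obtain ⟨k, hk⟩ := Polynomial.binomExpansion f (D.XB j) (D.XB i - D.XB j)
  rw [add_sub_cancel, h0, h0, zero_add] at hk
  have hne : D.XB i - D.XB j ≠ 0 := by
    intro h1
    apply hij
    apply D.inj
    have h2 := congrArg (fun t : ball Ω => (t : Ω)) h1
    exact sub_eq_zero.1 h2
  have h3 : (D.XB i - D.XB j) * (f.derivative.eval (D.XB j) + k * (D.XB i - D.XB j)) = 0 := by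
    linear_combination -hk
  have h4 : f.derivative.eval (D.XB j) = -(k * (D.XB i - D.XB j)) := by
    rcases mul_eq_zero.1 h3 with h5 | h5
    · exact absurd h5 hne
    · linear_combination h5
  have h5 : ‖((f.derivative.eval (D.XB j) : ball Ω) : Ω)‖ < 1 := by
    rw [h4]
    have e : ((-(k * (D.XB i - D.XB j)) : ball Ω) : Ω) = -((k : Ω) * (D.X i - D.X j)) := rfl
    rw [e, norm_neg, norm_mul]
    exact lt_of_le_of_lt (mul_le_of_le_one_left (norm_nonneg _) (norm_coe_le k)) h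
  have h6 : (p : ball Ω) ∣ f.derivative.eval (D.XB j) - (n : ball Ω) * (D.XB j) ^ (n - 1) := by
    rw [hf]
    simp only [derivative_sub, derivative_mul, derivative_add, derivative_C,
      derivative_X_pow, sub_zero, zero_mul, zero_add, eval_add, eval_mul,
      eval_pow, eval_X, eval_C, eval_natCast]
    exact ⟨(derivative g).eval (D.XB j), by ring⟩
  rw [D.dvdp] at h6
  have e1 : ((f.derivative.eval (D.XB j) - (n : ball Ω) * (D.XB j) ^ (n - 1) : ball Ω) : Ω) =
      ((f.derivative.eval (D.XB j) : ball Ω) : Ω) - (n : Ω) * (D.X j) ^ (n - 1) := rfl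
  rw [e1] at h6
  have h8 : ‖(n : Ω) * (D.X j) ^ (n - 1)‖ = 1 := by
    rw [norm_mul, norm_pow, D.norm_X, D.norm_n, one_pow, one_mul]
  rw [norm_sub_eq_right (by rw [h8]; exact h5), h8] at h6
  exact absurd h6 (not_le.2 Dat.invp_lt)

omit hp in
theorem v_ne : D.v ≠ 0 := by
  intro h6
  have := D.hv1
  rw [h6, norm_zero] at this
  exact zero_ne_one this

theorem c_ne (i : κ) (o : O) : D.X i - D.c o ≠ 0 := by
  intro h
  have h1 := D.eqn i
  rw [Finset.prod_eq_zero (Finset.mem_univ o) h] at h1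
  exact D.v_ne h1.symm

theorem v_pow : D.v ^ (p - 1) = 1 := by
  have h3 := D.h3
  have h4 := D.hv
  have h6 : D.v ^ (p - 1) * D.v = 1 * D.v := by
    rw [← pow_succ, one_mul]
    have : p - 1 + 1 = p := by omega
    rw [this]; exact h4
  exact mul_right_cancel₀ D.v_ne h6

/-- **rigidity for one class** -/
theorem rigid : Rigid p D.c D.X := by
  classical
  intro M w hw hrel
  have h3 := D.h3
  have hn1 := D.hn
  have hp0 : (p : Ω) ≠ 0 := p_ne D.hpn
  have hn0 : (n : Ω) ≠ 0 := by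
    intro h4
    have h5 := D.norm_n
    rw [h4, norm_zero] at h5
    exact zero_ne_one h5
  have hpm : ((p - 1 : ℕ) : Ω) ≠ 0 := by
    intro h4
    have h5 := norm_unit D.hpn (u := p - 1) (fun h6 => absurd (Nat.le_of_dvd (by omega) h6) (by omega))
    rw [h4, norm_zero] at h5
    exact zero_ne_one h5
  set s : Ω := ∑ l, w l with hs
  set b : O → Ω := fun l => D.c l / (p : Ω) with hb
  have hb1 : ∀ l, ‖b l‖ ≤ 1 := by
    intro l
    simp only [hb]
    rw [norm_div, D.hpn, div_le_one Dat.invp_pos]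
    exact D.hc l
  have hcb : ∀ l, D.c l = (p : Ω) * b l := by
    intro l
    simp only [hb]
    rw [mul_div_cancel₀ _ hp0]
  have hY : ∀ i, ‖(D.X i)⁻¹‖ = 1 := fun i => by rw [norm_inv, D.norm_X, inv_one]
  set M' : ℕ → O → ℤ := fun k o => ((p - 1 : ℕ) : ℤ) * ((n : ℤ) * M k o - ∑ l, M k l) with hM'
  set w' : O → Ω := fun o => ((p - 1 : ℕ) : Ω) * ((n : Ω) * w o - s) with hw'
  have hlim : ∀ o, Tendsto (fun k => ((M' k o : ℤ) : Ω)) atTop (𝓝 (w' o)) := by
    intro o
    simp only [hM', hw', Int.cast_mul, Int.cast_natCast, Int.cast_sub, Int.cast_sum]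
    exact tendsto_const_nhds.mul ((tendsto_const_nhds.mul (hw _)).sub
      (tendsto_finsetSum _ fun l _ => hw _))
  have hsum0 : ∀ k, ∑ l, M' k l = 0 := by
    intro k
    simp only [hM']
    rw [← Finset.mul_sum, Finset.sum_sub_distrib, ← Finset.mul_sum, Finset.sum_const,
      Finset.card_univ, D.cardO]
    simp
  have hQ0 : Q b w' 0 = 0 := by
    unfold Q
    simp only [pow_zero, mul_one, hw']
    rw [← Finset.mul_sum, Finset.sum_sub_distrib, ← Finset.mul_sum, ← hs, Finset.sum_const,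
      Finset.card_univ, D.cardO, nsmul_eq_mul, sub_self, mul_zero]
  have hR : ∀ k i, ∏ o, (D.X i - D.c o) ^ M' k o = ((∏ o, (D.X i - D.c o) ^ M k o) ^ n) ^ (p - 1) := by
    intro k i
    have e2 : ∀ o, (D.X i - D.c o) ^ M' k o =
        (((D.X i - D.c o) ^ M k o) ^ n) ^ (p - 1) *
          ((D.X i - D.c o) ^ (-(((p - 1 : ℕ) : ℤ) * ∑ l, M k l))) := by
      intro o
      rw [← zpow_natCast, ← zpow_natCast, ← zpow_mul, ← zpow_mul, ← zpow_add₀ (D.c_ne i o)]
      congr 1
      simp only [hM']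
      ring
    rw [Finset.prod_congr rfl fun o _ => e2 o, Finset.prod_mul_distrib, Finset.prod_pow,
      Finset.prod_pow, Finset.prod_zpow, D.eqn, zpow_neg, zpow_mul, zpow_natCast, D.v_pow,
      one_zpow, inv_one, mul_one]
  have hsub : ∀ i l, D.X i - D.c l = D.X i * (1 - (p : Ω) * b l * (D.X i)⁻¹) := by
    intro i l
    rw [← hcb]
    have := D.X_ne i
    field_simp
  have hQ := Q_zero_gen D.hpn D.hn D.hval D.cardO D.cardκ (fun i => (D.X i)⁻¹) (fun i => (hY i).le)
    (fun i j hij => by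
      have h1 : (D.X i)⁻¹ - (D.X j)⁻¹ = (D.X i)⁻¹ * (D.X j)⁻¹ * (D.X j - D.X i) := by
        have hi := D.X_ne i
        have hj := D.X_ne j
        field_simp
      rw [h1, norm_mul, norm_mul, hY, hY, norm_sub_rev, D.sep hij]
      norm_num) b w' hb1 hQ0 (by
      intro j hj i
      refine lim_le M' w' hlim (fun o => L p j (1 - (p : Ω) * b o * (D.X i)⁻¹)) _ ?_
      filter_upwards [hrel (j + j)] with k hk
      have hB : (p : ℝ)⁻¹ ^ (j + j) < 1 := pow_lt_one₀ Dat.invp_pos.le Dat.invp_lt (by omega)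
      have hx1 : ∀ o, ‖(1 - (p : Ω) * b o * (D.X i)⁻¹) - 1‖ ≤ (p : ℝ)⁻¹ := by
        intro o
        have e : (1 - (p : Ω) * b o * (D.X i)⁻¹) - 1 = -((p : Ω) * b o * (D.X i)⁻¹) := by ring
        rw [e, norm_neg, norm_mul, norm_mul, hY, mul_one, D.hpn]
        exact mul_le_of_le_one_right Dat.invp_pos.le (hb1 o)
      have e3 : ∏ o, (1 - (p : Ω) * b o * (D.X i)⁻¹) ^ M' k o = ∏ o, (D.X i - D.c o) ^ M' k o := by
        have e4 : ∏ o, (D.X i - D.c o) ^ M' k o =
            (D.X i) ^ (∑ l, M' k l) * ∏ o, (1 - (p : Ω) * b o * (D.X i)⁻¹) ^ M' k o := by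
          rw [← zprod_sum₀ _ (D.X_ne i), ← Finset.prod_mul_distrib]
          refine Finset.prod_congr rfl fun l _ => ?_
          rw [← mul_zpow, ← hsub]
        rw [e4, hsum0, zpow_zero, one_mul]
      have h1 : ‖∏ o, (1 - (p : Ω) * b o * (D.X i)⁻¹) ^ M' k o - 1‖ ≤ (p : ℝ)⁻¹ ^ (j + j) := by
        rw [e3, hR]
        exact Dat.pow_sub_one_le hB (Dat.pow_sub_one_le hB (hk i) _) _
      exact rel_L D.hpn h3 hj Finset.univ _ (M' k) (fun o _ => hx1 o) h1)
  refine ⟨s / n, fun β => ?_⟩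
  have h4 : ∀ o, (w o - s / n) * (((p - 1 : ℕ) : Ω) * n) = w' o := by
    intro o
    simp only [hw']
    field_simp
  have h5 : (∑ o ∈ univ.filter (fun o => D.c o = β), (w o - s / n)) * (((p - 1 : ℕ) : Ω) * n) = 0 := by
    rw [Finset.sum_mul, Finset.sum_congr rfl fun o _ => h4 o]
    have h6 := class_zero b w' hQ (β / p)
    have h8 : ∀ l, b l = β / p ↔ D.c l = β := by
      intro l
      simp only [hb]
      rw [div_left_inj' hp0]
    simp only [h8] at h6
    exact h6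
  rcases mul_eq_zero.1 h5 with h6 | h6
  · exact h6
  · exact absurd h6 (mul_ne_zero hpm hn0)

end On

end Pool.Agent.H31.Frob
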