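import Pool.Agent.H31.Frob.Inst

/-!
# One residue class
-/

set_option autoImplicit false

namespace Pool.Agent.H31.Frob

open Finset Filter Topology Polynomial NumberField

section val

variable {p : ℕ} [hp : Fact p.Prime]

theorem choose_unit' {j : ℕ} : ∀ k, k < p ^ j → ¬ p ∣ (p ^ j - 1).choose k := by
  intro k
  induction k with
  | zero =>
    intro _ h
    rw [Nat.choose_zero_right] at h
    exact hp.out.one_lt.ne' (Nat.dvd_one.1 h)
  | succ k ih =>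
    intro hk h
    apply ih (by omega)
    obtain ⟨n, hn⟩ : ∃ n, p ^ j = n + 1 := ⟨p ^ j - 1, by omega⟩
    have h1 : p ∣ (p ^ j).choose (k + 1) := hp.out.dvd_choose_pow (by omega) (by omega)
    rw [hn] at h1 h ⊢
    rw [Nat.add_sub_cancel] at h ⊢
    rw [Nat.choose_succ_succ] at h1
    exact (Nat.dvd_add_left h).1 h1

end val

section

variable {Ω : Type} [NormedField Ω] [IsUltrametricDist Ω] {p : ℕ} [hp : Fact p.Prime]

theorem A_ge_one' (hpn : ‖(p : Ω)‖ = (p : ℝ)⁻¹) {j k : ℕ} (hk : 1 ≤ k) (hkp : k ≤ p ^ j) :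
    1 ≤ ‖A Ω p j k‖ := by
  have h1 := A_mul hpn j k hk
  rw [norm_unit hpn (choose_unit' _ (by omega))] at h1
  by_contra h
  push Not at h
  have h2 : ‖A Ω p j k‖ * ‖(k : Ω)‖ < 1 :=
    lt_of_le_of_lt (mul_le_of_le_one_right (norm_nonneg _) (IsUltrametricDist.norm_natCast_le_one Ω _)) h
  rw [h1] at h2
  exact lt_irrefl _ h2

theorem A_tail' (hpn : ‖(p : Ω)‖ = (p : ℝ)⁻¹) (j : ℕ) {n k : ℕ} (hk1 : 1 ≤ k)
    (hk : padicValNat p k + n ≤ k) : ‖A Ω p j k‖ * (p : ℝ)⁻¹ ^ k ≤ (p : ℝ)⁻¹ ^ n := by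
  have h1 := A_le hpn j (k := k) hk1
  obtain ⟨e, he⟩ : ∃ e, k = padicValNat p k + (n + e) := ⟨k - padicValNat p k - n, by omega⟩
  have h4 : (p : ℝ)⁻¹ ^ k = (p : ℝ)⁻¹ ^ (padicValNat p k) * ((p : ℝ)⁻¹ ^ n * (p : ℝ)⁻¹ ^ e) := by
    conv_lhs => rw [he]
    rw [pow_add, pow_add]
  rw [h4, ← mul_assoc]
  have h5 : (p : ℝ)⁻¹ ^ e ≤ 1 := pow_le_one₀ Dat.invp_pos.le Dat.invp_lt.le
  have h6 : (0 : ℝ) ≤ (p : ℝ)⁻¹ ^ n := pow_nonneg Dat.invp_pos.le _
  calc ‖A Ω p j k‖ * (p : ℝ)⁻¹ ^ (padicValNat p k) * ((p : ℝ)⁻¹ ^ n * (p : ℝ)⁻¹ ^ e)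
      ≤ 1 * ((p : ℝ)⁻¹ ^ n * 1) := by
        refine mul_le_mul h1 (mul_le_mul_of_nonneg_left h5 h6) ?_ zero_le_one
        exact mul_nonneg h6 (pow_nonneg Dat.invp_pos.le _)
    _ = (p : ℝ)⁻¹ ^ n := by ring

variable {O κ : Type} [Fintype O] [Fintype κ]

/-- `n` nodes and `n` points -/
theorem Q_zero_gen (hpn : ‖(p : Ω)‖ = (p : ℝ)⁻¹) {n : ℕ} (hn : 1 ≤ n)
    (hval : ∀ k, n ≤ k → padicValNat p k + n ≤ k) (hO : Fintype.card O = n)
    (hκ : Fintype.card κ = n) (Y : κ → Ω) (hY : ∀ i, ‖Y i‖ ≤ 1)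
    (hsep : ∀ i j, i ≠ j → ‖Y i - Y j‖ = 1) (b w : O → Ω) (hb : ∀ l, ‖b l‖ ≤ 1)
    (h0 : Q b w 0 = 0)
    (hrel : ∀ j, 1 ≤ j → ∀ i, ‖∑ l, w l * L p j (1 - (p : Ω) * b l * Y i)‖ ≤ (p : ℝ)⁻¹ ^ j) (k : ℕ) :
    Q b w k = 0 := by
  have hP0 : 0 < (p : ℝ)⁻¹ := Dat.invp_pos
  have hP1 : (p : ℝ)⁻¹ < 1 := Dat.invp_lt
  set e : ℕ → ℝ := fun k => (p : ℝ)⁻¹ ^ k * ‖Q b w k‖ with he
  have hstep : ∀ N : ℝ, (∀ k < n, e k ≤ N) → ∀ j, 1 ≤ j → n ≤ p ^ j → ∀ k < n,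
      e k ≤ max ((p : ℝ)⁻¹ * N) ((p : ℝ)⁻¹ ^ j) := by
    intro N hN j hj hnj
    have hN0 : 0 ≤ N := by
      have h1 := hN 0 (by omega)
      simp only [he, h0, norm_zero, mul_zero] at h1
      exact h1
    set B := max ((p : ℝ)⁻¹ * N) ((p : ℝ)⁻¹ ^ j) with hB
    have hB0 : 0 ≤ B := le_max_of_le_right (pow_nonneg hP0.le _)
    have hpos : 0 < (p : ℝ)⁻¹ ^ (n - 1) := pow_pos hP0 _
    have hQ : ∀ k, (p : ℝ)⁻¹ ^ (n - 1) * ‖Q b w k‖ ≤ N := by
      intro k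
      have h1 := Q_bound b w hb (N / (p : ℝ)⁻¹ ^ (n - 1)) (div_nonneg hN0 hpos.le) (by
        rw [hO]
        intro k hk
        rw [le_div_iff₀ hpos, mul_comm]
        refine le_trans ?_ (hN k hk)
        refine mul_le_mul_of_nonneg_right ?_ (norm_nonneg _)
        exact pow_le_pow_of_le_one hP0.le hP1.le (by omega)) k
      rwa [le_div_iff₀ hpos, mul_comm] at h1
    set T : ℕ → Ω := fun k => A Ω p j k * ((p : Ω) ^ k * Q b w k) with hT
    have hPP : ∀ Z : Ω, ∑ l, w l * L p j (1 - (p : Ω) * b l * Z) =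
        ∑ k ∈ Finset.Ico 1 (p ^ j + 1), T k * Z ^ k := by
      intro Z
      have h1 : ∀ l, w l * L p j (1 - (p : Ω) * b l * Z) =
          ∑ k ∈ Finset.Ico 1 (p ^ j + 1), w l * (A Ω p j k * ((p : Ω) * b l * Z) ^ k) := by
        intro l
        rw [L_expand hpn, Finset.mul_sum]
      rw [Finset.sum_congr rfl fun l _ => h1 l, Finset.sum_comm]
      refine Finset.sum_congr rfl fun k _ => ?_
      simp only [hT, Q]
      rw [Finset.mul_sum, Finset.mul_sum, Finset.sum_mul]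
      refine Finset.sum_congr rfl fun l _ => ?_
      ring
    have htail : ∀ k, n ≤ k → ‖T k‖ ≤ (p : ℝ)⁻¹ * N := by
      intro k hk
      simp only [hT]
      rw [norm_mul, norm_mul, norm_pow, hpn]
      have h1 := A_tail' hpn j (k := k) (by omega) (hval k hk)
      have h2 : (p : ℝ)⁻¹ ^ n = (p : ℝ)⁻¹ * (p : ℝ)⁻¹ ^ (n - 1) := by
        rw [← pow_succ']; congr 1; omega
      calc ‖A Ω p j k‖ * ((p : ℝ)⁻¹ ^ k * ‖Q b w k‖)
          = (‖A Ω p j k‖ * (p : ℝ)⁻¹ ^ k) * ‖Q b w k‖ := by ring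
        _ ≤ (p : ℝ)⁻¹ ^ n * ‖Q b w k‖ := mul_le_mul_of_nonneg_right h1 (norm_nonneg _)
        _ = (p : ℝ)⁻¹ * ((p : ℝ)⁻¹ ^ (n - 1) * ‖Q b w k‖) := by rw [h2]; ring
        _ ≤ (p : ℝ)⁻¹ * N := mul_le_mul_of_nonneg_left (hQ k) hP0.le
    set G : Polynomial Ω := ∑ k ∈ Finset.Ico 1 n, C (T k) * Polynomial.X ^ k with hG
    have hGc : ∀ k, G.coeff k = if 1 ≤ k ∧ k < n then T k else 0 := by
      intro k
      rw [hG, finset_sum_coeff]
      simp only [coeff_C_mul_X_pow]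
      rw [Finset.sum_ite_eq (Finset.Ico 1 n) k]
      simp only [Finset.mem_Ico]
    have hGdeg : G.degree < Fintype.card κ := by
      rw [Polynomial.degree_lt_iff_coeff_zero, hκ]
      intro k hk
      rw [hGc, if_neg (by omega)]
    have hGeval : ∀ i, ‖G.eval (Y i)‖ ≤ B := by
      intro i
      have h1 := hrel j hj i
      rw [hPP] at h1
      have h2 : n ≤ p ^ j + 1 := by omega
      rw [← Finset.sum_Ico_consecutive _ hn h2] at h1
      have h4 : ‖∑ k ∈ Finset.Ico n (p ^ j + 1), T k * (Y i) ^ k‖ ≤ (p : ℝ)⁻¹ * N := by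
        refine norm_sum_le' _ _ _ (mul_nonneg hP0.le hN0) fun k hk => ?_
        rw [Finset.mem_Ico] at hk
        rw [norm_mul, norm_pow]
        calc ‖T k‖ * ‖Y i‖ ^ k ≤ (p : ℝ)⁻¹ * N * 1 :=
              mul_le_mul (htail k hk.1) (pow_le_one₀ (norm_nonneg _) (hY i))
                (pow_nonneg (norm_nonneg _) _) (mul_nonneg hP0.le hN0)
          _ = (p : ℝ)⁻¹ * N := mul_one _
      have h5 : G.eval (Y i) = (∑ k ∈ Finset.Ico 1 n, T k * (Y i) ^ k +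
          ∑ k ∈ Finset.Ico n (p ^ j + 1), T k * (Y i) ^ k) -
          ∑ k ∈ Finset.Ico n (p ^ j + 1), T k * (Y i) ^ k := by
        rw [hG, eval_finset_sum, add_sub_cancel_right]
        refine Finset.sum_congr rfl fun k _ => by simp
      rw [h5]
      exact norm_sub_le'' (h1.trans (le_max_right _ _)) (h4.trans (le_max_left _ _))
    have hcoeff := interp Y hY hsep G hGdeg B hB0 hGeval
    intro k hk
    rcases Nat.eq_zero_or_pos k with hk0 | hk0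
    · subst hk0
      simp only [he, h0, norm_zero, mul_zero]
      exact hB0
    · have h1 := hcoeff k
      rw [hGc, if_pos ⟨hk0, hk⟩] at h1
      refine le_trans ?_ h1
      simp only [hT, he]
      rw [norm_mul, norm_mul, norm_pow, hpn]
      refine le_mul_of_one_le_left (mul_nonneg (pow_nonneg hP0.le _) (norm_nonneg _)) ?_
      exact A_ge_one' hpn hk0 (by omega)
  have hne : (Finset.range n).Nonempty := ⟨0, Finset.mem_range.2 (by omega)⟩
  obtain ⟨k₀, hk₀, hmax⟩ := Finset.exists_max_image (Finset.range n) e hne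
  rw [Finset.mem_range] at hk₀
  have hN' : ∀ k < n, e k ≤ e k₀ := fun k hk => hmax k (Finset.mem_range.2 hk)
  have hnj : ∀ j, n ≤ j → n ≤ p ^ j := fun j hj => hj.trans (Nat.lt_pow_self hp.out.one_lt).le
  have h1 : ∀ j, n ≤ j → e k₀ ≤ (p : ℝ)⁻¹ ^ j := by
    intro j hj
    have h2 := hstep (e k₀) hN' j (by omega) (hnj j hj) k₀ hk₀
    rcases le_max_iff.1 h2 with h4 | h4
    · have h5 : e k₀ ≤ 0 := by
        by_contra hcon
        push Not at hcon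
        have : (p : ℝ)⁻¹ * e k₀ < e k₀ := mul_lt_of_lt_one_left hcon hP1
        linarith
      exact h5.trans (pow_nonneg hP0.le _)
    · exact h4
  have h2 : e k₀ ≤ 0 := by
    have h4 : Tendsto (fun j : ℕ => (p : ℝ)⁻¹ ^ j) atTop (𝓝 0) :=
      tendsto_pow_atTop_nhds_zero_of_lt_one hP0.le hP1
    exact ge_of_tendsto h4 (eventually_atTop.2 ⟨n, fun j hj => h1 j hj⟩)
  have h4 : ∀ k < Fintype.card O, ‖Q b w k‖ ≤ 0 := by
    rw [hO]
    intro k hk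
    have h5 := (hN' k hk).trans h2
    simp only [he] at h5
    by_contra hcon
    push Not at hcon
    exact absurd h5 (not_le.2 (mul_pos (pow_pos hP0 _) hcon))
  have h5 := Q_bound b w hb 0 le_rfl h4 k
  exact norm_le_zero_iff.1 h5

end

end Pool.Agent.H31.Frob
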