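import Pool.Agent.H31.Frob.Leo
import Pool.Agent.H31.Leo.Tors

/-!
# `p`-adic integers: Fermat, roots of unity, sizes of the roots of a polynomial
-/

set_option autoImplicit false

namespace Pool.Agent.H31.Frob

open Finset Polynomial NumberField Filter Topology

section

variable {p : ℕ} [hp : Fact p.Prime]

theorem fermat (x : ℤ_[p]) : (p : ℤ_[p]) ∣ x ^ p - x := by
  have h1 : x ^ p - x ∈ RingHom.ker (PadicInt.toZMod (p := p)) := by
    rw [RingHom.mem_ker, map_sub, map_pow, ZMod.pow_card, sub_self]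
  rw [PadicInt.ker_toZMod, PadicInt.maximalIdeal_eq_span_p, Ideal.mem_span_singleton] at h1
  exact h1

theorem p_pow_ne (n : ℕ) : ((p : ℤ_[p]) ^ n) ≠ 0 :=
  pow_ne_zero _ (by exact_mod_cast hp.out.ne_zero)

theorem not_unit_dvd {u : ℕ} (hu : ¬ p ∣ u) : ¬ (p : ℤ_[p]) ∣ (u : ℤ_[p]) := by
  intro h
  rw [← PadicInt.norm_lt_one_iff_dvd] at h
  have h1 := PadicInt.norm_int_lt_one_iff_dvd (p := p) (u : ℤ)
  rw [Int.cast_natCast] at h1
  have h2 := h1.1 h
  exact hu (by exact_mod_cast h2)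

/-- the only root of unity congruent to `1` is `1` -/
theorem eq_one_of_tors (h3 : 3 ≤ p) (n : ℕ) : ∀ y : ℤ_[p], 0 < n → (p : ℤ_[p]) ∣ y - 1 →
    y ^ n = 1 → y = 1 := by
  induction n using Nat.strong_induction_on with
  | _ n ih =>
    intro y hn hy hyn
    by_cases h1 : n = 1
    · rw [h1, pow_one] at hyn; exact hyn
    obtain ⟨q, hq, m, rfl⟩ : ∃ q, q.Prime ∧ q ∣ n := Nat.exists_prime_and_dvd h1
    have hm : 0 < m := Nat.pos_of_ne_zero (by rintro rfl; simp at hn)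
    have hlt : m < q * m := by
      have := hq.two_le
      nlinarith
    -- it is enough that `y ^ q = 1` implies `y = 1`
    have hyq : y ^ q = 1 := by
      refine ih m hlt (y ^ q) hm ?_ (by rw [← pow_mul]; exact hyn)
      exact hy.trans (sub_one_dvd_pow_sub_one y q)
    by_contra hne
    by_cases hqp : q = p
    · subst hqp
      -- write `y = 1 + p ^ a t`
      obtain ⟨a, t, ht, hat⟩ : ∃ (a : ℕ) (t : ℤ_[q]), ¬ (q : ℤ_[q]) ∣ t ∧ y - 1 = (q : ℤ_[q]) ^ a * t := by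
        have hfin : FiniteMultiplicity (q : ℤ_[q]) (y - 1) := by
          refine FiniteMultiplicity.of_prime_left PadicInt.prime_p (sub_ne_zero.2 hne)
        obtain ⟨t, ht1, ht2⟩ := hfin.exists_eq_pow_mul_and_not_dvd
        exact ⟨_, t, ht2, ht1⟩
      have ha : 1 ≤ a := by
        by_contra hc
        have : a = 0 := by omega
        rw [this, pow_zero, one_mul] at hat
        rw [hat] at hy
        exact ht hy
      obtain ⟨r, hr⟩ := pow_step h3 t a ha
      have e1 : 1 + (q : ℤ_[q]) ^ a * t = y := by rw [← hat]; ring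
      rw [e1, hyq] at hr
      have h2 : (q : ℤ_[q]) ^ (a + 1) * (t + q * r) = 0 := by linear_combination -hr
      rcases mul_eq_zero.1 h2 with h4 | h4
      · exact p_pow_ne _ h4
      · exact ht ⟨-r, by linear_combination h4⟩
    · have h2 := mul_geom_sum y q
      rw [hyq, sub_self] at h2
      rcases mul_eq_zero.1 h2 with h4 | h4
      · exact hne (sub_eq_zero.1 h4)
      · obtain ⟨z, hz⟩ := hy
        have h5 : (p : ℤ_[p]) ∣ (∑ i ∈ Finset.range q, y ^ i) - q := by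
          have h6 : (∑ i ∈ Finset.range q, y ^ i) - (q : ℤ_[p]) = ∑ i ∈ Finset.range q, (y ^ i - 1) := by
            rw [Finset.sum_sub_distrib]; simp
          rw [h6]
          exact Finset.dvd_sum fun i _ => (Dvd.intro _ hz.symm).trans (sub_one_dvd_pow_sub_one y i)
        rw [h4, zero_sub, dvd_neg] at h5
        exact not_unit_dvd (fun h6 => hqp ((Nat.prime_dvd_prime_iff_eq hp.out hq).1 h6).symm) h5

/-- roots of unity in `ℤ_p` -/
theorem pow_eq_self_of_tors (h3 : 3 ≤ p) {x : ℤ_[p]} {n : ℕ} (hn : 0 < n) (hx : x ^ n = 1) :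
    x ^ p = x := by
  obtain ⟨m, hm⟩ : ∃ m, p = m + 1 := ⟨p - 1, by omega⟩
  have hx0 : IsUnit x := IsUnit.of_pow_eq_one hx hn.ne'
  have h1 := fermat x
  have h2 : (p : ℤ_[p]) ∣ x ^ (p - 1) - 1 := by
    rw [← hx0.dvd_mul_left]
    have e : x * (x ^ (p - 1) - 1) = x ^ p - x := by
      have : x ^ p = x * x ^ (p - 1) := by
        rw [← pow_succ']; congr 1; omega
      rw [this]; ring
    rw [e]; exact h1
  have h4 := eq_one_of_tors h3 n (x ^ (p - 1)) hn h2 (by rw [← pow_mul, mul_comm, pow_mul, hx, one_pow])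
  have : x ^ p = x * x ^ (p - 1) := by
    rw [← pow_succ']; congr 1; omega
  rw [this, h4, mul_one]

theorem norm_le_of_dvd {x : ℤ_[p]} {n : ℕ} (h : (p : ℤ_[p]) ^ n ∣ x) : ‖x‖ ≤ (p : ℝ)⁻¹ ^ n := by
  obtain ⟨y, rfl⟩ := h
  rw [norm_mul, norm_pow, PadicInt.norm_p]
  exact mul_le_of_le_one_right (pow_nonneg (inv_nonneg.2 (Nat.cast_nonneg _)) _) (PadicInt.norm_le_one _)

end

section roots

variable {Ω : Type} [NormedField Ω] [IsUltrametricDist Ω] {p : ℕ} [hp : Fact p.Prime]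

/-- the roots of a polynomial `T ^ n + ∑ a_i T ^ i` with `p ^ (n - i) ∣ a_i` are divisible by `p` -/
theorem root_small {H : Polynomial Ω} (hH : H.Monic)
    (h : ∀ i < H.natDegree, ‖H.coeff i‖ ≤ (p : ℝ)⁻¹ ^ (H.natDegree - i)) {y : Ω} (hy : H.eval y = 0) :
    ‖y‖ ≤ (p : ℝ)⁻¹ := by
  by_contra hc
  push Not at hc
  have hP0 : 0 < (p : ℝ)⁻¹ := Dat.invp_pos
  have hy0 : 0 < ‖y‖ := hP0.trans hc
  rw [eval_eq_sum_range, Finset.sum_range_succ] at hy
  rw [show H.coeff H.natDegree = 1 from hH, one_mul] at hy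
  rcases Nat.eq_zero_or_pos H.natDegree with hd | hd
  · rw [hd] at hy
    simp at hy
  -- all the terms are smaller than the leading one
  obtain ⟨i₀, hi₀, hmax⟩ := Finset.exists_max_image (Finset.range H.natDegree)
    (fun i => ‖H.coeff i * y ^ i‖) ⟨0, Finset.mem_range.2 hd⟩
  have h2 : ‖∑ i ∈ Finset.range H.natDegree, H.coeff i * y ^ i‖ ≤ ‖H.coeff i₀ * y ^ i₀‖ :=
    norm_sum_le' _ _ _ (norm_nonneg _) fun i hi => hmax i hi
  rw [Finset.mem_range] at hi₀
  have h3 : ‖H.coeff i₀ * y ^ i₀‖ < ‖y‖ ^ H.natDegree := by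
    rw [norm_mul, norm_pow]
    calc ‖H.coeff i₀‖ * ‖y‖ ^ i₀ ≤ (p : ℝ)⁻¹ ^ (H.natDegree - i₀) * ‖y‖ ^ i₀ :=
          mul_le_mul_of_nonneg_right (h i₀ hi₀) (pow_nonneg hy0.le _)
      _ < ‖y‖ ^ (H.natDegree - i₀) * ‖y‖ ^ i₀ := by
          refine mul_lt_mul_of_pos_right ?_ (pow_pos hy0 _)
          exact pow_lt_pow_left₀ hc hP0.le (by omega)
      _ = ‖y‖ ^ H.natDegree := by rw [← pow_add]; congr 1; omega
  have h4 : y ^ H.natDegree = -∑ i ∈ Finset.range H.natDegree, H.coeff i * y ^ i := by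
    linear_combination hy
  have h5 : ‖y‖ ^ H.natDegree ≤ ‖H.coeff i₀ * y ^ i₀‖ := by
    rw [← norm_pow, h4, norm_neg]; exact h2
  exact absurd h5 (not_le.2 h3)

end roots

end Pool.Agent.H31.Frob
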