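import Pool.Agent.H31.Frob.Rigid

/-!
# Polynomials
-/

set_option autoImplicit false

namespace Pool.Agent.H31.Frob

open Finset Polynomial

section

variable {F : Type} [Field F]

theorem monic_eq_of_dvd {f g : F[X]} (hf : f.Monic) (hg : g.Monic) (h1 : f ∣ g)
    (hd : g.natDegree ≤ f.natDegree) : f = g := by
  obtain ⟨r, hr⟩ := h1
  have hr1 : r.Monic := hf.of_mul_monic_left (by rw [← hr]; exact hg)
  have h2 : g.natDegree = f.natDegree + r.natDegree := by rw [hr, hf.natDegree_mul hr1]
  have h3 : r.natDegree = 0 := by omega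
  have h4 : r = 1 := hr1.natDegree_eq_zero.1 h3
  rw [hr, h4, mul_one]

/-- enumeration of the roots -/
theorem exists_nodes [IsAlgClosed F] {G : F[X]} (hG : G.Monic) :
    ∃ (O : Type) (_ : Fintype O) (c : O → F), Fintype.card O = G.natDegree ∧
      ∏ o, (X - C (c o)) = G := by
  classical
  have hs : G.Splits := IsAlgClosed.splits G
  refine ⟨G.roots.ToType, inferInstance, fun x => x.1, ?_, ?_⟩
  · rw [Multiset.card_coe]
    exact hs.natDegree_eq_card_roots.symm
  · have h1 : ∏ o : G.roots.ToType, (X - C o.1) = (G.roots.map fun x => X - C x).prod := by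
      rw [Finset.prod_eq_multiset_prod]
      exact congrArg Multiset.prod (Multiset.map_univ G.roots fun x => X - C x)
    rw [h1]
    exact (hs.eq_prod_roots_of_monic hG).symm

variable {O J : Type} [Fintype O] [Fintype J] [DecidableEq J]

/-- the factors of a product of linear polynomials -/
theorem prod_fiber (c : O → F) (h : J → F[X]) (hm : ∀ j, (h j).Monic)
    (hcop : Pairwise fun i j => IsCoprime (h i) (h j)) (hprod : ∏ o, (X - C (c o)) = ∏ j, h j)
    (jj : O → J) (hjj : ∀ o, (h (jj o)).eval (c o) = 0) (j : J) :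
    ∏ o ∈ univ.filter (fun o => jj o = j), (X - C (c o)) = h j := by
  set A : J → F[X] := fun j => ∏ o ∈ univ.filter (fun o => jj o = j), (X - C (c o)) with hA
  have hAm : ∀ j, (A j).Monic := fun j => monic_prod_of_monic _ _ fun o _ => monic_X_sub_C _
  have hdvd : ∀ j, A j ∣ h j := by
    intro j
    have h1 : A j ∣ h j * ∏ j' ∈ univ.erase j, h j' := by
      rw [Finset.mul_prod_erase _ _ (Finset.mem_univ j), ← hprod]
      exact Finset.prod_dvd_prod_of_subset _ _ _ (Finset.filter_subset _ _)
    refine IsCoprime.dvd_of_dvd_mul_right ?_ h1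
    refine IsCoprime.prod_left fun o ho => IsCoprime.prod_right fun j' hj' => ?_
    rw [Finset.mem_filter] at ho
    have h2 : (X - C (c o)) ∣ h j := by
      rw [dvd_iff_isRoot, IsRoot.def, ← ho.2]
      exact hjj o
    exact IsCoprime.of_isCoprime_of_dvd_left (hcop (Finset.ne_of_mem_erase hj').symm) h2
  have hdeg : ∀ j ∈ (univ : Finset J), (A j).natDegree ≤ (h j).natDegree := fun j _ =>
    natDegree_le_of_dvd (hdvd j) (hm j).ne_zero
  have hsum : ∑ j, (A j).natDegree = ∑ j, (h j).natDegree := by
    rw [← natDegree_prod_of_monic _ _ fun j _ => hAm j, ← natDegree_prod_of_monic _ _ fun j _ => hm j,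
      ← hprod]
    congr 1
    rw [hA]
    exact Finset.prod_fiberwise_of_maps_to (fun o _ => Finset.mem_univ (jj o)) _
  have heq := (Finset.sum_eq_sum_iff_of_le hdeg).1 hsum j (Finset.mem_univ j)
  exact monic_eq_of_dvd (hAm j) (hm j) (hdvd j) heq.ge

end

end Pool.Agent.H31.Frob
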