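import Pool.Agent.H31.Frob.Core

/-!
# All the `p`-adic relations
-/

set_option autoImplicit false

namespace Pool.Agent.H31.Frob

open Finset Filter Topology Polynomial

section powersums

variable {Ω : Type} [NormedField Ω] {ι : Type} [Fintype ι] (b w : ι → Ω)

open Classical in
/-- vanishing power sums -/
theorem class_zero (h : ∀ k, Q b w k = 0) (β : Ω) : ∑ l ∈ univ.filter (fun l => b l = β), w l = 0 := by
  have h1 : ∀ f : Polynomial Ω, ∑ l, w l * f.eval (b l) = 0 := by
    intro f
    simp only [eval_eq_sum_range, Finset.mul_sum]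
    rw [Finset.sum_comm]
    refine Finset.sum_eq_zero fun i _ => ?_
    have h2 := h i
    unfold Q at h2
    calc ∑ l, w l * (f.coeff i * b l ^ i) = f.coeff i * ∑ l, w l * b l ^ i := by
          rw [Finset.mul_sum]
          exact Finset.sum_congr rfl fun l _ => by ring
      _ = 0 := by rw [h2, mul_zero]
  set f : Polynomial Ω := ∏ γ ∈ (univ.image b).erase β, (X - C γ) with hf
  have h2 := h1 f
  have h3 : ∀ l, b l ≠ β → f.eval (b l) = 0 := by
    intro l hl
    rw [hf, eval_prod]
    exact Finset.prod_eq_zero (Finset.mem_erase.2 ⟨hl, Finset.mem_image_of_mem _ (Finset.mem_univ _)⟩)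
      (by simp)
  have h4 : f.eval β ≠ 0 := by
    rw [hf, eval_prod, Finset.prod_ne_zero_iff]
    intro γ hγ
    rw [eval_sub, eval_X, eval_C, sub_ne_zero]
    exact (Finset.ne_of_mem_erase hγ).symm
  have h5 : ∑ l, w l * f.eval (b l) = (∑ l ∈ univ.filter (fun l => b l = β), w l) * f.eval β := by
    rw [← Finset.sum_filter_add_sum_filter_not univ (fun l => b l = β), Finset.sum_mul]
    have h6 : ∑ l ∈ univ.filter (fun l => ¬ b l = β), w l * f.eval (b l) = 0 := by
      refine Finset.sum_eq_zero fun l hl => ?_
      rw [Finset.mem_filter] at hl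
      rw [h3 l hl.2, mul_zero]
    rw [h6, add_zero]
    refine Finset.sum_congr rfl fun l hl => ?_
    rw [Finset.mem_filter] at hl
    rw [hl.2]
  rw [h5] at h2
  rcases mul_eq_zero.1 h2 with h6 | h6
  · exact h6
  · exact absurd h6 h4

end powersums

end Pool.Agent.H31.Frob
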