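import Pool.Agent.H31.Frob.Ball

/-!
# The number `1 / p`
-/

set_option autoImplicit false

namespace Pool.Agent.H31.Frob

namespace Dat

variable {p : ℕ} [hp : Fact p.Prime]

include hp

theorem invp_lt : (p : ℝ)⁻¹ < 1 := inv_lt_one_of_one_lt₀ (by exact_mod_cast hp.out.one_lt)

theorem invp_pos : 0 < (p : ℝ)⁻¹ := inv_pos.2 (by exact_mod_cast hp.out.pos)

end Dat

end Pool.Agent.H31.Frob
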