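import Pool.Agent.H31.Frob.TRoots

/-!
# Two residue classes: the Frobenius
-/

set_option autoImplicit false

namespace Pool.Agent.H31.Frob

open Finset Polynomial

section ring

variable {R : Type} [CommRing R] {p : ℕ} [hp : Fact p.Prime]

theorem pow_add_lin (a b : R) (n : ℕ) (hn : 1 ≤ n) :
    ∃ r : R, (a + (p : R) * b) ^ n = a ^ n + n * a ^ (n - 1) * (p * b) + (p : R) ^ 2 * r := by
  obtain ⟨k, hk⟩ := Polynomial.powAddExpansion a ((p : R) * b) n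
  exact ⟨k * b ^ 2, by rw [hk]; ring⟩

/-- the differences from `m` -/
theorem y_pow (m q x : R) (hq : m ^ p - m = p * q) :
    (x - m) ^ p = x ^ p - m - p * (q + V p m (x - m)) := by
  have h := V_spec (p := p) m (x - m)
  have e : m + (x - m) = x := by ring
  rw [e] at h
  linear_combination -h - hq

/-- **the Frobenius congruence** -/
theorem frob_two (m v x x' q δ : R) (d : ℕ) (hd : 1 ≤ d) (hv : v ^ p = v) (hq : m ^ p - m = p * q)
    (ha : (p : R) ∣ x ^ p * (x - m) ^ d - v) (hb : (p : R) ^ 2 ∣ x' ^ p * (x' - m) ^ d - v)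
    (hab : x ^ p - x' = p * δ) :
    (p : R) ^ 2 ∣ d * (p * (q + V p m (x - m) - δ)) * (x ^ p) ^ p * ((x - m) ^ p) ^ (d - 1) := by
  set y := x - m with hy
  have h1 := y_pow m q x hq
  rw [← hy] at h1
  have h2 : x' - m = y ^ p + p * (q + V p m y - δ) := by
    rw [h1]; linear_combination -hab
  obtain ⟨r, hr⟩ := pow_add_lin (p := p) (y ^ p) (q + V p m y - δ) d hd
  have h3 : (p : R) ^ 2 ∣ (x ^ p) ^ p - x' ^ p := by
    have h4 : (p : R) ∣ x ^ p - x' := ⟨δ, hab⟩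
    have := dvd_sub_pow_of_dvd_sub h4 1
    simpa using this
  have h5 : (p : R) ^ 2 ∣ (x ^ p * y ^ d) ^ p - v ^ p := by
    have := dvd_sub_pow_of_dvd_sub ha 1
    simpa using this
  rw [hv] at h5
  rw [h2] at hb
  obtain ⟨z3, hz3⟩ := h3
  obtain ⟨z5, hz5⟩ := h5
  obtain ⟨zb, hzb⟩ := hb
  have e1 : (x ^ p * y ^ d) ^ p = (x ^ p) ^ p * (y ^ p) ^ d := by
    rw [mul_pow]
    congr 1
    rw [← pow_mul, ← pow_mul, mul_comm]
  rw [e1] at hz5
  refine ⟨zb - z5 - (x ^ p) ^ p * r + z3 * (y ^ p + p * (q + V p m y - δ)) ^ d, ?_⟩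
  linear_combination hzb - hz5 - (x ^ p) ^ p * hr +
    (y ^ p + p * (q + V p m y - δ)) ^ d * hz3

/-- the value at `x ^ p` -/
theorem frob_value_two (m v x q : R) (d : ℕ) (hv : v ^ p = v) (hq : m ^ p - m = p * q)
    (ha : (p : R) ∣ x ^ p * (x - m) ^ d - v) : (p : R) ∣ (x ^ p) ^ p * (x ^ p - m) ^ d - v := by
  have h1 := y_pow m q x hq
  have h5 : (p : R) ∣ (x ^ p * (x - m) ^ d) ^ p - v ^ p := ha.trans (sub_dvd_pow_sub_pow _ _ _)
  rw [hv] at h5
  have e1 : (x ^ p * (x - m) ^ d) ^ p = (x ^ p) ^ p * ((x - m) ^ p) ^ d := by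
    rw [mul_pow]
    congr 1
    rw [← pow_mul, ← pow_mul, mul_comm]
  rw [e1] at h5
  have h6 : (p : R) ∣ (x ^ p - m) ^ d - ((x - m) ^ p) ^ d := by
    refine Dvd.dvd.trans ?_ (sub_dvd_pow_sub_pow _ _ _)
    rw [h1]
    exact ⟨q + V p m (x - m), by ring⟩
  obtain ⟨z5, hz5⟩ := h5
  obtain ⟨z6, hz6⟩ := h6
  exact ⟨z5 + (x ^ p) ^ p * z6, by linear_combination hz5 + (x ^ p) ^ p * hz6⟩

/-- the powers of `y` -/
theorem y_pow_k (m v x x' q Y W : R) (d : ℕ) (hq : m ^ p - m = p * q)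
    (ha : (p : R) ∣ x ^ p * (x - m) ^ d - v) (hab : (p : R) ∣ x ^ p - x') (hY : x' * Y = 1)
    (hW : (x' - m) * W = 1) (r : ℕ) :
    (p : R) ∣ (x - m) ^ (d * r % p) - v ^ r * Y ^ r * W ^ (d * r / p) := by
  set y := x - m with hy
  have h1 := y_pow m q x hq
  rw [← hy] at h1
  -- `y ^ d ≡ v Y`
  have h2 : (p : R) ∣ y ^ d - v * Y := by
    obtain ⟨a, ha⟩ := ha
    obtain ⟨b, hb⟩ := hab
    exact ⟨Y * a - Y * b * y ^ d, by linear_combination Y * ha - Y * y ^ d * hb - y ^ d * hY⟩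
  have h3 : (p : R) ∣ (y ^ d) ^ r - (v * Y) ^ r := h2.trans (sub_dvd_pow_sub_pow _ _ _)
  -- `y ^ p W ≡ 1`
  have h4 : (p : R) ∣ y ^ p * W - 1 := by
    obtain ⟨b, hb⟩ := hab
    rw [h1]
    exact ⟨W * b - W * (q + V p m y), by linear_combination W * hb + hW⟩
  have h5 : (p : R) ∣ (y ^ p * W) ^ (d * r / p) - 1 := by
    have := h4.trans (sub_dvd_pow_sub_pow (y ^ p * W) 1 (d * r / p))
    rwa [one_pow] at this
  have e1 : (y ^ d) ^ r = y ^ (d * r % p) * (y ^ p) ^ (d * r / p) := by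
    rw [← pow_mul, ← pow_mul, ← pow_add, Nat.mod_add_div]
  obtain ⟨a, ha⟩ := h3
  obtain ⟨b, hb⟩ := h5
  rw [e1, mul_pow] at ha
  rw [mul_pow] at hb
  refine ⟨W ^ (d * r / p) * a - y ^ (d * r % p) * b, ?_⟩
  linear_combination W ^ (d * r / p) * ha - y ^ (d * r % p) * hb

/-- reindexing -/
theorem sum_reindex {A : Type} [AddCommMonoid A] {d : ℕ} (hd : ¬ p ∣ d) (f : ℕ → A) :
    ∑ k ∈ Finset.Ico 1 p, f k = ∑ r ∈ Finset.Ico 1 p, f (d * r % p) := by
  have hmaps : Set.MapsTo (fun r => d * r % p) (Finset.Ico 1 p : Set ℕ) (Finset.Ico 1 p : Set ℕ) := by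
    intro r hr
    rw [Finset.mem_coe, Finset.mem_Ico] at hr ⊢
    refine ⟨?_, Nat.mod_lt _ hp.out.pos⟩
    rw [Nat.one_le_iff_ne_zero]
    intro h0
    have h1 : p ∣ d * r := Nat.dvd_of_mod_eq_zero h0
    rcases (hp.out.dvd_mul).1 h1 with h2 | h2
    · exact hd h2
    · exact absurd (Nat.le_of_dvd (by omega) h2) (by omega)
  have hinj : Set.InjOn (fun r => d * r % p) (Finset.Ico 1 p : Set ℕ) := by
    intro r hr s hs hrs
    rw [Finset.mem_coe, Finset.mem_Ico] at hr hs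
    have h1 : d * r ≡ d * s [MOD p] := hrs
    have h2 : r ≡ s [MOD p] := Nat.ModEq.cancel_left_of_coprime
      ((hp.out.coprime_iff_not_dvd).2 hd) h1
    exact Nat.ModEq.eq_of_lt_of_lt h2 hr.2 hs.2
  have hsurj : Set.SurjOn (fun r => d * r % p) (Finset.Ico 1 p : Set ℕ) (Finset.Ico 1 p : Set ℕ) :=
    Finset.surjOn_of_injOn_of_card_le _ hmaps hinj le_rfl
  symm
  exact Finset.sum_nbij (fun r => d * r % p) hmaps hinj hsurj fun r _ => rfl

end ring

end Pool.Agent.H31.Frob
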