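import Pool.Agent.H31.Frob.TStar

/-!
# Two residue classes: the power sums vanish
-/

set_option autoImplicit false

namespace Pool.Agent.H31.Frob

open Finset Filter Topology Polynomial

section generic

variable {Ω : Type} [NormedField Ω] [IsUltrametricDist Ω] {p : ℕ} [hp : Fact p.Prime]
  {α : Type} [Fintype α]

/-- the coefficients of the sum of the approximate logarithms -/
noncomputable def TT (p : ℕ) (b w : α → Ω) (j k : ℕ) : Ω := A Ω p j k * ((p : Ω) ^ k * Q b w k)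

/-- the sum of the approximate logarithms -/
noncomputable def PG (p : ℕ) (b w : α → Ω) (j : ℕ) (Y : Ω) : Ω :=
  ∑ k ∈ Finset.Ico 1 (p ^ j + 1), TT p b w j k * Y ^ k

omit [IsUltrametricDist Ω] in
theorem PG_eq (hpn : ‖(p : Ω)‖ = (p : ℝ)⁻¹) (b w : α → Ω) (j : ℕ) (Y : Ω) :
    ∑ l, w l * L p j (1 - (p : Ω) * b l * Y) = PG p b w j Y := by
  unfold PG TT Q
  have h1 : ∀ l, w l * L p j (1 - (p : Ω) * b l * Y) =
      ∑ k ∈ Finset.Ico 1 (p ^ j + 1), w l * (A Ω p j k * ((p : Ω) * b l * Y) ^ k) := by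
    intro l
    rw [L_expand hpn, Finset.mul_sum]
  rw [Finset.sum_congr rfl fun l _ => h1 l, Finset.sum_comm]
  refine Finset.sum_congr rfl fun k _ => ?_
  rw [Finset.mul_sum, Finset.mul_sum, Finset.sum_mul]
  refine Finset.sum_congr rfl fun l _ => ?_
  ring

theorem A_norm (hpn : ‖(p : Ω)‖ = (p : ℝ)⁻¹) {j k : ℕ} (hk : 1 ≤ k) (hkp : k ≤ p ^ j) :
    ‖A Ω p j k‖ * ‖(k : Ω)‖ = 1 := by
  have h1 := A_mul hpn j k hk
  rwa [norm_unit hpn (choose_unit' _ (by omega))] at h1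

/-- extraction of coefficients -/
theorem extract (n : ℕ) (F Cc R : Polynomial Ω) (hC : IntP Cc) (hC0 : ‖Cc.coeff 0‖ = 1) (B : ℝ)
    (hB : 0 ≤ B) (h : ∀ i < n, ‖(F * Cc + Polynomial.X ^ n * R).coeff i‖ ≤ B) :
    ∀ i < n, ‖F.coeff i‖ ≤ B := by
  intro i
  induction i using Nat.strong_induction_on with
  | _ i ih =>
    intro hi
    have h1 := h i hi
    rw [coeff_add, coeff_X_pow_mul', if_neg (by omega), add_zero, coeff_mul,
      Finset.Nat.sum_antidiagonal_eq_sum_range_succ (fun a b => F.coeff a * Cc.coeff b),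
      Finset.sum_range_succ, Nat.sub_self] at h1
    have h2 : ‖∑ k ∈ Finset.range i, F.coeff k * Cc.coeff (i - k)‖ ≤ B := by
      refine norm_sum_le' _ _ _ hB fun k hk => ?_
      rw [Finset.mem_range] at hk
      rw [norm_mul]
      calc ‖F.coeff k‖ * ‖Cc.coeff (i - k)‖ ≤ B * 1 :=
            mul_le_mul (ih k hk (by omega)) (hC _) (norm_nonneg _) hB
        _ = B := mul_one B
    have e : F.coeff i * Cc.coeff 0 = (∑ k ∈ Finset.range i, F.coeff k * Cc.coeff (i - k) +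
        F.coeff i * Cc.coeff 0) - ∑ k ∈ Finset.range i, F.coeff k * Cc.coeff (i - k) := by ring
    have h3 : ‖F.coeff i * Cc.coeff 0‖ ≤ B := by
      rw [e]
      exact norm_sub_le'' h1 h2
    rwa [norm_mul, hC0, mul_one] at h3

omit [IsUltrametricDist Ω] in
theorem coeff_sum_mono {a b n : ℕ} (hab : b ≤ n + 1) (t : ℕ → Ω) {k : ℕ} (hk : a ≤ k) (hkb : k < b) :
    (∑ i ∈ Finset.Ico a b, C (t i) * Polynomial.X ^ (n - i) : Polynomial Ω).coeff (n - k) = t k := by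
  rw [finset_sum_coeff]
  simp only [coeff_C_mul_X_pow]
  rw [Finset.sum_eq_single k]
  · simp
  · intro i hi hne
    rw [Finset.mem_Ico] at hi
    rw [if_neg (by omega)]
  · intro h
    exact absurd (Finset.mem_Ico.2 ⟨hk, hkb⟩) h

theorem IntP.pow {f : Polynomial Ω} (hf : IntP f) (n : ℕ) : IntP (f ^ n) := by
  induction n with
  | zero => rw [pow_zero]; exact IntP.one
  | succ n ih => rw [pow_succ]; exact ih.mul hf

theorem IntP.X_pow (n : ℕ) : IntP (Polynomial.X ^ n : Polynomial Ω) := by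
  intro k
  rw [coeff_X_pow]
  split_ifs <;> simp

theorem IntP.X_add_C {a : Ω} (ha : ‖a‖ ≤ 1) : IntP (Polynomial.X + Polynomial.C a) := by
  have := IntP.X_sub_C (a := -a) (by rwa [norm_neg])
  rwa [C_neg, sub_neg_eq_add] at this

end generic

theorem choose_div {p : ℕ} [hp : Fact p.Prime] {k : ℕ} (hk : 1 ≤ k) (hkp : k < p) :
    ¬ p ∣ p.choose k / p := by
  intro h
  have h1 : p ∣ p.choose k := hp.out.dvd_choose_self (by omega) hkp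
  obtain ⟨k, rfl⟩ : ∃ i, k = i + 1 := ⟨k - 1, by omega⟩
  obtain ⟨n, hn⟩ : ∃ n, p = n + 1 := ⟨p - 1, by omega⟩
  have h2 := Nat.add_one_mul_choose_eq n k
  rw [← hn] at h2
  have h3 : n.choose k = p.choose (k + 1) / p * (k + 1) := by
    have h4 : p * n.choose k = p * (p.choose (k + 1) / p * (k + 1)) := by
      rw [h2, ← mul_assoc, Nat.mul_div_cancel' h1]
    exact Nat.eq_of_mul_eq_mul_left hp.out.pos h4
  have h5 := choose_unit' (p := p) (j := 1) k (by rw [pow_one]; omega)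
  rw [pow_one] at h5
  have h6 : p - 1 = n := by omega
  rw [h6, h3] at h5
  exact h5 (Dvd.dvd.mul_right h _)

namespace Tw

variable {Ω : Type} [NormedField Ω] [IsUltrametricDist Ω] {p d : ℕ} [hp : Fact p.Prime]
  {ι ι' κ : Type} [Fintype ι] [Fintype ι'] [Fintype κ] (D : Tw Ω p d ι ι' κ) (w : ι → Ω)
  (w' : ι' → Ω)

/-- `c_l / p` -/
noncomputable def b (l : ι) : Ω := D.c l / (p : Ω)

/-- `(c'_l - m) / p` -/
noncomputable def b' (l : ι') : Ω := (D.c' l - D.m) / (p : Ω)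

include hp

theorem norm_b (l : ι) : ‖D.b l‖ ≤ 1 := by
  unfold b
  rw [norm_div, D.hpn, div_le_one Dat.invp_pos]
  exact D.hc l

theorem norm_b' (l : ι') : ‖D.b' l‖ ≤ 1 := by
  unfold b'
  rw [norm_div, D.hpn, div_le_one Dat.invp_pos]
  exact D.hc' l

theorem c_eq (l : ι) : D.c l = (p : Ω) * D.b l := by
  unfold b
  rw [mul_div_cancel₀ _ (p_ne D.hpn)]

theorem c'_eq (l : ι') : D.c' l - D.m = (p : Ω) * D.b' l := by
  unfold b'
  rw [mul_div_cancel₀ _ (p_ne D.hpn)]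

theorem norm_sum_b : ‖∑ l, D.b l‖ ≤ (p : ℝ)⁻¹ := by
  have h1 : ∑ l, D.b l = (∑ l, D.c l) / (p : Ω) := by
    unfold b
    rw [Finset.sum_div]
  rw [h1, norm_div, D.hpn, div_le_iff₀ Dat.invp_pos, ← pow_two]
  exact D.hcs

/-- the sizes, first class -/
noncomputable def e (k : ℕ) : ℝ := if k = 0 then (p : ℝ)⁻¹ * ‖Q D.b w 0‖ else (p : ℝ)⁻¹ ^ k * ‖Q D.b w k‖

/-- the sizes, second class -/
noncomputable def f (k : ℕ) : ℝ := (p : ℝ)⁻¹ ^ k * ‖Q D.b' w' k‖ / ‖(k : Ω)‖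

omit hp in
theorem e_zero : D.e w 0 = (p : ℝ)⁻¹ * ‖Q D.b w 0‖ := by unfold e; rw [if_pos rfl]

omit hp in
theorem e_pos {k : ℕ} (hk : 1 ≤ k) : D.e w k = (p : ℝ)⁻¹ ^ k * ‖Q D.b w k‖ := by
  unfold e; rw [if_neg (by omega)]

theorem e_nonneg (k : ℕ) : 0 ≤ D.e w k := by
  unfold e
  split_ifs
  · exact mul_nonneg Dat.invp_pos.le (norm_nonneg _)
  · exact mul_nonneg (pow_nonneg Dat.invp_pos.le _) (norm_nonneg _)

theorem f_nonneg (k : ℕ) : 0 ≤ D.f w' k := by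
  unfold f
  exact div_nonneg (mul_nonneg (pow_nonneg Dat.invp_pos.le _) (norm_nonneg _)) (norm_nonneg _)

section step

variable {N : ℝ} (hN : ∀ k < p, D.e w k ≤ N) (hN' : ∀ k, 1 ≤ k → k < d → D.f w' k ≤ N)
  (h0' : Q D.b' w' 0 = 0)

section first

include hN

theorem N_nonneg : 0 ≤ N := (D.e_nonneg w 0).trans (hN 0 hp.out.pos)

theorem Q_small (k : ℕ) : (p : ℝ)⁻¹ ^ (p - 1) * ‖Q D.b w k‖ ≤ N := by
  have h3 := D.h3
  have hpos : 0 < (p : ℝ)⁻¹ ^ (p - 1) := pow_pos Dat.invp_pos _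
  have h1 : ∀ k < p, ‖Q D.b w k‖ ≤ N / (p : ℝ)⁻¹ ^ (p - 1) := by
    intro k hk
    rw [le_div_iff₀ hpos, mul_comm]
    refine le_trans ?_ (hN k hk)
    rcases Nat.eq_zero_or_pos k with h0 | h0
    · rw [h0, D.e_zero]
      refine mul_le_mul_of_nonneg_right ?_ (norm_nonneg _)
      exact pow_le_of_le_one Dat.invp_pos.le Dat.invp_lt.le (by omega)
    · rw [D.e_pos w h0]
      refine mul_le_mul_of_nonneg_right ?_ (norm_nonneg _)
      exact pow_le_pow_of_le_one Dat.invp_pos.le Dat.invp_lt.le (by omega)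
  have h2 := Q_bound D.b w D.norm_b (N / (p : ℝ)⁻¹ ^ (p - 1))
    (div_nonneg (D.N_nonneg w hN) hpos.le) (by rw [D.cardι]; exact h1) k
  rwa [le_div_iff₀ hpos, mul_comm] at h2

theorem Qp_small : (p : ℝ)⁻¹ ^ (p - 2) * ‖Q D.b w p‖ ≤ N := by
  have h3 := D.h3
  have hpos : 0 < (p : ℝ)⁻¹ ^ (p - 2) := pow_pos Dat.invp_pos _
  have h1 := Q_rec D.b w 0
  rw [zero_add, D.cardι] at h1
  rw [mul_comm, ← le_div_iff₀ hpos, h1, norm_neg]
  refine norm_sum_le' _ _ _ (div_nonneg (D.N_nonneg w hN) hpos.le) fun i hi => ?_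
  rw [Finset.mem_range] at hi
  rw [le_div_iff₀ hpos, norm_mul, zero_add]
  have hI : IntP (H D.b) := IntP.prod _ _ fun l _ => IntP.X_sub_C (D.norm_b l)
  have hle : ‖(H D.b).coeff i‖ * ‖Q D.b w i‖ * (p : ℝ)⁻¹ ^ (p - 2) ≤ ‖Q D.b w i‖ * (p : ℝ)⁻¹ ^ (p - 2) := by
    refine mul_le_mul_of_nonneg_right ?_ hpos.le
    exact mul_le_of_le_one_left (norm_nonneg _) (hI i)
  rcases Nat.eq_zero_or_pos i with h0 | h0
  · refine hle.trans ?_
    rw [h0]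
    refine le_trans ?_ (hN 0 hp.out.pos)
    rw [D.e_zero, mul_comm]
    refine mul_le_mul_of_nonneg_right ?_ (norm_nonneg _)
    exact pow_le_of_le_one Dat.invp_pos.le Dat.invp_lt.le (by omega)
  rcases Nat.lt_or_ge i (p - 1) with h4 | h4
  · refine hle.trans ?_
    refine le_trans ?_ (hN i hi)
    rw [D.e_pos w h0, mul_comm]
    refine mul_le_mul_of_nonneg_right ?_ (norm_nonneg _)
    exact pow_le_pow_of_le_one Dat.invp_pos.le Dat.invp_lt.le (by omega)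
  · have h5 : i = p - 1 := by omega
    have h6 : ‖(H D.b).coeff i‖ ≤ (p : ℝ)⁻¹ := by
      have := H_coeff_pred D.b (by rw [D.cardι]; omega)
      rw [D.cardι] at this
      rw [h5, this, norm_neg]
      exact D.norm_sum_b
    refine le_trans ?_ (hN i hi)
    rw [D.e_pos w h0]
    have h7 : (p : ℝ)⁻¹ ^ i = (p : ℝ)⁻¹ * (p : ℝ)⁻¹ ^ (p - 2) := by
      rw [← pow_succ', h5]; congr 1; omega
    rw [h7]
    calc ‖(H D.b).coeff i‖ * ‖Q D.b w i‖ * (p : ℝ)⁻¹ ^ (p - 2)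
        ≤ (p : ℝ)⁻¹ * ‖Q D.b w i‖ * (p : ℝ)⁻¹ ^ (p - 2) := by
          refine mul_le_mul_of_nonneg_right ?_ hpos.le
          exact mul_le_mul_of_nonneg_right h6 (norm_nonneg _)
      _ = (p : ℝ)⁻¹ * (p : ℝ)⁻¹ ^ (p - 2) * ‖Q D.b w i‖ := by ring

omit hN in
theorem T_eq {j k : ℕ} (hj : 1 ≤ j) (hk : 1 ≤ k) (hkp : k < p) : ‖TT p D.b w j k‖ = D.e w k := by
  unfold TT
  rw [norm_mul, norm_mul, norm_pow, D.hpn, A_eq_one D.hpn hj hk hkp, one_mul, D.e_pos w hk]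

theorem T_tail {j k : ℕ} (hk : p ≤ k) : ‖TT p D.b w j k‖ ≤ (p : ℝ)⁻¹ * N := by
  have h3 := D.h3
  unfold TT
  rw [norm_mul, norm_mul, norm_pow, D.hpn]
  rcases Nat.eq_or_lt_of_le hk with h0 | h0
  · subst h0
    have h1 := A_le D.hpn j (k := p) hp.out.one_lt.le
    have h2 : padicValNat p p = 1 := by simp
    rw [h2, pow_one] at h1
    have h4 := D.Qp_small w hN
    have h5 : (p : ℝ)⁻¹ ^ p = (p : ℝ)⁻¹ * ((p : ℝ)⁻¹ * (p : ℝ)⁻¹ ^ (p - 2)) := by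
      rw [← pow_succ', ← pow_succ']; congr 1; omega
    calc ‖A Ω p j p‖ * ((p : ℝ)⁻¹ ^ p * ‖Q D.b w p‖)
        = (‖A Ω p j p‖ * (p : ℝ)⁻¹) * ((p : ℝ)⁻¹ * ((p : ℝ)⁻¹ ^ (p - 2) * ‖Q D.b w p‖)) := by
          rw [h5]; ring
      _ ≤ 1 * ((p : ℝ)⁻¹ * N) := by
          refine mul_le_mul h1 (mul_le_mul_of_nonneg_left h4 Dat.invp_pos.le) ?_ zero_le_one
          exact mul_nonneg Dat.invp_pos.le (mul_nonneg (pow_nonneg Dat.invp_pos.le _) (norm_nonneg _))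
      _ = (p : ℝ)⁻¹ * N := one_mul _
  · have h1 := A_tail D.hpn h3 j (k := k) h0
    have h4 := D.Q_small w hN k
    have h5 : (p : ℝ)⁻¹ ^ (p + 1) = (p : ℝ)⁻¹ * ((p : ℝ)⁻¹ * (p : ℝ)⁻¹ ^ (p - 1)) := by
      rw [← pow_succ', ← pow_succ']; congr 1; omega
    calc ‖A Ω p j k‖ * ((p : ℝ)⁻¹ ^ k * ‖Q D.b w k‖)
        = (‖A Ω p j k‖ * (p : ℝ)⁻¹ ^ k) * ‖Q D.b w k‖ := by ring
      _ ≤ (p : ℝ)⁻¹ ^ (p + 1) * ‖Q D.b w k‖ := mul_le_mul_of_nonneg_right h1 (norm_nonneg _)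
      _ = (p : ℝ)⁻¹ * ((p : ℝ)⁻¹ * ((p : ℝ)⁻¹ ^ (p - 1) * ‖Q D.b w k‖)) := by rw [h5]; ring
      _ ≤ (p : ℝ)⁻¹ * (1 * N) := by
          refine mul_le_mul_of_nonneg_left ?_ Dat.invp_pos.le
          refine mul_le_mul Dat.invp_lt.le h4 ?_ zero_le_one
          exact mul_nonneg (pow_nonneg Dat.invp_pos.le _) (norm_nonneg _)
      _ = (p : ℝ)⁻¹ * N := by rw [one_mul]

theorem PN_le : (p : ℝ)⁻¹ * N ≤ N := mul_le_of_le_one_left (D.N_nonneg w hN) Dat.invp_lt.le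

theorem T_le {j k : ℕ} (hj : 1 ≤ j) (hk : 1 ≤ k) : ‖TT p D.b w j k‖ ≤ N := by
  rcases Nat.lt_or_ge k p with h | h
  · rw [D.T_eq w hj hk h]; exact hN k h
  · exact (D.T_tail w hN h).trans (D.PN_le w hN)

end first

section second

include hN hN' h0'

theorem Q'_small (k : ℕ) : (p : ℝ)⁻¹ ^ (d - 1) * ‖Q D.b' w' k‖ ≤ N := by
  have hd := D.hd
  have hN0 := D.N_nonneg w hN
  have hpos : 0 < (p : ℝ)⁻¹ ^ (d - 1) := pow_pos Dat.invp_pos _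
  have h1 : ∀ k < d, ‖Q D.b' w' k‖ ≤ N / (p : ℝ)⁻¹ ^ (d - 1) := by
    intro k hk
    rw [le_div_iff₀ hpos, mul_comm]
    rcases Nat.eq_zero_or_pos k with h0 | h0
    · rw [h0, h0', norm_zero, mul_zero]; exact hN0
    · have h2 := hN' k h0 hk
      unfold f at h2
      have h3 : 0 < ‖(k : Ω)‖ := by
        rw [norm_nat D.hpn (by omega)]
        exact pow_pos Dat.invp_pos _
      rw [div_le_iff₀ h3] at h2
      calc (p : ℝ)⁻¹ ^ (d - 1) * ‖Q D.b' w' k‖ ≤ (p : ℝ)⁻¹ ^ k * ‖Q D.b' w' k‖ := by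
            refine mul_le_mul_of_nonneg_right ?_ (norm_nonneg _)
            exact pow_le_pow_of_le_one Dat.invp_pos.le Dat.invp_lt.le (by omega)
        _ ≤ N * ‖(k : Ω)‖ := h2
        _ ≤ N := mul_le_of_le_one_right hN0 (IsUltrametricDist.norm_natCast_le_one Ω _)
  have h2 := Q_bound D.b' w' D.norm_b' (N / (p : ℝ)⁻¹ ^ (d - 1))
    (div_nonneg hN0 hpos.le) (by rw [D.cardι']; exact h1) k
  rwa [le_div_iff₀ hpos, mul_comm] at h2

theorem T'_tail {j k : ℕ} (hk : d ≤ k) : ‖TT p D.b' w' j k‖ ≤ (p : ℝ)⁻¹ * N := by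
  have hd := D.hd
  unfold TT
  rw [norm_mul, norm_mul, norm_pow, D.hpn]
  have h1 := A_tail' D.hpn j (k := k) (by omega) (D.hval k hk)
  have h2 : (p : ℝ)⁻¹ ^ d = (p : ℝ)⁻¹ * (p : ℝ)⁻¹ ^ (d - 1) := by
    rw [← pow_succ']; congr 1; omega
  calc ‖A Ω p j k‖ * ((p : ℝ)⁻¹ ^ k * ‖Q D.b' w' k‖)
      = (‖A Ω p j k‖ * (p : ℝ)⁻¹ ^ k) * ‖Q D.b' w' k‖ := by ring
    _ ≤ (p : ℝ)⁻¹ ^ d * ‖Q D.b' w' k‖ := mul_le_mul_of_nonneg_right h1 (norm_nonneg _)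
    _ = (p : ℝ)⁻¹ * ((p : ℝ)⁻¹ ^ (d - 1) * ‖Q D.b' w' k‖) := by rw [h2]; ring
    _ ≤ (p : ℝ)⁻¹ * N := mul_le_mul_of_nonneg_left (D.Q'_small w w' hN hN' h0' k) Dat.invp_pos.le

omit hN hN' h0' in
theorem T'_eq {j k : ℕ} (hk : 1 ≤ k) (hkp : k ≤ p ^ j) : ‖TT p D.b' w' j k‖ = D.f w' k := by
  have h1 := A_norm D.hpn hk hkp
  have h3 : ‖(k : Ω)‖ ≠ 0 := by
    intro h0
    rw [h0, mul_zero] at h1
    exact zero_ne_one h1
  unfold TT f
  rw [norm_mul, norm_mul, norm_pow, D.hpn, eq_div_iff h3]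
  calc ‖A Ω p j k‖ * ((p : ℝ)⁻¹ ^ k * ‖Q D.b' w' k‖) * ‖(k : Ω)‖
      = (‖A Ω p j k‖ * ‖(k : Ω)‖) * ((p : ℝ)⁻¹ ^ k * ‖Q D.b' w' k‖) := by ring
    _ = _ := by rw [h1, one_mul]

theorem T'_le {j k : ℕ} (hdj : d ≤ p ^ j) (hk : 1 ≤ k) : ‖TT p D.b' w' j k‖ ≤ N := by
  rcases Nat.lt_or_ge k d with h | h
  · rw [D.T'_eq w' hk (by omega)]; exact hN' k hk h
  · exact (D.T'_tail w w' hN hN' h0' h).trans (D.PN_le w hN)

end second

omit hp in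
theorem PG_le {α : Type} [Fintype α] (b w : α → Ω) (j : ℕ) (hN0 : 0 ≤ N)
    (h : ∀ k, 1 ≤ k → ‖TT p b w j k‖ ≤ N) {Y : Ω} (hY : ‖Y‖ ≤ 1) : ‖PG p b w j Y‖ ≤ N := by
  unfold PG
  refine norm_sum_le' _ _ _ hN0 fun k hk => ?_
  rw [Finset.mem_Ico] at hk
  rw [norm_mul, norm_pow]
  calc ‖TT p b w j k‖ * ‖Y‖ ^ k ≤ N * 1 :=
        mul_le_mul (h k hk.1) (pow_le_one₀ (norm_nonneg _) hY) (pow_nonneg (norm_nonneg _) _) hN0
    _ = N := mul_one N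

omit hp in
theorem PG_tail {α : Type} [Fintype α] (b w : α → Ω) (j n : ℕ) (hn : 1 ≤ n) (hnj : n ≤ p ^ j) {N' : ℝ}
    (hN0 : 0 ≤ N') (h : ∀ k, n ≤ k → ‖TT p b w j k‖ ≤ N') {Y : Ω} (hY : ‖Y‖ ≤ 1) :
    ‖PG p b w j Y - ∑ k ∈ Finset.Ico 1 n, TT p b w j k * Y ^ k‖ ≤ N' := by
  unfold PG
  rw [← Finset.sum_Ico_consecutive _ hn (by omega : n ≤ p ^ j + 1), add_sub_cancel_left]
  refine norm_sum_le' _ _ _ hN0 fun k hk => ?_
  rw [Finset.mem_Ico] at hk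
  rw [norm_mul, norm_pow]
  calc ‖TT p b w j k‖ * ‖Y‖ ^ k ≤ N' * 1 :=
        mul_le_mul (h k hk.1) (pow_le_one₀ (norm_nonneg _) hY) (pow_nonneg (norm_nonneg _) _) hN0
    _ = N' := mul_one _

end step

/-! ### the Frobenius correction -/

theorem norm_al_le (r : ℕ) : ‖D.al r‖ ≤ 1 := by
  unfold al
  rw [norm_mul, norm_mul, norm_pow, norm_pow, D.hv1, D.hm, one_pow, one_pow, mul_one, mul_one]
  exact IsUltrametricDist.norm_natCast_le_one Ω _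

theorem norm_al {r : ℕ} (hr : 1 ≤ r) (hrp : r < p) : ‖D.al r‖ = 1 := by
  unfold al
  rw [norm_mul, norm_mul, norm_pow, norm_pow, D.hv1, D.hm, one_pow, one_pow, mul_one, mul_one]
  refine norm_unit D.hpn (choose_div ?_ (Nat.mod_lt _ hp.out.pos))
  rw [Nat.one_le_iff_ne_zero]
  intro h0
  have h1 : p ∣ d * r := Nat.dvd_of_mod_eq_zero h0
  rcases (hp.out.dvd_mul).1 h1 with h2 | h2
  · exact D.not_dvd_d h2
  · exact absurd (Nat.le_of_dvd (by omega) h2) (by omega)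

theorem norm_lam_le {Y W : Ω} (hY : ‖Y‖ ≤ 1) (hW : ‖W‖ ≤ 1) : ‖D.lam Y W‖ ≤ 1 := by
  unfold lam
  rw [norm_mul]
  refine mul_le_one₀ hY (norm_nonneg _) (norm_add_le' D.norm_q ?_)
  refine norm_sum_le' _ _ _ zero_le_one fun r _ => ?_
  rw [norm_mul, norm_mul, norm_pow, norm_pow]
  refine mul_le_one₀ (mul_le_one₀ (D.norm_al_le r) (pow_nonneg (norm_nonneg _) _)
    (pow_le_one₀ (norm_nonneg _) hY)) (pow_nonneg (norm_nonneg _) _) (pow_le_one₀ (norm_nonneg _) hW)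

/-- the unit `X_i ^ p / X_{i*}` -/
noncomputable def rho (i : κ) : Ω := (D.X i) ^ p * (D.X (D.star i))⁻¹

/-- `1 / X_i` -/
noncomputable def Y (i : κ) : Ω := (D.X i)⁻¹

/-- `1 / (X_i - m)` -/
noncomputable def W (i : κ) : Ω := (D.X i - D.m)⁻¹

theorem norm_Y (i : κ) : ‖D.Y i‖ = 1 := by unfold Y; rw [norm_inv, D.norm_X, inv_one]

theorem norm_W (i : κ) : ‖D.W i‖ = 1 := by unfold W; rw [norm_inv, D.norm_y, inv_one]

theorem rho_approx (i : κ) :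
    ‖D.rho i - 1 - (p : Ω) * D.lam (D.Y (D.star i)) (D.W (D.star i))‖ ≤ (p : ℝ)⁻¹ ^ 2 :=
  D.frob_root i

theorem rho_sub_one (i : κ) : ‖D.rho i - 1‖ ≤ (p : ℝ)⁻¹ := by
  have e : D.rho i - 1 = (D.rho i - 1 - (p : Ω) * D.lam (D.Y (D.star i)) (D.W (D.star i))) +
      (p : Ω) * D.lam (D.Y (D.star i)) (D.W (D.star i)) := by ring
  rw [e]
  refine norm_add_le' ((D.rho_approx i).trans (pow_le_of_le_one Dat.invp_pos.le Dat.invp_lt.le two_ne_zero)) ?_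
  rw [norm_mul, D.hpn]
  exact mul_le_of_le_one_right Dat.invp_pos.le (D.norm_lam_le (D.norm_Y _).le (D.norm_W _).le)

/-- the relation -/
def Rel1 : Prop := ∀ j, 1 ≤ j → ∀ i, ‖(∑ l, w l) * L p j (D.rho i) +
  (p : Ω) * (PG p D.b w j (D.Y i) + PG p D.b' w' j (D.W i)) -
  (PG p D.b w j (D.Y (D.star i)) + PG p D.b' w' j (D.W (D.star i)))‖ ≤ (p : ℝ)⁻¹ ^ j

end Tw

end Pool.Agent.H31.Frob
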