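import Pool.Agent.H31.Frob.TStep

/-!
# Two residue classes: rigidity
-/

set_option autoImplicit false

namespace Pool.Agent.H31.Frob

open Finset Filter Topology Polynomial

namespace Tw

variable {Ω : Type} [NormedField Ω] [IsUltrametricDist Ω] {p d : ℕ} [hp : Fact p.Prime]
  {ι ι' κ : Type} [Fintype ι] [Fintype ι'] [Fintype κ] (D : Tw Ω p d ι ι' κ)

/-- all the nodes -/
def cc : ι ⊕ ι' → Ω := Sum.elim D.c D.c'

/-- `1 - c_l / X_i` and `1 - (c'_l - m) / (X_i - m)` -/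
noncomputable def uu (i : κ) : ι ⊕ ι' → Ω :=
  Sum.elim (fun l => 1 - (p : Ω) * D.b l * D.Y i) (fun l => 1 - (p : Ω) * D.b' l * D.W i)

/-- the product of the units -/
noncomputable def R (M : ι ⊕ ι' → ℤ) (i : κ) : Ω := ∏ o, (D.X i - D.cc o) ^ M o

theorem prod_cc (i : κ) : ∏ o, (D.X i - D.cc o) = D.v := by
  rw [Fintype.prod_sum_type]
  exact D.eqn i

theorem v_ne : D.v ≠ 0 := by
  intro h6
  have := D.hv1
  rw [h6, norm_zero] at this
  exact zero_ne_one this

theorem cc_ne (i : κ) (o : ι ⊕ ι') : D.X i - D.cc o ≠ 0 := by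
  intro h
  have h1 := D.prod_cc i
  rw [Finset.prod_eq_zero (Finset.mem_univ o) h] at h1
  exact D.v_ne h1.symm

include hp

theorem uu_sub_one (i : κ) (o : ι ⊕ ι') : ‖D.uu i o - 1‖ ≤ (p : ℝ)⁻¹ := by
  rcases o with l | l
  · have e : D.uu i (Sum.inl l) - 1 = -((p : Ω) * D.b l * D.Y i) := by
      simp only [uu, Sum.elim_inl]; ring
    rw [e, norm_neg, norm_mul, norm_mul, D.norm_Y, mul_one, D.hpn]
    exact mul_le_of_le_one_right Dat.invp_pos.le (D.norm_b l)
  · have e : D.uu i (Sum.inr l) - 1 = -((p : Ω) * D.b' l * D.W i) := by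
      simp only [uu, Sum.elim_inr]; ring
    rw [e, norm_neg, norm_mul, norm_mul, D.norm_W, mul_one, D.hpn]
    exact mul_le_of_le_one_right Dat.invp_pos.le (D.norm_b' l)

theorem X_sub_c (i : κ) (l : ι) : D.X i - D.c l = D.X i * D.uu i (Sum.inl l) := by
  simp only [uu, Sum.elim_inl, Y]
  rw [← D.c_eq]
  have := D.X_ne i
  field_simp

theorem X_sub_c' (i : κ) (l : ι') : D.X i - D.c' l = (D.X i - D.m) * D.uu i (Sum.inr l) := by
  simp only [uu, Sum.elim_inr, W]
  rw [← D.c'_eq]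
  have := D.y_ne i
  field_simp
  ring

theorem R_eq (M : ι ⊕ ι' → ℤ) (hM : ∑ l, M (Sum.inr l) = 0) (i : κ) :
    D.R M i = (D.X i) ^ (∑ l, M (Sum.inl l)) * ∏ o, (D.uu i o) ^ M o := by
  unfold R
  rw [Fintype.prod_sum_type, Fintype.prod_sum_type]
  have e1 : ∏ l, (D.X i - D.cc (Sum.inl l)) ^ M (Sum.inl l) =
      (D.X i) ^ (∑ l, M (Sum.inl l)) * ∏ l, (D.uu i (Sum.inl l)) ^ M (Sum.inl l) := by
    rw [← zprod_sum₀ _ (D.X_ne i), ← Finset.prod_mul_distrib]
    refine Finset.prod_congr rfl fun l _ => ?_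
    rw [← mul_zpow, ← D.X_sub_c]
    rfl
  have e2 : ∏ l, (D.X i - D.cc (Sum.inr l)) ^ M (Sum.inr l) =
      (D.X i - D.m) ^ (∑ l, M (Sum.inr l)) * ∏ l, (D.uu i (Sum.inr l)) ^ M (Sum.inr l) := by
    rw [← zprod_sum₀ _ (D.y_ne i), ← Finset.prod_mul_distrib]
    refine Finset.prod_congr rfl fun l _ => ?_
    rw [← mul_zpow, ← D.X_sub_c']
    rfl
  rw [e1, e2, hM, zpow_zero, one_mul]
  ring

/-- the linear relation -/
theorem rel1_of (M : ℕ → ι ⊕ ι' → ℤ) (w : ι ⊕ ι' → Ω) (hM : ∀ n, ∑ l, M n (Sum.inr l) = 0)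
    (hw : ∀ o, Tendsto (fun n => ((M n o : ℤ) : Ω)) atTop (𝓝 (w o)))
    (hrel : ∀ N : ℕ, ∀ᶠ n in atTop, ∀ i, ‖D.R (M n) i - 1‖ ≤ (p : ℝ)⁻¹ ^ N) :
    D.Rel1 (fun l => w (Sum.inl l)) (fun l => w (Sum.inr l)) := by
  intro j hj i
  have h3 := D.h3
  set K : ι ⊕ ι' → Ω := fun o => (Sum.elim (fun _ : ι => L p j (D.rho i)) (fun _ : ι' => 0) o) +
    (p : Ω) * L p j (D.uu i o) - L p j (D.uu (D.star i) o) with hK
  have e1 : (∑ l, w (Sum.inl l)) * L p j (D.rho i) +
      (p : Ω) * (PG p D.b (fun l => w (Sum.inl l)) j (D.Y i) + PG p D.b' (fun l => w (Sum.inr l)) j (D.W i)) -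
      (PG p D.b (fun l => w (Sum.inl l)) j (D.Y (D.star i)) +
        PG p D.b' (fun l => w (Sum.inr l)) j (D.W (D.star i))) = ∑ o, w o * K o := by
    rw [← PG_eq D.hpn, ← PG_eq D.hpn, ← PG_eq D.hpn, ← PG_eq D.hpn, Fintype.sum_sum_type]
    simp only [hK, Sum.elim_inl, Sum.elim_inr, uu, mul_sub, mul_add, Finset.sum_sub_distrib,
      Finset.sum_add_distrib, Finset.mul_sum, Finset.sum_mul, mul_zero, Finset.sum_const_zero,
      zero_add]
    have e2 : ∀ (γ : Type) [Fintype γ] (f : γ → Ω) (g : γ → Ω), ∑ x, (p : Ω) * (f x * g x) =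
        ∑ x, f x * ((p : Ω) * g x) := fun γ _ f g => Finset.sum_congr rfl fun x _ => by ring
    rw [e2, e2]
    ring
  rw [e1]
  refine lim_le M w hw K _ ?_
  filter_upwards [hrel (j + j)] with n hn
  have hB : (p : ℝ)⁻¹ ^ (j + j) < 1 := pow_lt_one₀ Dat.invp_pos.le Dat.invp_lt (by omega)
  set s := ∑ l, M n (Sum.inl l) with hs
  -- the family of units
  set x : Option ((ι ⊕ ι') ⊕ (ι ⊕ ι')) → Ω := fun o =>
    o.elim (D.rho i) (Sum.elim (D.uu i) (D.uu (D.star i))) with hx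
  set E : Option ((ι ⊕ ι') ⊕ (ι ⊕ ι')) → ℤ := fun o =>
    o.elim s (Sum.elim (fun l => p * M n l) (fun l => -M n l)) with hE
  have hprod : ∏ a, x a ^ E a = (D.R (M n) i) ^ p * (D.R (M n) (D.star i))⁻¹ := by
    rw [Fintype.prod_option, Fintype.prod_sum_type, D.R_eq _ (hM n), D.R_eq _ (hM n)]
    simp only [hx, hE, Option.elim_none, Option.elim_some]
    have e2 : (D.rho i) ^ s = ((D.X i) ^ s) ^ p * ((D.X (D.star i)) ^ s)⁻¹ := by
      unfold rho
      rw [mul_zpow, inv_zpow, ← zpow_natCast, ← zpow_natCast, ← zpow_mul, ← zpow_mul, mul_comm s]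
    have e3 : ∏ o, (Sum.elim (D.uu i) (D.uu (D.star i)) (Sum.inl o)) ^
        (Sum.elim (fun l => (p : ℤ) * M n l) (fun l => -M n l) (Sum.inl o)) =
        (∏ o, (D.uu i o) ^ (M n o)) ^ p := by
      rw [← Finset.prod_pow]
      refine Finset.prod_congr rfl fun l _ => ?_
      rw [Sum.elim_inl, Sum.elim_inl, ← zpow_natCast, ← zpow_mul, mul_comm]
    have e4 : ∏ o, (Sum.elim (D.uu i) (D.uu (D.star i)) (Sum.inr o)) ^
        (Sum.elim (fun l => (p : ℤ) * M n l) (fun l => -M n l) (Sum.inr o)) =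
        (∏ o, (D.uu (D.star i) o) ^ (M n o))⁻¹ := by
      rw [← Finset.prod_inv_distrib]
      refine Finset.prod_congr rfl fun l _ => ?_
      rw [Sum.elim_inr, Sum.elim_inr, zpow_neg]
    rw [e2, e3, e4, mul_pow, mul_inv]
    ring
  have h1 : ‖∏ a, x a ^ E a - 1‖ ≤ (p : ℝ)⁻¹ ^ (j + j) := by
    rw [hprod]
    exact Dat.div_sub_one_le hB (Dat.pow_sub_one_le hB (hn i) p) (hn _)
  have h2 := rel_L D.hpn h3 hj Finset.univ x E (by
    intro a _
    rcases a with _ | a | a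
    · exact D.rho_sub_one i
    · exact D.uu_sub_one i a
    · exact D.uu_sub_one _ a) h1
  have e5 : ∑ a, (E a : Ω) * L p j (x a) = ∑ o, (M n o : Ω) * K o := by
    rw [Fintype.sum_option, Fintype.sum_sum_type]
    have e6 : (s : Ω) * L p j (D.rho i) =
        ∑ o, (M n o : Ω) * (Sum.elim (fun _ : ι => L p j (D.rho i)) (fun _ : ι' => 0) o) := by
      rw [Fintype.sum_sum_type]
      simp only [Sum.elim_inl, Sum.elim_inr, mul_zero, Finset.sum_const_zero, add_zero]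
      rw [hs, Int.cast_sum, Finset.sum_mul]
    simp only [hx, hE, hK, Option.elim_none, Option.elim_some]
    rw [e6, ← Finset.sum_add_distrib, ← Finset.sum_add_distrib]
    refine Finset.sum_congr rfl fun o _ => ?_
    simp only [Sum.elim_inl, Sum.elim_inr]
    push_cast
    ring
  rw [e5] at h2
  exact h2

theorem v_pow : D.v ^ (p - 1) = 1 := by
  have h3 := D.h3
  have h4 := D.hv
  have h6 : D.v ^ (p - 1) * D.v = 1 * D.v := by
    rw [← pow_succ, one_mul]
    have : p - 1 + 1 = p := by omega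
    rw [this]; exact h4
  exact mul_right_cancel₀ D.v_ne h6

include D in
theorem pred_ne : ((p - 1 : ℕ) : Ω) ≠ 0 := by
  have h3 := D.h3
  intro h4
  have h5 := norm_unit D.hpn (u := p - 1) (fun h6 => absurd (Nat.le_of_dvd (by omega) h6) (by omega))
  rw [h4, norm_zero] at h5
  exact zero_ne_one h5

include D in
theorem d_ne : (d : Ω) ≠ 0 := by
  intro h4
  have h5 := D.norm_d
  rw [h4, norm_zero] at h5
  exact zero_ne_one h5

/-- **rigidity for two classes** -/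
theorem rigid : Rigid p D.cc D.X := by
  classical
  intro M w hw hrel
  have h3 := D.h3
  have hpm := D.pred_ne
  have hd0 := D.d_ne
  have hp0 : (p : Ω) ≠ 0 := p_ne D.hpn
  set s : Ω := ∑ l, w (Sum.inr l) with hs
  set M' : ℕ → ι ⊕ ι' → ℤ := fun n o => ((p - 1 : ℕ) : ℤ) * ((d : ℤ) * M n o - ∑ l, M n (Sum.inr l))
    with hM'
  set w' : ι ⊕ ι' → Ω := fun o => ((p - 1 : ℕ) : Ω) * ((d : Ω) * w o - s) with hw'
  have hlim : ∀ o, Tendsto (fun n => ((M' n o : ℤ) : Ω)) atTop (𝓝 (w' o)) := by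
    intro o
    simp only [hM', hw', Int.cast_mul, Int.cast_natCast, Int.cast_sub, Int.cast_sum]
    exact tendsto_const_nhds.mul ((tendsto_const_nhds.mul (hw _)).sub
      (tendsto_finsetSum _ fun l _ => hw _))
  have hsum0 : ∀ n, ∑ l, M' n (Sum.inr l) = 0 := by
    intro n
    simp only [hM']
    rw [← Finset.mul_sum, Finset.sum_sub_distrib, ← Finset.mul_sum, Finset.sum_const,
      Finset.card_univ, D.cardι']
    simp
  have hR : ∀ n i, D.R (M' n) i = ((∏ o, (D.X i - D.cc o) ^ M n o) ^ d) ^ (p - 1) := by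
    intro n i
    unfold R
    have e2 : ∀ o, (D.X i - D.cc o) ^ M' n o =
        (((D.X i - D.cc o) ^ M n o) ^ d) ^ (p - 1) *
          ((D.X i - D.cc o) ^ (-(((p - 1 : ℕ) : ℤ) * ∑ l, M n (Sum.inr l)))) := by
      intro o
      rw [← zpow_natCast, ← zpow_natCast, ← zpow_mul, ← zpow_mul, ← zpow_add₀ (D.cc_ne i o)]
      congr 1
      simp only [hM']
      ring
    rw [Finset.prod_congr rfl fun o _ => e2 o, Finset.prod_mul_distrib, Finset.prod_pow,
      Finset.prod_pow, Finset.prod_zpow, D.prod_cc, zpow_neg, zpow_mul, zpow_natCast, D.v_pow,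
      one_zpow, inv_one, mul_one]
  have hrel' : ∀ N : ℕ, ∀ᶠ n in atTop, ∀ i, ‖D.R (M' n) i - 1‖ ≤ (p : ℝ)⁻¹ ^ N := by
    intro N
    filter_upwards [hrel (N + 1)] with n hn i
    rw [hR]
    have hB : (p : ℝ)⁻¹ ^ (N + 1) < 1 := pow_lt_one₀ Dat.invp_pos.le Dat.invp_lt (by omega)
    refine (Dat.pow_sub_one_le hB (Dat.pow_sub_one_le hB (hn i) _) _).trans ?_
    exact pow_le_pow_of_le_one Dat.invp_pos.le Dat.invp_lt.le (by omega)
  have hrel1 := D.rel1_of M' w' hsum0 hlim hrel'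
  have hQ0 : Q D.b' (fun l => w' (Sum.inr l)) 0 = 0 := by
    unfold Q
    simp only [pow_zero, mul_one, hw']
    rw [← Finset.mul_sum, Finset.sum_sub_distrib, ← Finset.mul_sum, ← hs, Finset.sum_const,
      Finset.card_univ, D.cardι', nsmul_eq_mul, sub_self, mul_zero]
  obtain ⟨hq, hq'⟩ := D.Q_zero _ _ hQ0 hrel1
  refine ⟨s / d, fun β => ?_⟩
  have h4 : ∀ o, (w o - s / d) * (((p - 1 : ℕ) : Ω) * d) = w' o := by
    intro o
    simp only [hw']
    field_simp
  have h5 : (∑ o ∈ univ.filter (fun o => D.cc o = β), (w o - s / d)) * (((p - 1 : ℕ) : Ω) * d) = 0 := by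
    rw [Finset.sum_mul, Finset.sum_congr rfl fun o _ => h4 o, Finset.sum_filter, Fintype.sum_sum_type]
    have h6 := class_zero D.b (fun l => w' (Sum.inl l)) hq (β / p)
    have h7 := class_zero D.b' (fun l => w' (Sum.inr l)) hq' ((β - D.m) / p)
    have h8 : ∀ l, D.b l = β / p ↔ D.cc (Sum.inl l) = β := by
      intro l
      unfold b
      rw [div_left_inj' hp0]
      rfl
    have h9 : ∀ l, D.b' l = (β - D.m) / p ↔ D.cc (Sum.inr l) = β := by
      intro l
      unfold b'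
      rw [div_left_inj' hp0, sub_left_inj]
      rfl
    simp only [h8] at h6
    simp only [h9] at h7
    rw [Finset.sum_filter] at h6 h7
    rw [h6, h7, add_zero]
  rcases mul_eq_zero.1 h5 with h6 | h6
  · exact h6
  · exact absurd h6 (mul_ne_zero hpm hd0)

end Tw

end Pool.Agent.H31.Frob
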