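import Pool.Agent.H31.Frob.OneClass

/-!
# Two residue classes: `p` nodes divisible by `p`, and `d` nodes congruent to the unit `m`

The roots `X_i` of `∏ (T - c_l) ∏ (T - c'_l) = v`, and the action of the Frobenius on them.
-/

set_option autoImplicit false

namespace Pool.Agent.H31.Frob

open Finset Polynomial

/-- the situation -/
structure Tw (Ω : Type) [NormedField Ω] [IsUltrametricDist Ω] (p d : ℕ) (ι ι' κ : Type) [Fintype ι]
    [Fintype ι'] [Fintype κ] where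
  hpn : ‖(p : Ω)‖ = (p : ℝ)⁻¹
  h3 : 3 ≤ p
  hd : 1 ≤ d
  hval : ∀ k, d ≤ k → padicValNat p k + d ≤ k
  cardι : Fintype.card ι = p
  cardι' : Fintype.card ι' = d
  cardκ : Fintype.card κ = p + d
  c : ι → Ω
  c' : ι' → Ω
  m : Ω
  v : Ω
  X : κ → Ω
  hc : ∀ l, ‖c l‖ ≤ (p : ℝ)⁻¹
  hcs : ‖∑ l, c l‖ ≤ (p : ℝ)⁻¹ ^ 2
  hc' : ∀ l, ‖c' l - m‖ ≤ (p : ℝ)⁻¹
  hcs' : ‖∑ l, (c' l - m)‖ ≤ (p : ℝ)⁻¹ ^ 2
  hm : ‖m‖ = 1
  hmp : ‖m ^ p - m‖ ≤ (p : ℝ)⁻¹
  hv : v ^ p = v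
  hv1 : ‖v‖ = 1
  inj : Function.Injective X
  fac : ∏ i, (Polynomial.X - C (X i)) =
    (∏ l, (Polynomial.X - C (c l))) * ∏ l, (Polynomial.X - C (c' l)) - C v

theorem norm_eq_one_of_prod {Ω α : Type} [NormedField Ω] (s : Finset α) (f : α → Ω)
    (h : ∀ a ∈ s, ‖f a‖ ≤ 1) (h1 : ‖∏ a ∈ s, f a‖ = 1) : ∀ a ∈ s, ‖f a‖ = 1 := by
  classical
  intro a ha
  refine le_antisymm (h a ha) ?_
  rw [← Finset.mul_prod_erase s _ ha, norm_mul, norm_prod] at h1
  rw [← h1]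
  refine mul_le_of_le_one_right (norm_nonneg _) ?_
  exact Finset.prod_le_one (fun _ _ => norm_nonneg _) fun l hl => h l (Finset.mem_of_mem_erase hl)

namespace Tw

variable {Ω : Type} [NormedField Ω] [IsUltrametricDist Ω] {p d : ℕ} [hp : Fact p.Prime]
  {ι ι' κ : Type} [Fintype ι] [Fintype ι'] [Fintype κ] (D : Tw Ω p d ι ι' κ)

theorem eval_fac (T : Ω) : ∏ i, (T - D.X i) = (∏ l, (T - D.c l)) * ∏ l, (T - D.c' l) - D.v := by
  have h := congrArg (Polynomial.eval T) D.fac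
  rw [eval_prod, eval_sub, eval_mul, eval_prod, eval_prod] at h
  simpa using h

theorem eqn (i : κ) : (∏ l, (D.X i - D.c l)) * ∏ l, (D.X i - D.c' l) = D.v := by
  have h := D.eval_fac (D.X i)
  have h0 : ∏ j, (D.X i - D.X j) = 0 := Finset.prod_eq_zero (Finset.mem_univ i) (sub_self _)
  rw [h0] at h
  linear_combination -h

include hp

theorem norm_c' (l : ι') : ‖D.c' l‖ = 1 := by
  have e : D.c' l = (D.c' l - D.m) + D.m := by ring
  rw [e, norm_add_eq_right (by rw [D.hm]; exact (D.hc' l).trans_lt Dat.invp_lt), D.hm]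

theorem norm_X_le (i : κ) : ‖D.X i‖ ≤ 1 := by
  by_contra h
  push Not at h
  have h1 : ∀ l, ‖D.X i - D.c' l‖ = ‖D.X i‖ := fun l =>
    norm_sub_eq_left (by rw [D.norm_c']; exact h)
  have h2 : ∀ l, ‖D.X i - D.c l‖ = ‖D.X i‖ := fun l =>
    norm_sub_eq_left (lt_of_le_of_lt ((D.hc l).trans Dat.invp_lt.le) h)
  have h3 := congrArg norm (D.eqn i)
  rw [norm_mul, norm_prod, norm_prod, D.hv1, Finset.prod_congr rfl fun l _ => h1 l,
    Finset.prod_congr rfl fun l _ => h2 l] at h3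
  rw [Finset.prod_const, Finset.prod_const, ← pow_add] at h3
  have h5 : 1 ≤ (univ : Finset ι').card := by rw [Finset.card_univ, D.cardι']; exact D.hd
  have h4 : 1 < ‖D.X i‖ ^ ((univ : Finset ι).card + (univ : Finset ι').card) :=
    one_lt_pow₀ h (by omega)
  rw [h3] at h4
  exact lt_irrefl _ h4

theorem norm_factors (i : κ) : (∀ l, ‖D.X i - D.c l‖ = 1) ∧ ∀ l, ‖D.X i - D.c' l‖ = 1 := by
  have h1 : ∀ l, ‖D.X i - D.c l‖ ≤ 1 := fun l =>
    norm_sub_le'' (D.norm_X_le i) ((D.hc l).trans Dat.invp_lt.le)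
  have h2 : ∀ l, ‖D.X i - D.c' l‖ ≤ 1 := fun l =>
    norm_sub_le'' (D.norm_X_le i) (D.norm_c' l).le
  have h3 : ‖∏ o : ι ⊕ ι', Sum.elim (fun l => D.X i - D.c l) (fun l => D.X i - D.c' l) o‖ = 1 := by
    rw [Fintype.prod_sum_type]
    simp only [Sum.elim_inl, Sum.elim_inr]
    rw [D.eqn, D.hv1]
  have h4 := norm_eq_one_of_prod univ _ (by
    intro o _
    rcases o with l | l
    · exact h1 l
    · exact h2 l) h3
  exact ⟨fun l => h4 (Sum.inl l) (Finset.mem_univ _), fun l => h4 (Sum.inr l) (Finset.mem_univ _)⟩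

include D in
theorem p_pos : 0 < p := hp.out.pos

theorem norm_X (i : κ) : ‖D.X i‖ = 1 := by
  have hne : Nonempty ι := by
    rw [← Fintype.card_pos_iff, D.cardι]
    exact hp.out.pos
  obtain ⟨l⟩ := hne
  have h1 := (D.norm_factors i).1 l
  have e : D.X i = D.c l + (D.X i - D.c l) := by ring
  rw [e, norm_add_eq_right (by rw [h1]; exact (D.hc l).trans_lt Dat.invp_lt), h1]

theorem norm_y (i : κ) : ‖D.X i - D.m‖ = 1 := by
  have hne : Nonempty ι' := by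
    rw [← Fintype.card_pos_iff, D.cardι']
    exact D.hd
  obtain ⟨l⟩ := hne
  have h1 := (D.norm_factors i).2 l
  have e : D.X i - D.m = (D.c' l - D.m) + (D.X i - D.c' l) := by ring
  rw [e, norm_add_eq_right (by rw [h1]; exact (D.hc' l).trans_lt Dat.invp_lt), h1]

theorem X_ne (i : κ) : D.X i ≠ 0 := by
  intro h
  have := D.norm_X i
  rw [h, norm_zero] at this
  exact zero_ne_one this

theorem y_ne (i : κ) : D.X i - D.m ≠ 0 := by
  intro h
  have := D.norm_y i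
  rw [h, norm_zero] at this
  exact zero_ne_one this

include D in
theorem norm_d : ‖(d : Ω)‖ = 1 := by
  refine norm_unit D.hpn ?_
  intro h
  have h1 := D.hval d le_rfl
  have h2 : padicValNat p d ≠ 0 := by
    intro h0
    rw [padicValNat.eq_zero_iff] at h0
    rcases h0 with h0 | h0 | h0
    · exact hp.out.one_lt.ne' h0
    · have := D.hd; omega
    · exact h0 h
  omega

/-! ### in the unit ball -/

/-- `c_l` -/
def cB (l : ι) : ball Ω := ⟨D.c l, (D.hc l).trans Dat.invp_lt.le⟩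

/-- `c'_l - m` -/
def cB' (l : ι') : ball Ω := ⟨D.c' l - D.m, (D.hc' l).trans Dat.invp_lt.le⟩

omit hp in
/-- `m` -/
def mB : ball Ω := ⟨D.m, D.hm.le⟩

omit hp in
/-- `v` -/
def vB : ball Ω := ⟨D.v, D.hv1.le⟩

/-- `X_i` -/
def XB (i : κ) : ball Ω := ⟨D.X i, D.norm_X_le i⟩

include D in
theorem pB_ne : (p : ball Ω) ≠ 0 := by
  intro h
  have h1 : ((p : ball Ω) : Ω) = 0 := by rw [h]; rfl
  have h2 : (p : Ω) = 0 := h1
  have h3 := D.hpn
  rw [h2, norm_zero] at h3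
  exact (Dat.invp_pos (p := p)).ne h3

include D in
theorem dvdp {x : ball Ω} : (p : ball Ω) ∣ x ↔ ‖(x : Ω)‖ ≤ (p : ℝ)⁻¹ := by
  rw [ball_dvd D.pB_ne]
  have h1 : ((p : ball Ω) : Ω) = (p : Ω) := rfl
  rw [h1, D.hpn]

include D in
theorem dvdpp {x : ball Ω} (k : ℕ) : (p : ball Ω) ^ k ∣ x ↔ ‖(x : Ω)‖ ≤ (p : ℝ)⁻¹ ^ k := by
  have h0 : (p : ball Ω) ^ k ≠ 0 := pow_ne_zero _ D.pB_ne
  rw [ball_dvd h0]
  have h1 : (((p : ball Ω) ^ k : ball Ω) : Ω) = (p : Ω) ^ k := rfl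
  rw [h1, norm_pow, D.hpn]

theorem p_dvd_c (l : ι) : (p : ball Ω) ∣ D.cB l := D.dvdp.2 (D.hc l)

theorem p_dvd_c' (l : ι') : (p : ball Ω) ∣ D.cB' l := D.dvdp.2 (D.hc' l)

theorem eqnB (i : κ) : (∏ l, (D.XB i - D.cB l)) * ∏ l, ((D.XB i - D.mB) - D.cB' l) = D.vB := by
  apply Subtype.ext
  have h := D.eqn i
  have e : ((∏ l, (D.XB i - D.cB l) : ball Ω) : Ω) = ∏ l, (D.X i - D.c l) := by
    rw [← Subring.subtype_apply, map_prod]
    rfl
  have e' : ((∏ l, ((D.XB i - D.mB) - D.cB' l) : ball Ω) : Ω) = ∏ l, (D.X i - D.c' l) := by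
    rw [← Subring.subtype_apply, map_prod]
    refine Finset.prod_congr rfl fun l _ => ?_
    show (D.X i - D.m) - (D.c' l - D.m) = D.X i - D.c' l
    ring
  show ((∏ l, (D.XB i - D.cB l) : ball Ω) : Ω) * ((∏ l, ((D.XB i - D.mB) - D.cB' l) : ball Ω) : Ω) = D.v
  rw [e, e']; exact h

theorem unit_X (i : κ) : IsUnit (D.XB i) := ball_isUnit (D.norm_X i)

theorem unit_y (i : κ) : IsUnit (D.XB i - D.mB) := ball_isUnit (D.norm_y i)

theorem prodB (T : ball Ω) (hT : IsUnit T) : (p : ball Ω) ^ 2 ∣ ∏ l, (T - D.cB l) - T ^ p := by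
  have h := prod_sub_sq' (p : ball Ω) D.cB D.p_dvd_c T hT Finset.univ (by
    rw [D.dvdpp]
    have e : ((∑ l, D.cB l : ball Ω) : Ω) = ∑ l, D.c l := by
      rw [← Subring.subtype_apply, map_sum]
      rfl
    rw [e]
    exact D.hcs)
  rwa [Finset.card_univ, D.cardι] at h

theorem prodB' (T : ball Ω) (hT : IsUnit T) : (p : ball Ω) ^ 2 ∣ ∏ l, (T - D.cB' l) - T ^ d := by
  have h := prod_sub_sq' (p : ball Ω) D.cB' D.p_dvd_c' T hT Finset.univ (by
    rw [D.dvdpp]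
    have e : ((∑ l, D.cB' l : ball Ω) : Ω) = ∑ l, (D.c' l - D.m) := by
      rw [← Subring.subtype_apply, map_sum]
      rfl
    rw [e]
    exact D.hcs')
  rwa [Finset.card_univ, D.cardι'] at h

/-- `X_i ^ p (X_i - m) ^ d ≡ v` modulo `p ^ 2` -/
theorem congr2 (i : κ) : (p : ball Ω) ^ 2 ∣ (D.XB i) ^ p * (D.XB i - D.mB) ^ d - D.vB := by
  obtain ⟨r, hr⟩ := D.prodB (D.XB i) (D.unit_X i)
  obtain ⟨r', hr'⟩ := D.prodB' (D.XB i - D.mB) (D.unit_y i)
  refine ⟨-(r * ∏ l, ((D.XB i - D.mB) - D.cB' l)) - (D.XB i) ^ p * r', ?_⟩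
  have h := D.eqnB i
  linear_combination h - (∏ l, ((D.XB i - D.mB) - D.cB' l)) * hr - (D.XB i) ^ p * hr'

theorem congr1 (i : κ) : (p : ball Ω) ∣ (D.XB i) ^ p * (D.XB i - D.mB) ^ d - D.vB :=
  (dvd_pow_self _ two_ne_zero).trans (D.congr2 i)

theorem vB_pow : D.vB ^ p = D.vB := Subtype.ext D.hv

/-- `q = (m ^ p - m) / p` -/
noncomputable def qB : ball Ω := Classical.choose (D.dvdp (x := D.mB ^ p - D.mB) |>.2 D.hmp)

theorem qB_spec : D.mB ^ p - D.mB = p * D.qB :=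
  Classical.choose_spec (D.dvdp (x := D.mB ^ p - D.mB) |>.2 D.hmp)

/-! ### separation -/

theorem sep {i j : κ} (hij : i ≠ j) : ‖D.X i - D.X j‖ = 1 := by
  refine le_antisymm (norm_sub_le'' (D.norm_X_le i) (D.norm_X_le j)) ?_
  by_contra h
  push Not at h
  obtain ⟨g, hg⟩ := prod_sub_poly (p : ball Ω) D.cB D.p_dvd_c Finset.univ
  obtain ⟨g', hg'⟩ := prod_sub_poly (p : ball Ω) D.cB' D.p_dvd_c' Finset.univ
  rw [Finset.card_univ, D.cardι] at hg
  rw [Finset.card_univ, D.cardι'] at hg'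
  obtain ⟨n, hn⟩ : ∃ n, d = n + 1 := ⟨d - 1, by have := D.hd; omega⟩
  set f : Polynomial (ball Ω) := (Polynomial.X ^ p + C (p : ball Ω) * g) *
    ((Polynomial.X ^ d + C (p : ball Ω) * g').comp (Polynomial.X - C D.mB)) - C D.vB with hf
  have hev : ∀ T : ball Ω, f.eval T = (∏ l, (T - D.cB l)) * (∏ l, ((T - D.mB) - D.cB' l)) - D.vB := by
    intro T
    rw [hf, eval_sub, eval_mul, eval_comp, ← hg, ← hg', eval_prod, eval_prod]
    simp
  have h0 : ∀ i, f.eval (D.XB i) = 0 := by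
    intro i
    rw [hev, D.eqnB, sub_self]
  obtain ⟨k, hk⟩ := Polynomial.binomExpansion f (D.XB j) (D.XB i - D.XB j)
  rw [add_sub_cancel, h0, h0, zero_add] at hk
  have hne : D.XB i - D.XB j ≠ 0 := by
    intro h1
    apply hij
    apply D.inj
    have h2 := congrArg (fun t : ball Ω => (t : Ω)) h1
    exact sub_eq_zero.1 h2
  have h3 : (D.XB i - D.XB j) * (f.derivative.eval (D.XB j) + k * (D.XB i - D.XB j)) = 0 := by
    linear_combination -hk
  have h4 : f.derivative.eval (D.XB j) = -(k * (D.XB i - D.XB j)) := by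
    rcases mul_eq_zero.1 h3 with h5 | h5
    · exact absurd h5 hne
    · linear_combination h5
  have h5 : ‖((f.derivative.eval (D.XB j) : ball Ω) : Ω)‖ < 1 := by
    rw [h4]
    have e : ((-(k * (D.XB i - D.XB j)) : ball Ω) : Ω) = -((k : Ω) * (D.X i - D.X j)) := rfl
    rw [e, norm_neg, norm_mul]
    exact lt_of_le_of_lt (mul_le_of_le_one_left (norm_nonneg _) (norm_coe_le k)) h
  -- the derivative
  have h6 : (p : ball Ω) ∣ f.derivative.eval (D.XB j) -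
      (d : ball Ω) * (D.XB j) ^ p * (D.XB j - D.mB) ^ (d - 1) := by
    rw [hf]
    simp only [derivative_sub, derivative_mul, derivative_add, derivative_X, derivative_C,
      derivative_X_pow, derivative_comp, sub_zero, one_mul, zero_mul, zero_add, eval_add, eval_mul,
      eval_sub, eval_pow, eval_X, eval_C, eval_comp, mul_one, eval_natCast]
    refine ⟨((D.XB j) ^ (p - 1) + (derivative g).eval (D.XB j)) *
      ((D.XB j - D.mB) ^ d + (p : ball Ω) * g'.eval (D.XB j - D.mB)) +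
      g.eval (D.XB j) * ((d : ball Ω) * (D.XB j - D.mB) ^ (d - 1) +
        (p : ball Ω) * (derivative g').eval (D.XB j - D.mB)) +
      (D.XB j) ^ p * (derivative g').eval (D.XB j - D.mB), ?_⟩
    ring
  rw [D.dvdp] at h6
  have e1 : ((f.derivative.eval (D.XB j) -
      (d : ball Ω) * (D.XB j) ^ p * (D.XB j - D.mB) ^ (d - 1) : ball Ω) : Ω) =
      ((f.derivative.eval (D.XB j) : ball Ω) : Ω) - (d : Ω) * (D.X j) ^ p * (D.X j - D.m) ^ (d - 1) := rfl
  rw [e1] at h6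
  have h8 : ‖(d : Ω) * (D.X j) ^ p * (D.X j - D.m) ^ (d - 1)‖ = 1 := by
    rw [norm_mul, norm_mul, norm_pow, norm_pow, D.norm_X, D.norm_y, D.norm_d, one_pow, one_pow]
    norm_num
  rw [norm_sub_eq_right (by rw [h8]; exact h5), h8] at h6
  exact absurd h6 (not_le.2 Dat.invp_lt)

end Tw

end Pool.Agent.H31.Frob
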