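import Pool.Agent.H31.Frob.TFrob

/-!
# Two residue classes: the Frobenius permutation of the roots
-/

set_option autoImplicit false

namespace Pool.Agent.H31.Frob

open Finset Polynomial

namespace Tw

variable {Ω : Type} [NormedField Ω] [IsUltrametricDist Ω] {p d : ℕ} [hp : Fact p.Prime]
  {ι ι' κ : Type} [Fintype ι] [Fintype ι'] [Fintype κ] (D : Tw Ω p d ι ι' κ)

include hp

theorem coe_V (a b : ball Ω) : ((V p a b : ball Ω) : Ω) = V p (a : Ω) (b : Ω) := by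
  unfold V
  rw [← Subring.subtype_apply, map_sum]
  refine Finset.sum_congr rfl fun k _ => ?_
  simp only [map_mul, map_pow, map_natCast]
  rfl

theorem norm_Z_sub (i : κ) : ‖(D.X i) ^ p - D.m‖ = 1 := by
  have h1 := y_pow D.mB D.qB (D.XB i) D.qB_spec
  have h2 : ((((D.XB i - D.mB) ^ p : ball Ω)) : Ω) = (D.X i - D.m) ^ p := rfl
  have h3 := congrArg (fun t : ball Ω => (t : Ω)) h1
  have h4 : (D.X i - D.m) ^ p = (D.X i) ^ p - D.m - (p : Ω) * ((D.qB + V p D.mB (D.XB i - D.mB) : ball Ω) : Ω) := h3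
  have h5 : (D.X i) ^ p - D.m = (p : Ω) * ((D.qB + V p D.mB (D.XB i - D.mB) : ball Ω) : Ω) +
      (D.X i - D.m) ^ p := by rw [h4]; ring
  have h6 : ‖(D.X i - D.m) ^ p‖ = 1 := by rw [norm_pow, D.norm_y, one_pow]
  rw [h5, norm_add_eq_right, h6]
  rw [h6, norm_mul, D.hpn]
  exact lt_of_le_of_lt (mul_le_of_le_one_right Dat.invp_pos.le (norm_coe_le _)) Dat.invp_lt

theorem exists_star (i : κ) : ∃ j, ‖(D.X i) ^ p - D.X j‖ ≤ (p : ℝ)⁻¹ := by
  classical
  have h1 := frob_value_two D.mB D.vB (D.XB i) D.qB d D.vB_pow D.qB_spec (D.congr1 i)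
  have h2 : (p : ball Ω) ∣ (∏ l, ((D.XB i) ^ p - D.cB l)) * (∏ l, (((D.XB i) ^ p - D.mB) - D.cB' l)) - D.vB := by
    obtain ⟨r, hr⟩ := D.prodB ((D.XB i) ^ p) ((D.unit_X i).pow p)
    obtain ⟨r', hr'⟩ := D.prodB' ((D.XB i) ^ p - D.mB) (ball_isUnit (D.norm_Z_sub i))
    obtain ⟨s, hs⟩ := h1
    refine ⟨s + p * r * (∏ l, (((D.XB i) ^ p - D.mB) - D.cB' l)) + ((D.XB i) ^ p) ^ p * (p * r'), ?_⟩
    linear_combination hs + (∏ l, (((D.XB i) ^ p - D.mB) - D.cB' l)) * hr + ((D.XB i) ^ p) ^ p * hr'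
  rw [D.dvdp] at h2
  have e : (((∏ l, ((D.XB i) ^ p - D.cB l)) * (∏ l, (((D.XB i) ^ p - D.mB) - D.cB' l)) - D.vB : ball Ω) : Ω) =
      (∏ l, ((D.X i) ^ p - D.c l)) * (∏ l, ((D.X i) ^ p - D.c' l)) - D.v := by
    have e1 : ((∏ l, ((D.XB i) ^ p - D.cB l) : ball Ω) : Ω) = ∏ l, ((D.X i) ^ p - D.c l) := by
      rw [← Subring.subtype_apply, map_prod]
      rfl
    have e2 : ((∏ l, (((D.XB i) ^ p - D.mB) - D.cB' l) : ball Ω) : Ω) = ∏ l, ((D.X i) ^ p - D.c' l) := by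
      rw [← Subring.subtype_apply, map_prod]
      refine Finset.prod_congr rfl fun l _ => ?_
      show ((D.X i) ^ p - D.m) - (D.c' l - D.m) = (D.X i) ^ p - D.c' l
      ring
    rw [← e1, ← e2]
    rfl
  rw [e, ← D.eval_fac, norm_prod] at h2
  have h3 : ∃ j, ‖(D.X i) ^ p - D.X j‖ < 1 := by
    by_contra hcon
    push Not at hcon
    have h4 : 1 ≤ ∏ j, ‖(D.X i) ^ p - D.X j‖ := by
      rw [← Finset.prod_const_one (s := (univ : Finset κ))]
      exact Finset.prod_le_prod (fun _ _ => zero_le_one) fun j _ => hcon j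
    exact absurd (h4.trans h2) (not_le.2 Dat.invp_lt)
  obtain ⟨j, hj⟩ := h3
  refine ⟨j, ?_⟩
  rw [← Finset.mul_prod_erase _ _ (Finset.mem_univ j)] at h2
  have h5 : ∏ j' ∈ univ.erase j, ‖(D.X i) ^ p - D.X j'‖ = 1 := by
    apply Finset.prod_eq_one
    intro j' hj'
    have hne : j ≠ j' := (Finset.ne_of_mem_erase hj').symm
    have h6 : (D.X i) ^ p - D.X j' = ((D.X i) ^ p - D.X j) + (D.X j - D.X j') := by ring
    rw [h6, norm_add_eq_right (by rw [D.sep hne]; exact hj), D.sep hne]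
  rw [h5, mul_one] at h2
  exact h2

/-- the Frobenius permutation -/
noncomputable def star (i : κ) : κ := Classical.choose (D.exists_star i)

theorem star_spec (i : κ) : ‖(D.X i) ^ p - D.X (D.star i)‖ ≤ (p : ℝ)⁻¹ :=
  Classical.choose_spec (D.exists_star i)

theorem star_inj : Function.Injective D.star := by
  intro i j hij
  by_contra hne
  have h1 := D.star_spec i
  have h2 := D.star_spec j
  rw [hij] at h1
  have h3 : ‖(D.X i) ^ p - (D.X j) ^ p‖ ≤ (p : ℝ)⁻¹ := by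
    have e : (D.X i) ^ p - (D.X j) ^ p = ((D.X i) ^ p - D.X (D.star j)) - ((D.X j) ^ p - D.X (D.star j)) := by
      ring
    rw [e]
    exact norm_sub_le'' h1 h2
  -- `(X_i - X_j) ^ p ≡ X_i ^ p - X_j ^ p`
  have h4 := V_spec (p := p) (D.X j) (D.X i - D.X j)
  have h5 : D.X j + (D.X i - D.X j) = D.X i := by ring
  rw [h5] at h4
  have h6 : ‖(p : Ω) * V p (D.X j) (D.X i - D.X j)‖ ≤ (p : ℝ)⁻¹ := by
    rw [norm_mul, D.hpn]
    refine mul_le_of_le_one_right Dat.invp_pos.le ?_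
    unfold V
    refine norm_sum_le' _ _ _ zero_le_one fun k _ => ?_
    rw [norm_mul, norm_mul, norm_pow, norm_pow, D.norm_X, one_pow, mul_one]
    refine mul_le_one₀ (IsUltrametricDist.norm_natCast_le_one Ω _) (by positivity) ?_
    exact pow_le_one₀ (norm_nonneg _) (norm_sub_le'' (D.norm_X_le i) (D.norm_X_le j))
  have h7 : (D.X i - D.X j) ^ p = ((D.X i) ^ p - (D.X j) ^ p) - (p : Ω) * V p (D.X j) (D.X i - D.X j) := by
    rw [h4]; ring
  have h8 : ‖(D.X i - D.X j) ^ p‖ ≤ (p : ℝ)⁻¹ := by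
    rw [h7]; exact norm_sub_le'' h3 h6
  rw [norm_pow, D.sep hne, one_pow] at h8
  exact absurd h8 (not_le.2 Dat.invp_lt)

theorem star_surj : Function.Surjective D.star := Finite.surjective_of_injective D.star_inj

/-- `q` -/
noncomputable def q : Ω := (D.qB : Ω)

theorem norm_q : ‖D.q‖ ≤ 1 := norm_coe_le _

/-- the coefficients of the Frobenius correction -/
noncomputable def al (r : ℕ) : Ω :=
  ((p.choose (d * r % p) / p : ℕ) : Ω) * D.m ^ (p - d * r % p) * D.v ^ r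

/-- the Frobenius correction -/
noncomputable def lam (Y W : Ω) : Ω :=
  Y * (D.q + ∑ r ∈ Finset.Ico 1 p, D.al r * Y ^ r * W ^ (d * r / p))

include D in
theorem not_dvd_d : ¬ p ∣ d := by
  intro h
  have h1 := D.hval d le_rfl
  have h2 : padicValNat p d ≠ 0 := by
    intro h0
    rw [padicValNat.eq_zero_iff] at h0
    rcases h0 with h0 | h0 | h0
    · exact hp.out.one_lt.ne' h0
    · have := D.hd; omega
    · exact h0 h
  omega

/-- **the Frobenius congruence for the roots** -/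
theorem frob_root (i : κ) : ‖(D.X i) ^ p * (D.X (D.star i))⁻¹ - 1 -
    (p : Ω) * D.lam (D.X (D.star i))⁻¹ (D.X (D.star i) - D.m)⁻¹‖ ≤ (p : ℝ)⁻¹ ^ 2 := by
  have hY0 : ‖(D.X (D.star i))⁻¹‖ ≤ 1 := by rw [norm_inv, D.norm_X, inv_one]
  have hW0 : ‖(D.X (D.star i) - D.m)⁻¹‖ ≤ 1 := by rw [norm_inv, D.norm_y, inv_one]
  set Y : ball Ω := ⟨(D.X (D.star i))⁻¹, hY0⟩ with hY
  set W : ball Ω := ⟨(D.X (D.star i) - D.m)⁻¹, hW0⟩ with hW
  set x := D.XB i with hx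
  set x' := D.XB (D.star i) with hx'
  have hXY : x' * Y = 1 := Subtype.ext (mul_inv_cancel₀ (D.X_ne _))
  have hXW : (x' - D.mB) * W = 1 := Subtype.ext (mul_inv_cancel₀ (D.y_ne _))
  obtain ⟨δ, hδ⟩ := D.dvdp.2 (show ‖((x ^ p - x' : ball Ω) : Ω)‖ ≤ (p : ℝ)⁻¹ from D.star_spec i)
  -- the correction
  have h1 := frob_two D.mB D.vB x x' D.qB δ d D.hd D.vB_pow D.qB_spec (D.congr1 i) (D.congr2 _) hδ
  rw [D.dvdpp] at h1
  have e1 : ((((d : ball Ω) * ((p : ball Ω) * (D.qB + V p D.mB (x - D.mB) - δ)) * (x ^ p) ^ p *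
      ((x - D.mB) ^ p) ^ (d - 1) : ball Ω)) : Ω) =
      (d : Ω) * ((p : Ω) * ((D.qB + V p D.mB (x - D.mB) - δ : ball Ω) : Ω)) * ((D.X i) ^ p) ^ p *
      ((D.X i - D.m) ^ p) ^ (d - 1) := rfl
  rw [e1] at h1
  rw [norm_mul, norm_mul, norm_mul, norm_mul, norm_pow, norm_pow, norm_pow, norm_pow, D.norm_d,
    D.norm_X, D.norm_y, D.hpn, one_pow, one_pow, one_pow, one_mul, mul_one, mul_one, pow_two] at h1
  have h2 := le_of_mul_le_mul_left h1 Dat.invp_pos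
  rw [← D.dvdp] at h2
  -- the sum
  have h3 : (p : ball Ω) ∣ V p D.mB (x - D.mB) - ∑ r ∈ Finset.Ico 1 p,
      ((p.choose (d * r % p) / p : ℕ) : ball Ω) * D.mB ^ (p - d * r % p) *
        (D.vB ^ r * Y ^ r * W ^ (d * r / p)) := by
    have e2 : V p D.mB (x - D.mB) = ∑ r ∈ Finset.Ico 1 p,
        ((p.choose (d * r % p) / p : ℕ) : ball Ω) * D.mB ^ (p - d * r % p) * (x - D.mB) ^ (d * r % p) := by
      unfold V
      exact sum_reindex D.not_dvd_d
        (fun k => ((p.choose k / p : ℕ) : ball Ω) * D.mB ^ (p - k) * (x - D.mB) ^ k)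
    rw [e2, ← Finset.sum_sub_distrib]
    refine Finset.dvd_sum fun r _ => ?_
    rw [← mul_sub]
    refine Dvd.dvd.mul_left ?_ _
    exact y_pow_k D.mB D.vB x x' D.qB Y W d D.qB_spec (D.congr1 i) ⟨δ, hδ⟩ hXY hXW r
  have h4 : (p : ball Ω) ^ 2 ∣ x ^ p * Y - 1 - p * (Y * (D.qB + ∑ r ∈ Finset.Ico 1 p,
      ((p.choose (d * r % p) / p : ℕ) : ball Ω) * D.mB ^ (p - d * r % p) *
        (D.vB ^ r * Y ^ r * W ^ (d * r / p)))) := by
    obtain ⟨a, ha⟩ := h2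
    obtain ⟨b, hb⟩ := h3
    refine ⟨Y * (b - a), ?_⟩
    linear_combination Y * hδ + hXY - p * Y * ha + p * Y * hb
  rw [D.dvdpp] at h4
  have e3 : ((∑ r ∈ Finset.Ico 1 p,
      ((p.choose (d * r % p) / p : ℕ) : ball Ω) * D.mB ^ (p - d * r % p) *
        (D.vB ^ r * Y ^ r * W ^ (d * r / p)) : ball Ω) : Ω) =
      ∑ r ∈ Finset.Ico 1 p, D.al r * ((D.X (D.star i))⁻¹) ^ r *
        ((D.X (D.star i) - D.m)⁻¹) ^ (d * r / p) := by
    rw [← Subring.subtype_apply, map_sum]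
    refine Finset.sum_congr rfl fun r _ => ?_
    simp only [map_mul, map_pow, map_natCast]
    show ((p.choose (d * r % p) / p : ℕ) : Ω) * D.m ^ (p - d * r % p) *
      (D.v ^ r * ((D.X (D.star i))⁻¹) ^ r * ((D.X (D.star i) - D.m)⁻¹) ^ (d * r / p)) = _
    unfold al
    ring
  have e4 : ((x ^ p * Y - 1 - p * (Y * (D.qB + ∑ r ∈ Finset.Ico 1 p,
      ((p.choose (d * r % p) / p : ℕ) : ball Ω) * D.mB ^ (p - d * r % p) *
        (D.vB ^ r * Y ^ r * W ^ (d * r / p)))) : ball Ω) : Ω) =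
      (D.X i) ^ p * (D.X (D.star i))⁻¹ - 1 -
    (p : Ω) * D.lam (D.X (D.star i))⁻¹ (D.X (D.star i) - D.m)⁻¹ := by
    unfold lam
    rw [← e3]
    rfl
  rw [e4] at h4
  exact h4

end Tw

end Pool.Agent.H31.Frob
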