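import Pool.Agent.H31.Frob.TMain

/-!
# Two residue classes: the main step
-/

set_option autoImplicit false

namespace Pool.Agent.H31.Frob

open Finset Filter Topology Polynomial

namespace Tw

variable {Ω : Type} [NormedField Ω] [IsUltrametricDist Ω] {p d : ℕ} [hp : Fact p.Prime]
  {ι ι' κ : Type} [Fintype ι] [Fintype ι'] [Fintype κ] (D : Tw Ω p d ι ι' κ) (w : ι → Ω)
  (w' : ι' → Ω)

include hp

theorem sep_y {i j : κ} (hij : i ≠ j) : ‖(D.X i - D.m) - (D.X j - D.m)‖ = 1 := by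
  rw [sub_sub_sub_cancel_right]
  exact D.sep hij

section polys

variable (t t' : ℕ → Ω) (s : Ω)

/-- the function `∑ t_k Y ^ k + ∑ t'_k W ^ k - s p Λ` multiplied by `x ^ p y ^ (d - 1)` -/
noncomputable def P0 : Polynomial Ω :=
  (∑ k ∈ Finset.Ico 1 p, C (t k) * Polynomial.X ^ (p - k)) * (Polynomial.X - C D.m) ^ (d - 1) +
  Polynomial.X ^ p * ∑ k ∈ Finset.Ico 1 d, C (t' k) * (Polynomial.X - C D.m) ^ (d - 1 - k)

/-- `x ^ p y ^ (d - 1) Λ` -/
noncomputable def P3 : Polynomial Ω :=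
  C D.q * Polynomial.X ^ (p - 1) * (Polynomial.X - C D.m) ^ (d - 1) +
  ∑ r ∈ Finset.Ico 1 p, C (D.al r) * Polynomial.X ^ (p - 1 - r) *
    (Polynomial.X - C D.m) ^ (d - 1 - d * r / p)

/-- the same in the variable `y` -/
noncomputable def P0' : Polynomial Ω :=
  (∑ k ∈ Finset.Ico 1 d, C (t' k) * Polynomial.X ^ (d - 1 - k)) * (Polynomial.X + C D.m) ^ p +
  Polynomial.X ^ (d - 1) * ∑ k ∈ Finset.Ico 1 p, C (t k) * (Polynomial.X + C D.m) ^ (p - k)

omit hp in
theorem pow_inv {x : Ω} (hx : x ≠ 0) {n k : ℕ} (hk : k ≤ n) : x ^ (n - k) = x ^ n * (x⁻¹) ^ k := by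
  rw [inv_pow, pow_sub₀ x hx hk]

theorem P0_eval (i : κ) : (D.P0 t t').eval (D.X i) = (D.X i) ^ p * (D.X i - D.m) ^ (d - 1) *
    (∑ k ∈ Finset.Ico 1 p, t k * D.Y i ^ k + ∑ k ∈ Finset.Ico 1 d, t' k * D.W i ^ k) := by
  unfold P0 Y W
  simp only [eval_add, eval_mul, eval_finset_sum, eval_pow, eval_X, eval_C, eval_sub]
  rw [mul_add, Finset.mul_sum, Finset.mul_sum, Finset.sum_mul, Finset.mul_sum]
  congr 1
  · refine Finset.sum_congr rfl fun k hk => ?_
    rw [Finset.mem_Ico] at hk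
    rw [pow_inv (D.X_ne i) hk.2.le]
    ring
  · refine Finset.sum_congr rfl fun k hk => ?_
    rw [Finset.mem_Ico] at hk
    rw [pow_inv (D.y_ne i) (by omega)]
    ring

theorem P0'_eval (i : κ) : (D.P0' t t').eval (D.X i - D.m) = (D.X i) ^ p * (D.X i - D.m) ^ (d - 1) *
    (∑ k ∈ Finset.Ico 1 p, t k * D.Y i ^ k + ∑ k ∈ Finset.Ico 1 d, t' k * D.W i ^ k) := by
  unfold P0' Y W
  simp only [eval_add, eval_mul, eval_finset_sum, eval_pow, eval_X, eval_C, sub_add_cancel]
  rw [mul_add, Finset.mul_sum, Finset.mul_sum, Finset.sum_mul, Finset.mul_sum, add_comm]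
  congr 1
  · refine Finset.sum_congr rfl fun k hk => ?_
    rw [Finset.mem_Ico] at hk
    rw [pow_inv (D.X_ne i) hk.2.le]
    ring
  · refine Finset.sum_congr rfl fun k hk => ?_
    rw [Finset.mem_Ico] at hk
    rw [pow_inv (D.y_ne i) (by omega)]
    ring

theorem er_le {r : ℕ} (hr : r < p) (hd : 1 ≤ d) : d * r / p ≤ d - 1 := by
  have h1 : d * r / p < d := by
    rw [Nat.div_lt_iff_lt_mul hp.out.pos]
    exact Nat.mul_lt_mul_of_pos_left hr hd
  omega

theorem P3_eval (i : κ) : D.P3.eval (D.X i) = (D.X i) ^ p * (D.X i - D.m) ^ (d - 1) *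
    D.lam (D.Y i) (D.W i) := by
  have hp1 := hp.out.one_lt
  unfold P3 lam Y W
  simp only [eval_add, eval_mul, eval_finset_sum, eval_pow, eval_X, eval_C, eval_sub]
  rw [mul_add, mul_add, Finset.mul_sum, Finset.mul_sum]
  congr 1
  · rw [pow_inv (D.X_ne i) hp1.le, pow_one]
    ring
  · refine Finset.sum_congr rfl fun r hr => ?_
    rw [Finset.mem_Ico] at hr
    have e1 : p - 1 - r = p - (r + 1) := by omega
    rw [e1, pow_inv (D.X_ne i) (by omega), pow_inv (D.y_ne i) (er_le hr.2 D.hd)]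
    ring

theorem P0_deg : (D.P0 t t').degree < (p + d : ℕ) := by
  have hd := D.hd
  have hp1 := hp.out.one_lt
  unfold P0
  refine lt_of_le_of_lt (degree_add_le _ _) (max_lt ?_ ?_)
  · rw [Finset.sum_mul]
    refine lt_of_le_of_lt (degree_sum_le _ _) ?_
    rw [Finset.sup_lt_iff (by exact WithBot.bot_lt_coe _)]
    intro k hk
    rw [Finset.mem_Ico] at hk
    refine lt_of_le_of_lt (degree_mul_le _ _) ?_
    refine lt_of_le_of_lt (add_le_add (degree_C_mul_X_pow_le _ _)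
      ((degree_pow_le _ _).trans (nsmul_le_nsmul_right (degree_X_sub_C_le _) _))) ?_
    rw [nsmul_one]
    exact_mod_cast (by omega : p - k + (d - 1) < p + d)
  · rw [Finset.mul_sum]
    refine lt_of_le_of_lt (degree_sum_le _ _) ?_
    rw [Finset.sup_lt_iff (by exact WithBot.bot_lt_coe _)]
    intro k hk
    rw [Finset.mem_Ico] at hk
    refine lt_of_le_of_lt (degree_mul_le _ _) ?_
    refine lt_of_le_of_lt (add_le_add (degree_X_pow_le _) (degree_mul_le _ _)) ?_
    refine lt_of_le_of_lt (add_le_add le_rfl (add_le_add degree_C_le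
      ((degree_pow_le _ _).trans (nsmul_le_nsmul_right (degree_X_sub_C_le _) _)))) ?_
    rw [nsmul_one, zero_add]
    exact_mod_cast (by omega : p + (d - 1 - k) < p + d)

theorem P0'_deg : (D.P0' t t').degree < (p + d : ℕ) := by
  have hd := D.hd
  have hp1 := hp.out.one_lt
  have hX : (Polynomial.X + C D.m : Polynomial Ω).degree ≤ 1 := (degree_X_add_C _).le
  unfold P0'
  refine lt_of_le_of_lt (degree_add_le _ _) (max_lt ?_ ?_)
  · rw [Finset.sum_mul]
    refine lt_of_le_of_lt (degree_sum_le _ _) ?_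
    rw [Finset.sup_lt_iff (by exact WithBot.bot_lt_coe _)]
    intro k hk
    rw [Finset.mem_Ico] at hk
    refine lt_of_le_of_lt (degree_mul_le _ _) ?_
    refine lt_of_le_of_lt (add_le_add (degree_C_mul_X_pow_le _ _)
      ((degree_pow_le _ _).trans (nsmul_le_nsmul_right hX _))) ?_
    rw [nsmul_one]
    exact_mod_cast (by omega : d - 1 - k + p < p + d)
  · rw [Finset.mul_sum]
    refine lt_of_le_of_lt (degree_sum_le _ _) ?_
    rw [Finset.sup_lt_iff (by exact WithBot.bot_lt_coe _)]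
    intro k hk
    rw [Finset.mem_Ico] at hk
    refine lt_of_le_of_lt (degree_mul_le _ _) ?_
    refine lt_of_le_of_lt (add_le_add (degree_X_pow_le _) (degree_mul_le _ _)) ?_
    refine lt_of_le_of_lt (add_le_add le_rfl (add_le_add degree_C_le
      ((degree_pow_le _ _).trans (nsmul_le_nsmul_right hX _)))) ?_
    rw [nsmul_one, zero_add]
    exact_mod_cast (by omega : d - 1 + (p - k) < p + d)

theorem P3_deg : D.P3.degree < (p + d : ℕ) := by
  have hd := D.hd
  have hp1 := hp.out.one_lt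
  unfold P3
  refine lt_of_le_of_lt (degree_add_le _ _) (max_lt ?_ ?_)
  · refine lt_of_le_of_lt (degree_mul_le _ _) ?_
    refine lt_of_le_of_lt (add_le_add (degree_C_mul_X_pow_le _ _)
      ((degree_pow_le _ _).trans (nsmul_le_nsmul_right (degree_X_sub_C_le _) _))) ?_
    rw [nsmul_one]
    exact_mod_cast (by omega : p - 1 + (d - 1) < p + d)
  · refine lt_of_le_of_lt (degree_sum_le _ _) ?_
    rw [Finset.sup_lt_iff (by exact WithBot.bot_lt_coe _)]
    intro k hk
    rw [Finset.mem_Ico] at hk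
    refine lt_of_le_of_lt (degree_mul_le _ _) ?_
    refine lt_of_le_of_lt (add_le_add (degree_C_mul_X_pow_le _ _)
      ((degree_pow_le _ _).trans (nsmul_le_nsmul_right (degree_X_sub_C_le _) _))) ?_
    rw [nsmul_one]
    generalize d * k / p = z
    exact_mod_cast (by omega : p - 1 - k + (d - 1 - z) < p + d)

/-- the value of `P_3` at `0` -/
theorem P3_zero : ‖D.P3.eval 0‖ = 1 := by
  have hd := D.hd
  have h3 := D.h3
  unfold P3
  simp only [eval_add, eval_mul, eval_finset_sum, eval_pow, eval_X, eval_C, eval_sub, zero_sub]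
  rw [zero_pow (by omega : p - 1 ≠ 0), mul_zero, zero_mul, zero_add]
  rw [Finset.sum_eq_single (p - 1)]
  · rw [Nat.sub_self, pow_zero, mul_one, norm_mul, norm_pow, norm_neg, D.hm, one_pow, mul_one,
      D.norm_al (by omega) (by omega)]
  · intro r hr hne
    rw [Finset.mem_Ico] at hr
    rw [zero_pow (by omega : p - 1 - r ≠ 0), mul_zero, zero_mul]
  · intro h
    exact absurd (Finset.mem_Ico.2 ⟨by omega, by omega⟩) h

theorem P0_zero : (D.P0 t t').eval 0 = 0 := by
  have h3 := D.h3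
  unfold P0
  simp only [eval_add, eval_mul, eval_finset_sum, eval_pow, eval_X, eval_C, eval_sub, zero_sub]
  rw [zero_pow (by omega : p ≠ 0), zero_mul, add_zero]
  rw [Finset.sum_eq_zero, zero_mul]
  intro k hk
  rw [Finset.mem_Ico] at hk
  rw [zero_pow (by omega : p - k ≠ 0), mul_zero]

end polys

/-- the main step -/
theorem step (h0' : Q D.b' w' 0 = 0) (hrel : D.Rel1 w w') {N : ℝ} (hN : ∀ k < p, D.e w k ≤ N)
    (hN' : ∀ k, 1 ≤ k → k < d → D.f w' k ≤ N) {j : ℕ} (hj : 1 ≤ j) (hdj : d ≤ p ^ j) :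
    (∀ k < p, D.e w k ≤ max ((p : ℝ)⁻¹ * N) ((p : ℝ)⁻¹ ^ j)) ∧
    ∀ k, 1 ≤ k → k < d → D.f w' k ≤ max ((p : ℝ)⁻¹ * N) ((p : ℝ)⁻¹ ^ j) := by
  have h3 := D.h3
  have hd := D.hd
  set B := max ((p : ℝ)⁻¹ * N) ((p : ℝ)⁻¹ ^ j) with hB
  have hB0 : 0 ≤ B := le_max_of_le_right (pow_nonneg Dat.invp_pos.le _)
  have hPN : (p : ℝ)⁻¹ * N ≤ B := le_max_left _ _
  have hN0 := D.N_nonneg w hN
  have hPN0 : 0 ≤ (p : ℝ)⁻¹ * N := mul_nonneg Dat.invp_pos.le hN0
  have hpj : p ≤ p ^ j := Nat.le_self_pow (by omega) p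
  set s := ∑ l, w l with hs
  have hs0 : Q D.b w 0 = s := by unfold Q; simp [hs]
  have he0 : D.e w 0 = (p : ℝ)⁻¹ * ‖s‖ := by rw [D.e_zero, hs0]
  have hsB : ‖s‖ * (p : ℝ)⁻¹ ^ 2 ≤ B := by
    have h1 := hN 0 hp.out.pos
    rw [he0] at h1
    calc ‖s‖ * (p : ℝ)⁻¹ ^ 2 = (p : ℝ)⁻¹ * ((p : ℝ)⁻¹ * ‖s‖) := by ring
      _ ≤ (p : ℝ)⁻¹ * N := mul_le_mul_of_nonneg_left h1 Dat.invp_pos.le
      _ ≤ B := hPN
  set t : ℕ → Ω := TT p D.b w j with ht
  set t' : ℕ → Ω := TT p D.b' w' j with ht'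
  -- the values
  have hval : ∀ i, ‖(∑ k ∈ Finset.Ico 1 p, t k * D.Y i ^ k + ∑ k ∈ Finset.Ico 1 d, t' k * D.W i ^ k) -
      s * p * D.lam (D.Y i) (D.W i)‖ ≤ B := by
    intro i
    obtain ⟨i, rfl⟩ := D.star_surj i
    have h1 := hrel j hj i
    have h2 := PG_tail (p := p) D.b w j p (by omega) hpj hPN0 (fun k hk => D.T_tail w hN hk)
      (D.norm_Y (D.star i)).le
    have h2' := PG_tail (p := p) D.b' w' j d hd hdj hPN0
      (fun k hk => D.T'_tail w w' hN hN' h0' hk) (D.norm_W (D.star i)).le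
    have h4 := D.rho_approx i
    have h5 := L_approx D.hpn h3 j (D.rho i) (D.rho_sub_one i)
    have h6 := PG_le (p := p) D.b w j hN0 (fun k hk => D.T_le w hN hj hk) (D.norm_Y i).le
    have h6' := PG_le (p := p) D.b' w' j hN0 (fun k hk => D.T'_le w w' hN hN' h0' hdj hk) (D.norm_W i).le
    have e1 : (∑ k ∈ Finset.Ico 1 p, t k * D.Y (D.star i) ^ k +
          ∑ k ∈ Finset.Ico 1 d, t' k * D.W (D.star i) ^ k) -
        s * p * D.lam (D.Y (D.star i)) (D.W (D.star i)) =
        -((s * L p j (D.rho i) + (p : Ω) * (PG p D.b w j (D.Y i) + PG p D.b' w' j (D.W i)) -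
          (PG p D.b w j (D.Y (D.star i)) + PG p D.b' w' j (D.W (D.star i)))) +
        ((PG p D.b w j (D.Y (D.star i)) - ∑ k ∈ Finset.Ico 1 p, t k * D.Y (D.star i) ^ k) +
          (PG p D.b' w' j (D.W (D.star i)) - ∑ k ∈ Finset.Ico 1 d, t' k * D.W (D.star i) ^ k))) +
        (s * (L p j (D.rho i) - (D.rho i - 1)) +
          s * (D.rho i - 1 - (p : Ω) * D.lam (D.Y (D.star i)) (D.W (D.star i)))) +
        (p : Ω) * (PG p D.b w j (D.Y i) + PG p D.b' w' j (D.W i)) := by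
      ring
    rw [e1]
    refine norm_add_le' (norm_add_le' ?_ (norm_add_le' ?_ ?_)) ?_
    · rw [norm_neg]
      refine norm_add_le' (h1.trans (le_max_right _ _)) (norm_add_le' (h2.trans hPN) (h2'.trans hPN))
    · rw [norm_mul]
      exact (mul_le_mul_of_nonneg_left h5 (norm_nonneg _)).trans hsB
    · rw [norm_mul]
      exact (mul_le_mul_of_nonneg_left h4 (norm_nonneg _)).trans hsB
    · rw [norm_mul, D.hpn]
      exact (mul_le_mul_of_nonneg_left (norm_add_le' h6 h6') Dat.invp_pos.le).trans hPN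
  have hunit : ∀ i, ‖(D.X i) ^ p * (D.X i - D.m) ^ (d - 1)‖ = 1 := by
    intro i
    rw [norm_mul, norm_pow, norm_pow, D.norm_X, D.norm_y, one_pow, one_pow, mul_one]
  -- first the sum of the exponents
  have hP : ∀ i, ‖(D.P0 t t' - C (s * p) * D.P3).eval (D.X i)‖ ≤ B := by
    intro i
    rw [eval_sub, eval_mul, eval_C, D.P0_eval, D.P3_eval]
    have e2 : (D.X i) ^ p * (D.X i - D.m) ^ (d - 1) *
        (∑ k ∈ Finset.Ico 1 p, t k * D.Y i ^ k + ∑ k ∈ Finset.Ico 1 d, t' k * D.W i ^ k) -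
        s * p * ((D.X i) ^ p * (D.X i - D.m) ^ (d - 1) * D.lam (D.Y i) (D.W i)) =
        ((D.X i) ^ p * (D.X i - D.m) ^ (d - 1)) *
        ((∑ k ∈ Finset.Ico 1 p, t k * D.Y i ^ k + ∑ k ∈ Finset.Ico 1 d, t' k * D.W i ^ k) -
          s * p * D.lam (D.Y i) (D.W i)) := by ring
    rw [e2, norm_mul, hunit, one_mul]
    exact hval i
  have hdeg1 : (D.P0 t t' - C (s * p) * D.P3).degree < (p + d : ℕ) := by
    refine lt_of_le_of_lt (degree_sub_le _ _) (max_lt (D.P0_deg t t') ?_)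
    refine lt_of_le_of_lt (degree_mul_le _ _) ?_
    refine lt_of_le_of_lt (add_le_add degree_C_le le_rfl) ?_
    rw [zero_add]
    exact D.P3_deg
  have hs1 : (p : ℝ)⁻¹ * ‖s‖ ≤ B := by
    have h1 := interp D.X (fun i => D.norm_X_le i) (fun i j hij => D.sep hij) _
      (by rw [D.cardκ]; exact hdeg1) B hB0 hP 0
    rw [coeff_zero_eq_eval_zero, eval_sub, eval_mul, eval_C, D.P0_zero, zero_sub, norm_neg, norm_mul,
      D.P3_zero, mul_one, norm_mul, D.hpn, mul_comm] at h1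
    exact h1
  -- the values without the Frobenius correction
  have hval2 : ∀ i, ‖(D.X i) ^ p * (D.X i - D.m) ^ (d - 1) * (∑ k ∈ Finset.Ico 1 p, t k * D.Y i ^ k +
      ∑ k ∈ Finset.Ico 1 d, t' k * D.W i ^ k)‖ ≤ B := by
    intro i
    rw [norm_mul, hunit, one_mul]
    have e2 : ∑ k ∈ Finset.Ico 1 p, t k * D.Y i ^ k + ∑ k ∈ Finset.Ico 1 d, t' k * D.W i ^ k =
        ((∑ k ∈ Finset.Ico 1 p, t k * D.Y i ^ k + ∑ k ∈ Finset.Ico 1 d, t' k * D.W i ^ k) -
          s * p * D.lam (D.Y i) (D.W i)) + s * p * D.lam (D.Y i) (D.W i) := by ring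
    rw [e2]
    refine norm_add_le' (hval i) ?_
    rw [norm_mul, norm_mul, D.hpn, mul_comm ‖s‖]
    exact (mul_le_of_le_one_right (mul_nonneg Dat.invp_pos.le (norm_nonneg _))
      (D.norm_lam_le (D.norm_Y i).le (D.norm_W i).le)).trans hs1
  -- first class
  have hc1 : ∀ k, 1 ≤ k → k < p → ‖t k‖ ≤ B := by
    intro k hk hkp
    have h1 := interp D.X (fun i => D.norm_X_le i) (fun i j hij => D.sep hij) (D.P0 t t')
      (by rw [D.cardκ]; exact D.P0_deg t t') B hB0 (fun i => by rw [D.P0_eval]; exact hval2 i)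
    have h2 := extract p (∑ k ∈ Finset.Ico 1 p, C (t k) * Polynomial.X ^ (p - k))
      ((Polynomial.X - C D.m) ^ (d - 1))
      (∑ k ∈ Finset.Ico 1 d, C (t' k) * (Polynomial.X - C D.m) ^ (d - 1 - k))
      ((IntP.X_sub_C D.hm.le).pow _) (by
        rw [coeff_zero_eq_eval_zero, eval_pow, eval_sub, eval_X, eval_C, zero_sub, norm_pow, norm_neg,
          D.hm, one_pow]) B hB0 (fun i _ => h1 i) (p - k) (by omega)
    rwa [coeff_sum_mono (by omega) t hk hkp] at h2
  -- second class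
  have hc2 : ∀ k, 1 ≤ k → k < d → ‖t' k‖ ≤ B := by
    intro k hk hkd
    have h1 := interp (fun i => D.X i - D.m) (fun i => (D.norm_y i).le) (fun i j hij => D.sep_y hij)
      (D.P0' t t') (by rw [D.cardκ]; exact D.P0'_deg t t') B hB0
      (fun i => by rw [D.P0'_eval]; exact hval2 i)
    have h2 := extract (d - 1) (∑ k ∈ Finset.Ico 1 d, C (t' k) * Polynomial.X ^ (d - 1 - k))
      ((Polynomial.X + C D.m) ^ p)
      (∑ k ∈ Finset.Ico 1 p, C (t k) * (Polynomial.X + C D.m) ^ (p - k))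
      ((IntP.X_add_C D.hm.le).pow _) (by
        rw [coeff_zero_eq_eval_zero, eval_pow, eval_add, eval_X, eval_C, zero_add, norm_pow,
          D.hm, one_pow]) B hB0 (fun i _ => h1 i) (d - 1 - k) (by omega)
    rwa [coeff_sum_mono (by omega) t' hk hkd] at h2
  constructor
  · intro k hk
    rcases Nat.eq_zero_or_pos k with h0 | h0
    · rw [h0, he0]; exact hs1
    · rw [← D.T_eq w hj h0 hk]; exact hc1 k h0 hk
  · intro k hk hkd
    rw [← D.T'_eq w' hk (by omega : k ≤ p ^ j)]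
    exact hc2 k hk hkd

/-- the power sums vanish -/
theorem Q_zero (h0' : Q D.b' w' 0 = 0) (hrel : D.Rel1 w w') :
    (∀ k, Q D.b w k = 0) ∧ ∀ k, Q D.b' w' k = 0 := by
  have hd := D.hd
  have hne : (Finset.range p).Nonempty := ⟨0, Finset.mem_range.2 hp.out.pos⟩
  obtain ⟨k₀, hk₀, hmax⟩ := Finset.exists_max_image (Finset.range p) (D.e w) hne
  rw [Finset.mem_range] at hk₀
  have hne' : (Finset.range d).Nonempty := ⟨0, Finset.mem_range.2 hd⟩
  obtain ⟨k₁, hk₁, hmax'⟩ := Finset.exists_max_image (Finset.range d)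
    (fun k => if k = 0 then (0 : ℝ) else D.f w' k) hne'
  rw [Finset.mem_range] at hk₁
  set N := max (D.e w k₀) (if k₁ = 0 then (0 : ℝ) else D.f w' k₁) with hNdef
  have hN : ∀ k < p, D.e w k ≤ N := fun k hk => (hmax k (Finset.mem_range.2 hk)).trans (le_max_left _ _)
  have hN' : ∀ k, 1 ≤ k → k < d → D.f w' k ≤ N := by
    intro k hk hkd
    have h1 := hmax' k (Finset.mem_range.2 hkd)
    simp only [if_neg (show ¬ k = 0 by omega)] at h1
    exact h1.trans (le_max_right _ _)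
  have hnj : ∀ j, d ≤ j → d ≤ p ^ j := fun j hj => hj.trans (Nat.lt_pow_self hp.out.one_lt).le
  have h1 : ∀ j, d ≤ j → N ≤ (p : ℝ)⁻¹ ^ j := by
    intro j hj
    obtain ⟨h2, h2'⟩ := D.step w w' h0' hrel hN hN' (j := j) (by omega) (hnj j hj)
    have h3 : N ≤ max ((p : ℝ)⁻¹ * N) ((p : ℝ)⁻¹ ^ j) := by
      refine max_le (h2 k₀ hk₀) ?_
      split_ifs with h0
      · exact le_max_of_le_right (pow_nonneg Dat.invp_pos.le _)
      · exact h2' k₁ (by omega) hk₁
    rcases le_max_iff.1 h3 with h4 | h4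
    · have h5 : N ≤ 0 := by
        by_contra hcon
        push Not at hcon
        have : (p : ℝ)⁻¹ * N < N := mul_lt_of_lt_one_left hcon Dat.invp_lt
        linarith
      exact h5.trans (pow_nonneg Dat.invp_pos.le _)
    · exact h4
  have h2 : N ≤ 0 := by
    have h4 : Tendsto (fun j : ℕ => (p : ℝ)⁻¹ ^ j) atTop (𝓝 0) :=
      tendsto_pow_atTop_nhds_zero_of_lt_one Dat.invp_pos.le Dat.invp_lt
    exact ge_of_tendsto h4 (eventually_atTop.2 ⟨d, fun j hj => h1 j hj⟩)
  constructor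
  · have h4 : ∀ k < p, ‖Q D.b w k‖ ≤ 0 := by
      intro k hk
      have h5 := (hN k hk).trans h2
      rcases Nat.eq_zero_or_pos k with h0 | h0
      · subst h0
        rw [D.e_zero] at h5
        by_contra hcon
        push Not at hcon
        exact absurd h5 (not_le.2 (mul_pos Dat.invp_pos hcon))
      · rw [D.e_pos w h0] at h5
        by_contra hcon
        push Not at hcon
        exact absurd h5 (not_le.2 (mul_pos (pow_pos Dat.invp_pos _) hcon))
    intro k
    have h5 := Q_bound D.b w D.norm_b 0 le_rfl (by rw [D.cardι]; exact h4) k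
    exact norm_le_zero_iff.1 h5
  · have h4 : ∀ k < d, ‖Q D.b' w' k‖ ≤ 0 := by
      intro k hk
      rcases Nat.eq_zero_or_pos k with h0 | h0
      · subst h0
        rw [h0', norm_zero]
      · have h5 := (hN' k h0 hk).trans h2
        unfold f at h5
        have h6 : 0 < ‖(k : Ω)‖ := by
          rw [norm_nat D.hpn (by omega)]
          exact pow_pos Dat.invp_pos _
        rw [div_le_iff₀ h6, zero_mul] at h5
        by_contra hcon
        push Not at hcon
        exact absurd h5 (not_le.2 (mul_pos (pow_pos Dat.invp_pos _) hcon))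
    intro k
    have h5 := Q_bound D.b' w' D.norm_b' 0 le_rfl (by rw [D.cardι']; exact h4) k
    exact norm_le_zero_iff.1 h5

end Tw

end Pool.Agent.H31.Frob
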