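import Pool.Agent.H31.Frob.Log

/-!
# Relations between approximate logarithms, interpolation, power sums
-/

set_option autoImplicit false

namespace Pool.Agent.H31.Frob

open Finset Polynomial Filter Topology

section apx

variable {Ω : Type} [NormedField Ω] [IsUltrametricDist Ω] {p : ℕ} [hp : Fact p.Prime]

/-- `x = 1 + p ^ j t` modulo `p ^ (2 j)` -/
def Apx (p j : ℕ) (x t : Ω) : Prop := ‖t‖ ≤ 1 ∧ ‖x - 1 - (p : Ω) ^ j * t‖ ≤ (p : ℝ)⁻¹ ^ (j + j)

include hp

theorem Apx.sub_one (hpn : ‖(p : Ω)‖ = (p : ℝ)⁻¹) {j : ℕ} {x t : Ω} (h : Apx p j x t) :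
    ‖x - 1‖ ≤ (p : ℝ)⁻¹ ^ j := by
  have e : x - 1 = (x - 1 - (p : Ω) ^ j * t) + (p : Ω) ^ j * t := by ring
  rw [e]
  refine norm_add_le' (h.2.trans ?_) ?_
  · exact pow_le_pow_of_le_one Dat.invp_pos.le Dat.invp_lt.le (by omega)
  · rw [norm_mul, norm_pow, hpn]
    exact mul_le_of_le_one_right (pow_nonneg Dat.invp_pos.le _) h.1

theorem Apx.norm_eq (hpn : ‖(p : Ω)‖ = (p : ℝ)⁻¹) {j : ℕ} (hj : 1 ≤ j) {x t : Ω} (h : Apx p j x t) :
    ‖x‖ = 1 := by
  have h1 := h.sub_one hpn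
  have h2 : ‖x - 1‖ < 1 := h1.trans_lt (pow_lt_one₀ Dat.invp_pos.le Dat.invp_lt (by omega))
  have e : x = (x - 1) + 1 := by ring
  rw [e, norm_add_eq_right (by rw [norm_one]; exact h2), norm_one]

omit hp [IsUltrametricDist Ω] in
theorem Apx.one (j : ℕ) : Apx p j (1 : Ω) 0 := by
  refine ⟨by simp, ?_⟩
  simp

theorem Apx.mul (hpn : ‖(p : Ω)‖ = (p : ℝ)⁻¹) {j : ℕ} (hj : 1 ≤ j) {x t x' t' : Ω}
    (h : Apx p j x t) (h' : Apx p j x' t') : Apx p j (x * x') (t + t') := by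
  refine ⟨norm_add_le' h.1 h'.1, ?_⟩
  have e : x * x' - 1 - (p : Ω) ^ j * (t + t') =
      (x - 1 - (p : Ω) ^ j * t) * x' + (x' - 1 - (p : Ω) ^ j * t') +
      (p : Ω) ^ j * t * (x' - 1) := by ring
  rw [e]
  refine norm_add_le' (norm_add_le' ?_ h'.2) ?_
  · rw [norm_mul, h'.norm_eq hpn hj, mul_one]; exact h.2
  · rw [norm_mul, norm_mul, norm_pow, hpn, pow_add]
    refine mul_le_mul (mul_le_of_le_one_right (pow_nonneg Dat.invp_pos.le _) h.1)
      (h'.sub_one hpn) (norm_nonneg _) (pow_nonneg Dat.invp_pos.le _)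

theorem Apx.inv (hpn : ‖(p : Ω)‖ = (p : ℝ)⁻¹) {j : ℕ} (hj : 1 ≤ j) {x t : Ω}
    (h : Apx p j x t) : Apx p j x⁻¹ (-t) := by
  refine ⟨by rw [norm_neg]; exact h.1, ?_⟩
  have hx := h.norm_eq hpn hj
  have h0 : x ≠ 0 := by intro h0; rw [h0, norm_zero] at hx; exact zero_ne_one hx
  have e : x⁻¹ - 1 - (p : Ω) ^ j * -t =
      x⁻¹ * (-(x - 1 - (p : Ω) ^ j * t) + (p : Ω) ^ j * t * (x - 1)) := by
    field_simp
    ring
  rw [e, norm_mul, norm_inv, hx, inv_one, one_mul]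
  refine norm_add_le' (by rw [norm_neg]; exact h.2) ?_
  rw [norm_mul, norm_mul, norm_pow, hpn, pow_add]
  refine mul_le_mul (mul_le_of_le_one_right (pow_nonneg Dat.invp_pos.le _) h.1)
    (h.sub_one hpn) (norm_nonneg _) (pow_nonneg Dat.invp_pos.le _)

theorem Apx.pow (hpn : ‖(p : Ω)‖ = (p : ℝ)⁻¹) {j : ℕ} (hj : 1 ≤ j) {x t : Ω}
    (h : Apx p j x t) (n : ℕ) : Apx p j (x ^ n) ((n : Ω) * t) := by
  induction n with
  | zero => simpa using Apx.one (Ω := Ω) (p := p) j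
  | succ n ih =>
    rw [pow_succ]
    have e : ((n + 1 : ℕ) : Ω) * t = (n : Ω) * t + t := by push_cast; ring
    rw [e]
    exact ih.mul hpn hj h

theorem Apx.zpow (hpn : ‖(p : Ω)‖ = (p : ℝ)⁻¹) {j : ℕ} (hj : 1 ≤ j) {x t : Ω}
    (h : Apx p j x t) (n : ℤ) : Apx p j (x ^ n) ((n : Ω) * t) := by
  obtain ⟨k, rfl | rfl⟩ := n.eq_nat_or_neg
  · rw [zpow_natCast, Int.cast_natCast]
    exact h.pow hpn hj k
  · rw [zpow_neg, zpow_natCast]
    have e : ((-(k : ℤ) : ℤ) : Ω) * t = -((k : Ω) * t) := by push_cast; ring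
    rw [e]
    exact (h.pow hpn hj k).inv hpn hj

theorem Apx.prod (hpn : ‖(p : Ω)‖ = (p : ℝ)⁻¹) {j : ℕ} (hj : 1 ≤ j) {α : Type} (s : Finset α)
    (x t : α → Ω) (h : ∀ a ∈ s, Apx p j (x a) (t a)) : Apx p j (∏ a ∈ s, x a) (∑ a ∈ s, t a) := by
  classical
  induction s using Finset.induction_on with
  | empty => simpa using Apx.one (Ω := Ω) (p := p) j
  | insert a s ha ih =>
    rw [Finset.prod_insert ha, Finset.sum_insert ha]
    exact (h a (Finset.mem_insert_self _ _)).mul hpn hj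
      (ih fun b hb => h b (Finset.mem_insert_of_mem hb))

theorem Apx.L (hpn : ‖(p : Ω)‖ = (p : ℝ)⁻¹) (h3 : 3 ≤ p) (j : ℕ) {x : Ω} (hx : ‖x - 1‖ ≤ (p : ℝ)⁻¹) :
    Apx p j (x ^ (p ^ j)) (Frob.L p j x) := by
  refine ⟨(L_norm hpn h3 j x hx).trans Dat.invp_lt.le, ?_⟩
  rw [L_spec hpn j x]
  have e : 1 + (p : Ω) ^ j * Frob.L p j x - 1 - (p : Ω) ^ j * Frob.L p j x = 0 := by ring
  rw [e, norm_zero]
  exact pow_nonneg Dat.invp_pos.le _

/-- a multiplicative relation gives a linear relation -/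
theorem rel_L (hpn : ‖(p : Ω)‖ = (p : ℝ)⁻¹) (h3 : 3 ≤ p) {j : ℕ} (hj : 1 ≤ j) {α : Type} (s : Finset α)
    (x : α → Ω) (M : α → ℤ) (hx : ∀ a ∈ s, ‖x a - 1‖ ≤ (p : ℝ)⁻¹)
    (h : ‖∏ a ∈ s, x a ^ M a - 1‖ ≤ (p : ℝ)⁻¹ ^ (j + j)) :
    ‖∑ a ∈ s, (M a : Ω) * Frob.L p j (x a)‖ ≤ (p : ℝ)⁻¹ ^ j := by
  have hp0 := p_ne hpn
  have h1 : Apx p j (∏ a ∈ s, (x a ^ (p ^ j)) ^ M a) (∑ a ∈ s, (M a : Ω) * Frob.L p j (x a)) :=
    Apx.prod hpn hj s _ _ fun a ha => (Apx.L hpn h3 j (hx a ha)).zpow hpn hj (M a)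
  have h2 : ∏ a ∈ s, (x a ^ (p ^ j)) ^ M a = (∏ a ∈ s, x a ^ M a) ^ (p ^ j) := by
    rw [← Finset.prod_pow]
    refine Finset.prod_congr rfl fun a _ => ?_
    rw [← zpow_natCast, ← zpow_natCast, ← zpow_mul, ← zpow_mul, mul_comm]
  rw [h2] at h1
  set E := ∏ a ∈ s, x a ^ M a with hE
  have hE1 : ‖E‖ ≤ 1 := by
    have e : E = (E - 1) + 1 := by ring
    rw [e]
    exact norm_add_le' (h.trans (pow_le_one₀ Dat.invp_pos.le Dat.invp_lt.le)) (by rw [norm_one])
  have h4 : ‖E ^ (p ^ j) - 1‖ ≤ (p : ℝ)⁻¹ ^ (j + j) := by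
    by_cases h0 : E - 1 = 0
    · have : E = 1 := sub_eq_zero.1 h0
      rw [this, one_pow, sub_self, norm_zero]
      exact pow_nonneg Dat.invp_pos.le _
    · set EB : ball Ω := ⟨E, hE1⟩ with hEB
      have h5 : EB - 1 ∣ EB ^ (p ^ j) - 1 := sub_one_dvd_pow_sub_one _ _
      have h6 : EB - 1 ≠ 0 := fun h7 => h0 (congrArg (fun t : ball Ω => (t : Ω)) h7)
      exact ((ball_dvd h6).1 h5).trans h
  have h5 : (p : Ω) ^ j * (∑ a ∈ s, (M a : Ω) * Frob.L p j (x a)) =
      (E ^ (p ^ j) - 1) - (E ^ (p ^ j) - 1 - (p : Ω) ^ j * (∑ a ∈ s, (M a : Ω) * Frob.L p j (x a))) := by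
    ring
  have h6 : ‖(p : Ω) ^ j * (∑ a ∈ s, (M a : Ω) * Frob.L p j (x a))‖ ≤ (p : ℝ)⁻¹ ^ (j + j) := by
    rw [h5]
    exact norm_sub_le'' h4 h1.2
  rw [norm_mul, norm_pow, hpn, pow_add] at h6
  exact le_of_mul_le_mul_left h6 (pow_pos Dat.invp_pos _)

end apx

section interp

variable {Ω : Type} [NormedField Ω] [IsUltrametricDist Ω]

/-- polynomials with coefficients in the unit ball -/
def IntP (f : Polynomial Ω) : Prop := ∀ k, ‖f.coeff k‖ ≤ 1

theorem IntP.mul {f g : Polynomial Ω} (hf : IntP f) (hg : IntP g) : IntP (f * g) := by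
  intro k
  rw [coeff_mul]
  refine norm_sum_le' _ _ _ zero_le_one fun x _ => ?_
  rw [norm_mul]
  exact mul_le_one₀ (hf _) (norm_nonneg _) (hg _)

theorem IntP.one : IntP (1 : Polynomial Ω) := by
  intro k
  rw [coeff_one]
  split_ifs <;> simp

theorem IntP.C {a : Ω} (ha : ‖a‖ ≤ 1) : IntP (Polynomial.C a) := by
  intro k
  rw [coeff_C]
  split_ifs
  · exact ha
  · simp

theorem IntP.prod {α : Type} (s : Finset α) (f : α → Polynomial Ω) (h : ∀ a ∈ s, IntP (f a)) :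
    IntP (∏ a ∈ s, f a) := by
  classical
  induction s using Finset.induction_on with
  | empty => simpa using IntP.one (Ω := Ω)
  | insert a s ha ih =>
    rw [Finset.prod_insert ha]
    exact (h a (Finset.mem_insert_self _ _)).mul (ih fun b hb => h b (Finset.mem_insert_of_mem hb))

theorem IntP.X_sub_C {a : Ω} (ha : ‖a‖ ≤ 1) : IntP (Polynomial.X - Polynomial.C a) := by
  intro k
  rw [coeff_sub]
  refine norm_sub_le'' ?_ (IntP.C ha k)
  rw [coeff_X]
  split_ifs <;> simp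

/-- coefficients of a polynomial with small values -/
theorem interp {κ : Type} [Fintype κ] (Y : κ → Ω) (hY : ∀ i, ‖Y i‖ ≤ 1)
    (hsep : ∀ i j, i ≠ j → ‖Y i - Y j‖ = 1) (G : Polynomial Ω) (hG : G.degree < Fintype.card κ) (b : ℝ)
    (hb : 0 ≤ b) (h : ∀ i, ‖G.eval (Y i)‖ ≤ b) (k : ℕ) : ‖G.coeff k‖ ≤ b := by
  classical
  have hinj : Function.Injective Y := by
    intro i j hij
    by_contra hne
    have := hsep i j hne
    rw [hij, sub_self, norm_zero] at this
    exact zero_ne_one this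
  have h1 : G = Lagrange.interpolate Finset.univ Y (fun i => G.eval (Y i)) :=
    Lagrange.eq_interpolate hinj.injOn (by rwa [Finset.card_univ])
  rw [h1, Lagrange.interpolate_apply, finset_sum_coeff]
  refine norm_sum_le' _ _ _ hb fun i _ => ?_
  rw [coeff_C_mul, norm_mul]
  have h2 : IntP (Lagrange.basis Finset.univ Y i) := by
    unfold Lagrange.basis
    refine IntP.prod _ _ fun j hj => ?_
    unfold Lagrange.basisDivisor
    have hne : i ≠ j := (Finset.ne_of_mem_erase hj).symm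
    exact (IntP.C (by rw [norm_inv, hsep i j hne, inv_one])).mul (IntP.X_sub_C (hY j))
  calc ‖G.eval (Y i)‖ * ‖(Lagrange.basis Finset.univ Y i).coeff k‖ ≤ b * 1 :=
        mul_le_mul (h i) (h2 k) (norm_nonneg _) hb
    _ = b := mul_one b

end interp

section powersums

variable {Ω : Type} [NormedField Ω] {ι : Type} [Fintype ι] (b w : ι → Ω)

/-- power sums -/
def Q (k : ℕ) : Ω := ∑ l, w l * b l ^ k

/-- the polynomial with the roots `b_l` -/
noncomputable def H : Polynomial Ω := ∏ l, (X - C (b l))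

theorem Q_rec (k : ℕ) : Q b w (k + Fintype.card ι) =
    -∑ i ∈ Finset.range (Fintype.card ι), (H b).coeff i * Q b w (k + i) := by
  have hm : (H b).Monic := monic_prod_of_monic _ _ fun i _ => monic_X_sub_C _
  have hd : (H b).natDegree = Fintype.card ι := by
    unfold H
    rw [natDegree_prod_of_monic _ _ fun i _ => monic_X_sub_C _]
    simp
  have h1 : ∀ l, ∑ i ∈ Finset.range (Fintype.card ι), (H b).coeff i * b l ^ i + b l ^ (Fintype.card ι) = 0 := by
    intro l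
    have h2 : (H b).eval (b l) = 0 := by
      unfold H
      rw [eval_prod]
      exact Finset.prod_eq_zero (Finset.mem_univ l) (by simp)
    rw [eval_eq_sum_range, hd, Finset.sum_range_succ] at h2
    have h3 : (H b).coeff (Fintype.card ι) = 1 := by rw [← hd]; exact hm
    rw [h3, one_mul] at h2
    exact h2
  have h4 : Q b w (k + Fintype.card ι) +
      ∑ i ∈ Finset.range (Fintype.card ι), (H b).coeff i * Q b w (k + i) = 0 := by
    unfold Q
    simp only [Finset.mul_sum]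
    rw [Finset.sum_comm, ← Finset.sum_add_distrib]
    refine Finset.sum_eq_zero fun l _ => ?_
    have h5 := h1 l
    calc w l * b l ^ (k + Fintype.card ι) + ∑ i ∈ Finset.range (Fintype.card ι), (H b).coeff i * (w l * b l ^ (k + i))
        = w l * b l ^ k * (∑ i ∈ Finset.range (Fintype.card ι), (H b).coeff i * b l ^ i + b l ^ (Fintype.card ι)) := by
          rw [mul_add, Finset.mul_sum, add_comm, pow_add]
          congr 1
          · refine Finset.sum_congr rfl fun i _ => ?_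
            rw [pow_add]; ring
          · ring
      _ = 0 := by rw [h5, mul_zero]
  linear_combination h4

theorem Q_bound [IsUltrametricDist Ω] (hb : ∀ l, ‖b l‖ ≤ 1) (B : ℝ) (hB : 0 ≤ B)
    (h : ∀ k < Fintype.card ι, ‖Q b w k‖ ≤ B) (k : ℕ) : ‖Q b w k‖ ≤ B := by
  have hI : IntP (H b) := IntP.prod _ _ fun l _ => IntP.X_sub_C (hb l)
  induction k using Nat.strong_induction_on with
  | _ k ih =>
    by_cases hk : k < Fintype.card ι
    · exact h k hk
    · obtain ⟨j, rfl⟩ : ∃ j, k = j + Fintype.card ι := ⟨k - Fintype.card ι, by omega⟩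
      rw [Q_rec, norm_neg]
      refine norm_sum_le' _ _ _ hB fun i hi => ?_
      rw [Finset.mem_range] at hi
      rw [norm_mul]
      calc ‖(H b).coeff i‖ * ‖Q b w (j + i)‖ ≤ 1 * B :=
            mul_le_mul (hI i) (ih _ (by omega)) (norm_nonneg _) zero_le_one
        _ = B := one_mul B

theorem H_coeff_pred (hc : 1 ≤ Fintype.card ι) : (H b).coeff (Fintype.card ι - 1) = -∑ l, b l := by
  unfold H
  have h1 := Polynomial.prod_X_sub_C_coeff_card_pred (Finset.univ : Finset ι) b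
    (by rw [Finset.card_univ]; omega)
  rwa [Finset.card_univ] at h1

/-- vanishing power sums -/
theorem w_zero (hb : Function.Injective b) (h : ∀ k, Q b w k = 0) (l : ι) : w l = 0 := by
  classical
  have h1 : ∀ f : Polynomial Ω, ∑ l, w l * f.eval (b l) = 0 := by
    intro f
    simp only [eval_eq_sum_range, Finset.mul_sum]
    rw [Finset.sum_comm]
    refine Finset.sum_eq_zero fun i _ => ?_
    have h2 := h i
    unfold Q at h2
    calc ∑ l, w l * (f.coeff i * b l ^ i) = f.coeff i * ∑ l, w l * b l ^ i := by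
          rw [Finset.mul_sum]
          exact Finset.sum_congr rfl fun l _ => by ring
      _ = 0 := by rw [h2, mul_zero]
  have h2 := h1 (∏ l' ∈ Finset.univ.erase l, (X - C (b l')))
  rw [Finset.sum_eq_single l] at h2
  · rw [eval_prod] at h2
    rcases mul_eq_zero.1 h2 with h3 | h3
    · exact h3
    · exfalso
      rw [Finset.prod_eq_zero_iff] at h3
      obtain ⟨l', hl', h4⟩ := h3
      rw [eval_sub, eval_X, eval_C, sub_eq_zero] at h4
      exact Finset.ne_of_mem_erase hl' (hb h4).symm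
  · intro l' _ hne
    have h3 : (∏ l'' ∈ Finset.univ.erase l, (X - C (b l''))).eval (b l') = 0 := by
      rw [eval_prod]
      exact Finset.prod_eq_zero (Finset.mem_erase.2 ⟨hne, Finset.mem_univ _⟩) (by simp)
    rw [h3, mul_zero]
  · intro h3; exact absurd (Finset.mem_univ l) h3

end powersums

end Pool.Agent.H31.Frob
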